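import Pool.Agent.L7h55.GP.Walk
import Pool.Agent.L7h79.GR.Crt
import Pool.Agent.L7h60.GR.Typ
import Pool.Agent.L7h32.GR.W

/-!
# The gcd recursion of MP_b5e119_nt: well distributed families of parameters

`Fam I ν X n₀ a κ`: the family `ν i`, `i ∈ I`, of parameters has at most `(X / L + 1) * loss` members with
`d ∣ 2 ν - n` for all the pairs `(n, d)` of a list, `L` the least common multiple of the `d`, where the loss is the
product of the `a n ^ a τ(d) ^ κ`.
-/

set_option autoImplicit false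

namespace Pool.Agent.L7h55.GP

open Finset Pool.Agent.N333.GR Pool.Agent.L7h79.GR
open scoped Pointwise

/-- the loss of one condition `d ∣ 2 N - n` -/
def wt (a κ : ℕ) (p : ℕ × ℕ) : ℕ := a * p.1 ^ a * p.2.divisors.card ^ κ

open Classical in
/-- a finite family of natural numbers which is well distributed in the classes `2 N ≡ n` -/
def Fam {ι : Type} (I : Finset ι) (ν : ι → ℕ) (X n₀ a κ : ℕ) : Prop :=
  ∀ c : List (ℕ × ℕ), (∀ p ∈ c, n₀ ≤ p.1 ∧ p.1 % 2 = 1 ∧ 0 < p.2) →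
    ((I.filter (fun i => ∀ p ∈ c, (p.2 : ℤ) ∣ 2 * (ν i : ℤ) - p.1)).card : ℝ) ≤
      ((X : ℝ) / lc c + 1) * ((c.map (wt a κ)).prod : ℕ)

/-- for every odd `n`, `n₀ ≤ n ≤ G`, the number `2 N - n` has at most `M` divisors up to `Z` -/
def Typ' (n₀ G Z M N : ℕ) : Prop :=
  ∀ n : ℕ, n₀ ≤ n → n ≤ G → n % 2 = 1 → ((Icc 1 Z).filter (fun E : ℕ => (E : ℤ) ∣ 2 * (N : ℤ) - n)).card ≤ M

lemma card_divisors_mul_le (a b : ℕ) : (a * b).divisors.card ≤ a.divisors.card * b.divisors.card := by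
  rw [Nat.divisors_mul]
  exact Finset.card_mul_le

/-- the average of the powers of the number of divisors -/
theorem tau_sum (Z κ : ℕ) :
    ∑ E ∈ Icc 1 Z, ((E.divisors.card : ℝ) ^ κ / E) ≤ (1 + Real.log Z) ^ (2 ^ κ) := by
  induction κ with
  | zero =>
    have := Pool.Agent.L7h60.GR.harm Z
    simpa using this
  | succ κ ih =>
    obtain ⟨f, hf⟩ : ∃ f : ℕ → ℝ, f = fun E : ℕ => ((E.divisors.card : ℝ) ^ κ / E) := ⟨_, rfl⟩
    have hf0 : ∀ E, 0 ≤ f E := fun E => by rw [hf]; positivity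
    have h1 : ∀ E ∈ Icc 1 Z, ((E.divisors.card : ℝ) ^ (κ + 1) / E) ≤
        ∑ x ∈ E.divisorsAntidiagonal, f x.1 * f x.2 := by
      intro E hE
      rw [mem_Icc] at hE
      have hE0 : (0 : ℝ) < E := by exact_mod_cast (by omega : 0 < E)
      calc ((E.divisors.card : ℝ) ^ (κ + 1) / E) = ∑ _x ∈ E.divisorsAntidiagonal, ((E.divisors.card : ℝ) ^ κ / E) := by
            rw [sum_const, nsmul_eq_mul]
            have e : E.divisorsAntidiagonal.card = E.divisors.card := by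
              rw [← Nat.map_div_right_divisors, card_map]
            rw [e, pow_succ]
            ring
        _ ≤ _ := by
            refine sum_le_sum fun x hx => ?_
            rw [Nat.mem_divisorsAntidiagonal] at hx
            obtain ⟨hx1, hx2⟩ := hx
            have h2 : E.divisors.card ≤ x.1.divisors.card * x.2.divisors.card := by
              rw [← hx1]; exact card_divisors_mul_le _ _
            have h3 : ((E.divisors.card : ℝ)) ^ κ ≤ ((x.1.divisors.card : ℝ) * x.2.divisors.card) ^ κ := by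
              apply pow_le_pow_left₀ (Nat.cast_nonneg _)
              exact_mod_cast h2
            have h4 : (E : ℝ) = x.1 * x.2 := by rw [← hx1]; push_cast; ring
            rw [hf]
            simp only
            rw [div_mul_div_comm, ← h4, ← mul_pow]
            exact div_le_div_of_nonneg_right h3 hE0.le
    have h2 : ∑ E ∈ Icc 1 Z, ∑ x ∈ E.divisorsAntidiagonal, f x.1 * f x.2 ≤
        ∑ x ∈ (Icc 1 Z) ×ˢ (Icc 1 Z), f x.1 * f x.2 := by
      rw [← sum_biUnion]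
      · refine sum_le_sum_of_subset_of_nonneg ?_ fun x _ _ => mul_nonneg (hf0 _) (hf0 _)
        intro x hx
        rw [mem_biUnion] at hx
        obtain ⟨E, hE, hx⟩ := hx
        rw [mem_Icc] at hE
        rw [Nat.mem_divisorsAntidiagonal] at hx
        have hp : 0 < x.1 * x.2 := by rw [hx.1]; omega
        have h3 : 0 < x.1 := Nat.pos_of_mul_pos_right hp
        have h4 : 0 < x.2 := Nat.pos_of_mul_pos_left hp
        rw [mem_product, mem_Icc, mem_Icc]
        refine ⟨⟨h3, ?_⟩, h4, ?_⟩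
        · calc x.1 ≤ x.1 * x.2 := Nat.le_mul_of_pos_right _ h4
            _ ≤ Z := by omega
        · calc x.2 ≤ x.1 * x.2 := Nat.le_mul_of_pos_left _ h3
            _ ≤ Z := by omega
      · intro E _ E' _ hne
        rw [Function.onFun, disjoint_left]
        intro x hx hx'
        rw [Nat.mem_divisorsAntidiagonal] at hx hx'
        exact hne (hx.1.symm.trans hx'.1)
    have h3 : ∑ x ∈ (Icc 1 Z) ×ˢ (Icc 1 Z), f x.1 * f x.2 = (∑ E ∈ Icc 1 Z, f E) ^ 2 := by
      rw [sum_product, pow_two, sum_mul_sum]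
    calc ∑ E ∈ Icc 1 Z, ((E.divisors.card : ℝ) ^ (κ + 1) / E) ≤
        ∑ E ∈ Icc 1 Z, ∑ x ∈ E.divisorsAntidiagonal, f x.1 * f x.2 := sum_le_sum h1
      _ ≤ (∑ E ∈ Icc 1 Z, f E) ^ 2 := h2.trans h3.le
      _ ≤ ((1 + Real.log Z) ^ (2 ^ κ)) ^ 2 := by
          apply pow_le_pow_left₀ (sum_nonneg fun E _ => hf0 E)
          rw [hf]
          exact ih
      _ = _ := by rw [← pow_mul, pow_succ]

open Classical in
/-- **Markov** -/
theorem typ_fam {ι : Type} {I : Finset ι} {ν : ι → ℕ} {X n₀ a κ : ℕ} (hF : Fam I ν X n₀ a κ) (G Z M : ℕ)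
    (hG : 1 ≤ G) (hZ : 1 ≤ Z) (hM : 1 ≤ M) :
    ((I.filter (fun i => ¬ Typ' n₀ G Z M (ν i))).card : ℝ) ≤
      (G : ℝ) * ((a * (G : ℝ) ^ a) * ((X + Z) * (1 + Real.log Z) ^ (2 ^ κ))) / M := by
  have hM0 : (0 : ℝ) < M := by exact_mod_cast hM
  rw [le_div_iff₀ hM0]
  set O : Finset ℕ := (Icc 1 G).filter (fun n => n % 2 = 1 ∧ n₀ ≤ n) with hO
  set B : Finset ι := I.filter (fun i => ¬ Typ' n₀ G Z M (ν i)) with hB
  let d : ι → ℕ → ℝ := fun i n => (((Icc 1 Z).filter (fun E : ℕ => (E : ℤ) ∣ 2 * (ν i : ℤ) - n)).card : ℝ)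
  have hd0 : ∀ N n, 0 ≤ d N n := fun N n => Nat.cast_nonneg _
  have h1 : ∀ i ∈ B, (M : ℝ) ≤ ∑ n ∈ O, d i n := by
    intro i hi
    rw [hB, mem_filter] at hi
    have h2 := hi.2
    unfold Typ' at h2
    push Not at h2
    obtain ⟨n, hn0, hnG, hn, hc⟩ := h2
    have hnO : n ∈ O := by
      rw [hO, mem_filter, mem_Icc]
      exact ⟨⟨by omega, hnG⟩, hn, hn0⟩
    refine le_trans ?_ (single_le_sum (f := fun n => d i n) (fun n _ => hd0 i n) hnO)
    exact Nat.cast_le.2 hc.le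
  have h2 : (B.card : ℝ) * M ≤ ∑ i ∈ I, ∑ n ∈ O, d i n := by
    calc (B.card : ℝ) * M = ∑ i ∈ B, (M : ℝ) := by rw [sum_const, nsmul_eq_mul]
      _ ≤ ∑ i ∈ B, ∑ n ∈ O, d i n := sum_le_sum h1
      _ ≤ ∑ i ∈ I, ∑ n ∈ O, d i n := by
          refine sum_le_sum_of_subset_of_nonneg (filter_subset _ _) fun N _ _ => ?_
          exact sum_nonneg fun n _ => hd0 N n
  refine h2.trans ?_
  rw [sum_comm]
  have hlog : 0 ≤ Real.log Z := Real.log_nonneg (by exact_mod_cast hZ)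
  have hX : (0 : ℝ) ≤ X := Nat.cast_nonneg X
  have hZ0 : (0 : ℝ) ≤ Z := Nat.cast_nonneg Z
  have ha : (0 : ℝ) ≤ a := Nat.cast_nonneg a
  have h3 : ∀ n ∈ O, ∑ i ∈ I, d i n ≤ (a * (G : ℝ) ^ a) * ((X + Z) * (1 + Real.log Z) ^ (2 ^ κ)) := by
    intro n hn
    rw [hO, mem_filter, mem_Icc] at hn
    have e1 : ∑ i ∈ I, d i n =
        ∑ E ∈ Icc 1 Z, ((I.filter (fun i => (E : ℤ) ∣ 2 * (ν i : ℤ) - n)).card : ℝ) := by
      show ∑ i ∈ I, (((Icc 1 Z).filter (fun E : ℕ => (E : ℤ) ∣ 2 * (ν i : ℤ) - n)).card : ℝ) = _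
      simp_rw [card_filter]
      push_cast
      rw [sum_comm]
    rw [e1]
    have h4 : ∀ E ∈ Icc 1 Z, ((I.filter (fun i => (E : ℤ) ∣ 2 * (ν i : ℤ) - n)).card : ℝ) ≤
        (a * (G : ℝ) ^ a) * ((X + Z) * ((E.divisors.card : ℝ) ^ κ / E)) := by
      intro E hE
      rw [mem_Icc] at hE
      have hE1 : (1 : ℝ) ≤ E := by exact_mod_cast hE.1
      have hEZ : (E : ℝ) ≤ Z := by exact_mod_cast hE.2
      have h5 := hF [(n, E)] (by
        intro p hp
        rw [List.mem_singleton] at hp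
        subst hp
        exact ⟨hn.2.2, hn.2.1, by simp only; omega⟩)
      simp only [List.mem_singleton, forall_eq, List.map_cons, List.map_nil, List.prod_cons, List.prod_nil,
        mul_one] at h5
      have e2 : lc [(n, E)] = E := by
        rw [lc_cons]
        show Nat.lcm E 1 = E
        exact Nat.lcm_one_right E
      rw [e2] at h5
      refine h5.trans ?_
      rw [wt]
      push_cast
      have h6 : (n : ℝ) ^ a ≤ (G : ℝ) ^ a := by
        apply pow_le_pow_left₀ (Nat.cast_nonneg _)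
        exact_mod_cast hn.1.2
      have h7 : (X : ℝ) / E + 1 ≤ (X + Z) / E := by
        rw [add_div]
        have : 1 ≤ (Z : ℝ) / E := by rw [one_le_div (by linarith)]; exact hEZ
        linarith
      calc ((X : ℝ) / E + 1) * ((a : ℝ) * (n : ℝ) ^ a * (E.divisors.card : ℝ) ^ κ)
          ≤ ((X + Z) / E) * ((a : ℝ) * (G : ℝ) ^ a * (E.divisors.card : ℝ) ^ κ) := by
            gcongr
        _ = _ := by ring
    calc ∑ E ∈ Icc 1 Z, ((I.filter (fun i => (E : ℤ) ∣ 2 * (ν i : ℤ) - n)).card : ℝ) ≤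
        ∑ E ∈ Icc 1 Z, (a * (G : ℝ) ^ a) * ((X + Z) * ((E.divisors.card : ℝ) ^ κ / E)) := sum_le_sum h4
      _ = (a * (G : ℝ) ^ a) * ((X + Z) * ∑ E ∈ Icc 1 Z, ((E.divisors.card : ℝ) ^ κ / E)) := by
          rw [← mul_sum, ← mul_sum]
      _ ≤ _ := by
          have := tau_sum Z κ
          gcongr
  have hpos : 0 ≤ (a * (G : ℝ) ^ a) * ((X + Z) * (1 + Real.log Z) ^ (2 ^ κ)) := by positivity
  calc ∑ n ∈ O, ∑ i ∈ I, d i n ≤
      ∑ n ∈ O, ((a * (G : ℝ) ^ a) * ((X + Z) * (1 + Real.log Z) ^ (2 ^ κ))) := sum_le_sum h3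
    _ = (O.card : ℝ) * ((a * (G : ℝ) ^ a) * ((X + Z) * (1 + Real.log Z) ^ (2 ^ κ))) := by
        rw [sum_const, nsmul_eq_mul]
    _ ≤ _ := by
        refine mul_le_mul_of_nonneg_right ?_ hpos
        have : O.card ≤ (Icc 1 G).card := card_le_card (filter_subset _ _)
        rw [Nat.card_Icc] at this
        exact_mod_cast (by omega : O.card ≤ G)

end Pool.Agent.L7h55.GP
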