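import Pool.Agent.L7h55.GP.Fin

/-!
# The gcd recursion of MP_b5e119_nt: well distributed families with an error term

As `Pool.Agent.L7h55.GP.Fam`, with an error term `R` instead of `1` and a restriction to least common multiples `≤ Lm`.
-/

set_option autoImplicit false

namespace Pool.Agent.L7h55.GP

open Finset Pool.Agent.N333.GR Pool.Agent.N333.GR.Cnt Pool.Agent.L7h79.GR

open Classical in
/-- a finite family of natural numbers which is well distributed in the classes `2 N ≡ n`, up to an error `R` -/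
def FamR {ι : Type} (I : Finset ι) (ν : ι → ℕ) (X R : ℝ) (Lm n₀ a κ : ℕ) : Prop :=
  ∀ c : List (ℕ × ℕ), (∀ p ∈ c, n₀ ≤ p.1 ∧ p.1 % 2 = 1 ∧ 0 < p.2) → lc c ≤ Lm →
    ((I.filter (fun i => ∀ p ∈ c, (p.2 : ℤ) ∣ 2 * (ν i : ℤ) - p.1)).card : ℝ) ≤
      (X / lc c + R) * ((c.map (wt a κ)).prod : ℕ)

lemma lc_le {T : ℕ} (hT : 1 ≤ T) : ∀ c : List (ℕ × ℕ), (∀ p ∈ c, p.2 ≤ T) → lc c ≤ T ^ c.length := by
  intro c
  induction c with
  | nil => intro _; exact le_rfl
  | cons p c ih =>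
    intro h
    rw [lc_cons, List.length_cons, pow_succ, mul_comm]
    have h1 : Nat.lcm p.2 (lc c) ≤ p.2 * lc c := Nat.div_le_self _ _
    exact h1.trans (Nat.mul_le_mul (h p (List.mem_cons_self ..)) (ih (fun q hq => h q (List.mem_cons_of_mem _ hq))))

open Classical in
/-- **Markov** -/
theorem typ_famR {ι : Type} {I : Finset ι} {ν : ι → ℕ} {X R : ℝ} {Lm n₀ a κ : ℕ} (hF : FamR I ν X R Lm n₀ a κ)
    (hX : 0 ≤ X) (hR : 0 ≤ R) (G Z M : ℕ) (hG : 1 ≤ G) (hZ : 1 ≤ Z) (hM : 1 ≤ M) (hZL : Z ≤ Lm) :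
    ((I.filter (fun i => ¬ Typ' n₀ G Z M (ν i))).card : ℝ) ≤
      (G : ℝ) * ((a * (G : ℝ) ^ a) * ((X + R * Z) * (1 + Real.log Z) ^ (2 ^ κ))) / M := by
  have hM0 : (0 : ℝ) < M := by exact_mod_cast hM
  rw [le_div_iff₀ hM0]
  set O : Finset ℕ := (Icc 1 G).filter (fun n => n % 2 = 1 ∧ n₀ ≤ n) with hO
  set B : Finset ι := I.filter (fun i => ¬ Typ' n₀ G Z M (ν i)) with hB
  let d : ι → ℕ → ℝ := fun i n => (((Icc 1 Z).filter (fun E : ℕ => (E : ℤ) ∣ 2 * (ν i : ℤ) - n)).card : ℝ)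
  have hd0 : ∀ N n, 0 ≤ d N n := fun N n => Nat.cast_nonneg _
  have h1 : ∀ i ∈ B, (M : ℝ) ≤ ∑ n ∈ O, d i n := by
    intro i hi
    rw [hB, mem_filter] at hi
    have h2 := hi.2
    unfold Typ' at h2
    push Not at h2
    obtain ⟨n, hn0, hnG, hn, hc⟩ := h2
    have hnO : n ∈ O := by
      rw [hO, mem_filter, mem_Icc]
      exact ⟨⟨by omega, hnG⟩, hn, hn0⟩
    refine le_trans ?_ (single_le_sum (f := fun n => d i n) (fun n _ => hd0 i n) hnO)
    exact Nat.cast_le.2 hc.le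
  have h2 : (B.card : ℝ) * M ≤ ∑ i ∈ I, ∑ n ∈ O, d i n := by
    calc (B.card : ℝ) * M = ∑ i ∈ B, (M : ℝ) := by rw [sum_const, nsmul_eq_mul]
      _ ≤ ∑ i ∈ B, ∑ n ∈ O, d i n := sum_le_sum h1
      _ ≤ ∑ i ∈ I, ∑ n ∈ O, d i n := by
          refine sum_le_sum_of_subset_of_nonneg (filter_subset _ _) fun N _ _ => ?_
          exact sum_nonneg fun n _ => hd0 N n
  refine h2.trans ?_
  rw [sum_comm]
  have hlog : 0 ≤ Real.log Z := Real.log_nonneg (by exact_mod_cast hZ)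
  have hZ0 : (0 : ℝ) ≤ Z := Nat.cast_nonneg Z
  have ha : (0 : ℝ) ≤ a := Nat.cast_nonneg a
  have h3 : ∀ n ∈ O, ∑ i ∈ I, d i n ≤ (a * (G : ℝ) ^ a) * ((X + R * Z) * (1 + Real.log Z) ^ (2 ^ κ)) := by
    intro n hn
    rw [hO, mem_filter, mem_Icc] at hn
    have e1 : ∑ i ∈ I, d i n =
        ∑ E ∈ Icc 1 Z, ((I.filter (fun i => (E : ℤ) ∣ 2 * (ν i : ℤ) - n)).card : ℝ) := by
      show ∑ i ∈ I, (((Icc 1 Z).filter (fun E : ℕ => (E : ℤ) ∣ 2 * (ν i : ℤ) - n)).card : ℝ) = _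
      simp_rw [card_filter]
      push_cast
      rw [sum_comm]
    rw [e1]
    have h4 : ∀ E ∈ Icc 1 Z, ((I.filter (fun i => (E : ℤ) ∣ 2 * (ν i : ℤ) - n)).card : ℝ) ≤
        (a * (G : ℝ) ^ a) * ((X + R * Z) * ((E.divisors.card : ℝ) ^ κ / E)) := by
      intro E hE
      rw [mem_Icc] at hE
      have hE1 : (1 : ℝ) ≤ E := by exact_mod_cast hE.1
      have hEZ : (E : ℝ) ≤ Z := by exact_mod_cast hE.2
      have h5 := hF [(n, E)] (by
        intro p hp
        rw [List.mem_singleton] at hp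
        subst hp
        exact ⟨hn.2.2, hn.2.1, by simp only; omega⟩) (by
        have e2 : lc [(n, E)] = E := by
          rw [lc_cons]
          show Nat.lcm E 1 = E
          exact Nat.lcm_one_right E
        rw [e2]
        exact hE.2.trans hZL)
      simp only [List.mem_singleton, forall_eq, List.map_cons, List.map_nil, List.prod_cons, List.prod_nil,
        mul_one] at h5
      have e2 : lc [(n, E)] = E := by
        rw [lc_cons]
        show Nat.lcm E 1 = E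
        exact Nat.lcm_one_right E
      rw [e2] at h5
      refine h5.trans ?_
      rw [wt]
      push_cast
      have h6 : (n : ℝ) ^ a ≤ (G : ℝ) ^ a := by
        apply pow_le_pow_left₀ (Nat.cast_nonneg _)
        exact_mod_cast hn.1.2
      have h7 : X / E + R ≤ (X + R * Z) / E := by
        rw [add_div]
        have : R ≤ R * Z / E := by
          rw [le_div_iff₀ (by linarith)]
          exact mul_le_mul_of_nonneg_left hEZ hR
        linarith
      calc (X / E + R) * ((a : ℝ) * (n : ℝ) ^ a * (E.divisors.card : ℝ) ^ κ)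
          ≤ ((X + R * Z) / E) * ((a : ℝ) * (G : ℝ) ^ a * (E.divisors.card : ℝ) ^ κ) := by
            gcongr
        _ = _ := by ring
    calc ∑ E ∈ Icc 1 Z, ((I.filter (fun i => (E : ℤ) ∣ 2 * (ν i : ℤ) - n)).card : ℝ) ≤
        ∑ E ∈ Icc 1 Z, (a * (G : ℝ) ^ a) * ((X + R * Z) * ((E.divisors.card : ℝ) ^ κ / E)) := sum_le_sum h4
      _ = (a * (G : ℝ) ^ a) * ((X + R * Z) * ∑ E ∈ Icc 1 Z, ((E.divisors.card : ℝ) ^ κ / E)) := by
          rw [← mul_sum, ← mul_sum]
      _ ≤ _ := by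
          have := tau_sum Z κ
          gcongr
  have hpos : 0 ≤ (a * (G : ℝ) ^ a) * ((X + R * Z) * (1 + Real.log Z) ^ (2 ^ κ)) := by positivity
  calc ∑ n ∈ O, ∑ i ∈ I, d i n ≤
      ∑ n ∈ O, ((a * (G : ℝ) ^ a) * ((X + R * Z) * (1 + Real.log Z) ^ (2 ^ κ))) := sum_le_sum h3
    _ = (O.card : ℝ) * ((a * (G : ℝ) ^ a) * ((X + R * Z) * (1 + Real.log Z) ^ (2 ^ κ))) := by
        rw [sum_const, nsmul_eq_mul]
    _ ≤ _ := by
        refine mul_le_mul_of_nonneg_right ?_ hpos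
        have : O.card ≤ (Icc 1 G).card := card_le_card (filter_subset _ _)
        rw [Nat.card_Icc] at this
        exact_mod_cast (by omega : O.card ≤ G)

open Classical in
theorem claimR {ι : Type} {I : Finset ι} {ν : ι → ℕ} {X R : ℝ} {Lm n₀ a κ : ℕ} (hF : FamR I ν X R Lm n₀ a κ)
    (hX : 0 ≤ X) (hR' : 0 ≤ R)
    (hB : S_WB') (hA : S_WA') (G Y T0 Ts D M Z Z₁ r : ℕ) (Λ : ℝ) (S : Finset ℕ) (hG : 1 ≤ G)
    (hY : 2 ≤ Y) (hT0 : 1 ≤ T0) (hTs : 1 ≤ Ts) (hD : 1 ≤ D) (hM : 1 ≤ M) (hZ : G ^ r ≤ Z)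
    (hTY : Z * (Ts ^ 2 * Y) ≤ T0 * D ^ 2) (hZZ : Z ≤ Z₁) (hTZ : Ts ≤ Z₁) (hΛ1 : 1 ≤ Λ)
    (hΛ : (a : ℝ) * (G : ℝ) ^ a * (M : ℝ) ^ κ ≤ Λ) (hLm : Ts ^ r ≤ Lm) :
    ∀ (k : ℕ) (c : List (ℕ × ℕ)) (t' : ℕ),
    (∀ p ∈ c, n₀ ≤ p.1 ∧ p.1 ≤ G ∧ p.1 % 2 = 1 ∧ 0 < p.2 ∧ p.2 ≤ Ts) → c.length + k ≤ r → T0 ≤ t' →
    ((I.filter (fun i => Typ' n₀ G Z₁ M (ν i) ∧ BB' n₀ G Y Ts D S (ν i) k c t')).card : ℝ) ≤
      Λ ^ r * (X / lc c *
        (∏ i ∈ range k, (if i ∈ S then M * (3 * (G : ℝ) ^ 2 * (1 + Real.log Ts)) / Y else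
          M * (3 * (G : ℝ) ^ 2 * (1 + Real.log Ts)))) + R * (G * (Ts : ℝ) ^ 2) ^ k) := by
  have hG' : (1 : ℝ) ≤ G := by exact_mod_cast hG
  have hY' : (2 : ℝ) ≤ Y := by exact_mod_cast hY
  have hTs' : (1 : ℝ) ≤ Ts := by exact_mod_cast hTs
  have hM' : (1 : ℝ) ≤ M := by exact_mod_cast hM
  have hlog : 0 ≤ Real.log Ts := Real.log_nonneg hTs'
  have hZ1 : 1 ≤ Z := le_trans (Nat.one_le_pow _ _ hG) hZ
  obtain ⟨Q, hQ⟩ : ∃ Q : ℝ, Q = M * (3 * (G : ℝ) ^ 2 * (1 + Real.log Ts)) := ⟨_, rfl⟩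
  rw [← hQ]
  have hQ0 : 0 < Q := by rw [hQ]; positivity
  intro k
  induction k with
  | zero =>
    intro c t' h2 h3 _
    have hr0 : 0 ≤ Λ ^ r * (X / lc c + R) := by positivity
    rw [Finset.prod_range_zero, mul_one, pow_zero, mul_one]
    rcases (I.filter (fun i => Typ' n₀ G Z₁ M (ν i) ∧ BB' n₀ G Y Ts D S (ν i) 0 c t')).eq_empty_or_nonempty
      with h0 | ⟨i0, hi0⟩
    · rw [h0, card_empty, Nat.cast_zero]
      exact hr0
    rw [Finset.mem_filter] at hi0
    obtain ⟨-, hty, hdv⟩ := hi0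
    have hdv' : ∀ p ∈ c, (p.2 : ℤ) ∣ 2 * (ν i0 : ℤ) - p.1 := hdv
    have h4 := hF c (fun p hp => ⟨(h2 p hp).1, (h2 p hp).2.2.1, (h2 p hp).2.2.2.1⟩)
      ((lc_le hTs c (fun p hp => (h2 p hp).2.2.2.2)).trans ((Nat.pow_le_pow_right hTs (by omega)).trans hLm))
    have h5 : (((c.map (wt a κ)).prod : ℕ) : ℝ) ≤ Λ ^ r := by
      have h6 : ∀ c' : List (ℕ × ℕ), (∀ p ∈ c', p ∈ c) → (((c'.map (wt a κ)).prod : ℕ) : ℝ) ≤ Λ ^ c'.length := by
        intro c'
        induction c' with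
        | nil => intro _; simp
        | cons p c' ihc =>
          intro hp
          rw [List.map_cons, List.prod_cons, List.length_cons, pow_succ, mul_comm, Nat.cast_mul]
          have h7 := ihc (fun q hq => hp q (List.mem_cons_of_mem _ hq))
          have hpc := hp p (List.mem_cons_self ..)
          obtain ⟨b1, b2, b3, b4, b5⟩ := h2 p hpc
          have h8 : p.2.divisors.card ≤ M := by
            refine le_trans (card_le_card ?_) (hty p.1 b1 b2 b3)
            intro e he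
            rw [Nat.mem_divisors] at he
            rw [mem_filter, mem_Icc]
            refine ⟨⟨Nat.pos_of_dvd_of_pos he.1 b4, (Nat.le_of_dvd b4 he.1).trans (b5.trans hTZ)⟩, ?_⟩
            exact (Int.natCast_dvd_natCast.2 he.1).trans (hdv' p hpc)
          have h9 : ((wt a κ p : ℕ) : ℝ) ≤ Λ := by
            refine le_trans ?_ hΛ
            rw [wt]
            push_cast
            have c1 : (p.1 : ℝ) ≤ G := by exact_mod_cast b2
            have c2 : (p.2.divisors.card : ℝ) ≤ M := by exact_mod_cast h8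
            gcongr
          exact mul_le_mul h7 h9 (by positivity) (by positivity)
      refine (h6 c (fun p hp => hp)).trans ?_
      exact pow_le_pow_right₀ hΛ1 (by omega)
    have h6 : (((I.filter (fun i => Typ' n₀ G Z₁ M (ν i) ∧ BB' n₀ G Y Ts D S (ν i) 0 c t')).card : ℕ) : ℝ) ≤
        (X / lc c + R) * (((c.map (wt a κ)).prod : ℕ) : ℝ) := by
      refine le_trans ?_ h4
      apply Nat.cast_le.2
      apply card_le_card
      intro N hN
      rw [Finset.mem_filter] at hN ⊢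
      exact ⟨hN.1, hN.2.2⟩
    refine h6.trans ?_
    rw [mul_comm]
    exact mul_le_mul_of_nonneg_right h5 (by positivity)
  | succ k ih =>
    intro c t' h2 h3 h4
    obtain ⟨W, hW⟩ : ∃ W : ℝ, W = ∏ i ∈ range k, (if i ∈ S then Q / Y else Q) := ⟨_, rfl⟩
    have hW0 : 0 ≤ W := by rw [hW]; exact Finset.prod_nonneg fun i _ => by split_ifs <;> positivity
    have hL0 : 0 < lc c := lc_pos' fun p hp => (h2 p hp).2.2.2.1
    have hΛr : 0 < Λ ^ r := by positivity
    have hL0' : (0 : ℝ) < lc c := by exact_mod_cast hL0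
    obtain ⟨A, hAd⟩ : ∃ A : ℝ, A = Λ ^ r * (X / lc c * W) := ⟨_, rfl⟩
    have hA0 : 0 ≤ A := by rw [hAd]; positivity
    obtain ⟨B, hBd⟩ : ∃ B : ℝ, B = Λ ^ r * (R * (G * (Ts : ℝ) ^ 2) ^ k) := ⟨_, rfl⟩
    have hB0 : 0 ≤ B := by rw [hBd]; positivity
    obtain ⟨Rk, hR⟩ : ∃ Rk : ℝ, Rk = (if k ∈ S then Q / Y else Q) := ⟨_, rfl⟩
    have hR0 : 0 ≤ Rk := by rw [hR]; split_ifs <;> positivity
    -- the sets
    obtain ⟨E, hE⟩ : ∃ E : ℕ → ℕ → ℕ → Finset ι, E = fun n d t => I.filter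
      (fun i => Typ' n₀ G Z₁ M (ν i) ∧ BB' n₀ G Y Ts D S (ν i) k ((n, d) :: c) (t + 2 * d)) := ⟨_, rfl⟩
    -- the union
    have hsub : I.filter (fun i => Typ' n₀ G Z₁ M (ν i) ∧ BB' n₀ G Y Ts D S (ν i) (k + 1) c t') ⊆
        (ns' n₀ G c).biUnion fun n => (Icc D Ts).biUnion fun d => (F G Y Ts (k ∈ S) t' d).biUnion
          fun t => E n d t := by
      intro N hN
      obtain ⟨hN1, hty, n, hn, d, hd, t, ht, hb⟩ := Finset.mem_filter.1 hN
      rw [Finset.mem_biUnion]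
      refine ⟨n, hn, ?_⟩
      rw [Finset.mem_biUnion]
      refine ⟨d, hd, ?_⟩
      rw [Finset.mem_biUnion]
      refine ⟨t, ht, ?_⟩
      rw [hE]
      exact Finset.mem_filter.2 ⟨hN1, hty, hb⟩
    -- one set
    have hone : ∀ n ∈ ns' n₀ G c, ∀ d ∈ Icc D Ts, ∀ t ∈ F G Y Ts (k ∈ S) t' d,
        (((E n d t).card : ℕ) : ℝ) ≤ A * (((Nat.gcd (lc c) d : ℕ) : ℝ) / (d : ℝ)) + B := by
      intro n hn d hd t ht
      rw [ns', Finset.mem_filter, Finset.mem_Icc] at hn
      rw [Finset.mem_Icc] at hd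
      have hd0 : 0 < d := by omega
      have h5 := ih ((n, d) :: c) (t + 2 * d)
        (by
          intro p hp
          rcases List.mem_cons.1 hp with rfl | hp
          · exact ⟨hn.2.2.1, hn.1.2, hn.2.1, hd0, hd.2⟩
          · exact h2 p hp)
        (by simp only [List.length_cons]; omega) (by have := F_ge ht; omega)
      rw [hE]
      refine h5.trans (le_of_eq ?_)
      rw [lc_cons, ← hW, hAd, hBd]
      have hd1 : (0 : ℝ) < d := by exact_mod_cast hd0
      have h6 : ((Nat.lcm d (lc c) : ℕ) : ℝ) * ((Nat.gcd (lc c) d : ℕ) : ℝ) = d * lc c := by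
        rw [Nat.gcd_comm, mul_comm]
        exact_mod_cast Nat.gcd_mul_lcm d (lc c)
      have h7 : (0 : ℝ) < (Nat.lcm d (lc c) : ℕ) := by exact_mod_cast Nat.lcm_pos hd0 hL0
      have h8 : X / (Nat.lcm d (lc c) : ℕ) = X / lc c * (((Nat.gcd (lc c) d : ℕ) : ℝ) / (d : ℝ)) := by
        rw [div_mul_div_comm, div_eq_div_iff h7.ne' (by positivity)]
        rw [mul_assoc, mul_comm (lc c : ℝ) (d : ℝ), ← h6]
        ring
      simp only
      rw [h8]
      ring
    -- one time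
    have htime : ∀ n ∈ ns' n₀ G c, (((((Icc D Ts).biUnion fun d => (F G Y Ts (k ∈ S) t' d).biUnion
        fun t => E n d t).card : ℕ)) : ℝ) ≤ A * (M * (∑ d ∈ Icc D Ts, ∑ _t ∈ F G Y Ts (k ∈ S) t' d, (0 : ℝ)) + Rk / G) +
          B * (Ts : ℝ) ^ 2 := by
      intro n hn
      have hn' := hn
      rw [ns', Finset.mem_filter, Finset.mem_Icc] at hn'
      simp only [Finset.sum_const_zero, mul_zero, zero_add]
      have hcB : ∑ d ∈ Icc D Ts, ∑ _t ∈ F G Y Ts (k ∈ S) t' d, B ≤ B * (Ts : ℝ) ^ 2 := by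
        calc ∑ d ∈ Icc D Ts, ∑ _t ∈ F G Y Ts (k ∈ S) t' d, B
            = ∑ d ∈ Icc D Ts, ((F G Y Ts (k ∈ S) t' d).card : ℝ) * B := by
              refine Finset.sum_congr rfl fun d _ => ?_
              rw [Finset.sum_const, nsmul_eq_mul]
          _ ≤ ∑ d ∈ Icc D Ts, (Ts : ℝ) * B := by
              refine Finset.sum_le_sum fun d _ => ?_
              have : ((F G Y Ts (k ∈ S) t' d).card : ℝ) ≤ Ts := by exact_mod_cast F_card _ _ _ _ _ _
              exact mul_le_mul_of_nonneg_right this hB0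
          _ = ((Icc D Ts).card : ℝ) * ((Ts : ℝ) * B) := by rw [Finset.sum_const, nsmul_eq_mul]
          _ ≤ (Ts : ℝ) * ((Ts : ℝ) * B) := by
              have h8 : ((Icc D Ts).card : ℝ) ≤ Ts := by
                have : (Icc D Ts).card ≤ Ts := by rw [Nat.card_Icc]; omega
                exact_mod_cast this
              exact mul_le_mul_of_nonneg_right h8 (by positivity)
          _ = B * (Ts : ℝ) ^ 2 := by ring
      by_cases hex : ∃ d ∈ Icc D Ts, ∃ t ∈ F G Y Ts (k ∈ S) t' d, (E n d t).Nonempty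
      · obtain ⟨d0, hd0, t0, ht0, N0, hN0⟩ := hex
        rw [hE] at hN0
        obtain ⟨-, hty, hbb⟩ := Finset.mem_filter.1 hN0
        have hdv := BB_dvd' _ _ _ hbb
        have hdv' : ∀ p ∈ c, (p.2 : ℤ) ∣ 2 * (ν N0 : ℤ) - p.1 := fun p hp => hdv p (List.mem_cons_of_mem _ hp)
        obtain ⟨K, hK⟩ : ∃ K : ℕ, K = Nat.gcd (2 * (ν N0 : ℤ) - n).natAbs (lc c) := ⟨_, rfl⟩
        have hK1 : 1 ≤ K := by rw [hK]; exact Nat.gcd_pos_of_pos_right _ hL0
        have hKZ : K ≤ Z := by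
          rw [hK]
          refine (gcd_lc_small hG hn'.1.2 (fun p hp => ⟨hn'.2.2.2 p hp, (h2 p hp).2.2.2.1⟩) hdv').trans ?_
          exact (Nat.pow_le_pow_right hG (by omega)).trans hZ
        have hKM : K.divisors.card ≤ M := by
          refine le_trans (card_le_card ?_) (hty n hn'.2.2.1 hn'.1.2 hn'.2.1)
          intro e he
          rw [Nat.mem_divisors] at he
          rw [mem_filter, mem_Icc]
          refine ⟨⟨Nat.pos_of_dvd_of_pos he.1 hK1, ((Nat.le_of_dvd hK1 he.1).trans hKZ).trans hZZ⟩, ?_⟩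
          refine (Int.natCast_dvd_natCast.2 he.1).trans ?_
          rw [hK]
          exact (Int.natCast_dvd_natCast.2 (Nat.gcd_dvd_left _ _)).trans (Int.natAbs_dvd.2 dvd_rfl)
        -- the gcd with the new divisor
        have hgcd : ∀ d ∈ Icc D Ts, ∀ t ∈ F G Y Ts (k ∈ S) t' d,
            (((E n d t).card : ℕ) : ℝ) ≤ A * (((Nat.gcd K d : ℕ) : ℝ) / (d : ℝ)) + B := by
          intro d hd t ht
          rcases (E n d t).eq_empty_or_nonempty with h0 | ⟨N1, hN1⟩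
          · rw [h0, card_empty, Nat.cast_zero]
            positivity
          · refine (hone n hn d hd t ht).trans ?_
            rw [hE] at hN1
            obtain ⟨-, -, hbb1⟩ := Finset.mem_filter.1 hN1
            have hdv1 := BB_dvd' _ _ _ hbb1
            have hdv1' : ∀ p ∈ c, (p.2 : ℤ) ∣ 2 * (ν N1 : ℤ) - p.1 :=
              fun p hp => hdv1 p (List.mem_cons_of_mem _ hp)
            have hsub := lc_dvd_sub_int (fun p hp => (h2 p hp).2.2.1) hdv1' hdv'
            have h7 : Nat.gcd (lc c) d ∣ K := by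
              rw [hK]
              apply Nat.dvd_gcd _ (Nat.gcd_dvd_left _ _)
              rw [← Int.natCast_dvd_natCast, Int.dvd_natAbs]
              have e : 2 * (ν N0 : ℤ) - n = (2 * (ν N1 : ℤ) - n) + 2 * ((ν N0 : ℤ) - ν N1) := by ring
              rw [e]
              apply dvd_add
              · exact (Int.natCast_dvd_natCast.2 (Nat.gcd_dvd_right _ _)).trans
                  (hdv1 (n, d) (List.mem_cons_self ..))
              · exact ((Int.natCast_dvd_natCast.2 (Nat.gcd_dvd_left _ _)).trans hsub).mul_left 2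
            have hd0' : 0 < d := by
              rw [Finset.mem_Icc] at hd
              omega
            have h8 : Nat.gcd (lc c) d ≤ Nat.gcd K d :=
              Nat.le_of_dvd (Nat.gcd_pos_of_pos_right _ hd0') (Nat.dvd_gcd h7 (Nat.gcd_dvd_right _ _))
            have h9 : ((Nat.gcd (lc c) d : ℕ) : ℝ) / (d : ℝ) ≤ ((Nat.gcd K d : ℕ) : ℝ) / (d : ℝ) := by
              apply div_le_div_of_nonneg_right _ (Nat.cast_nonneg _)
              exact_mod_cast h8
            have := mul_le_mul_of_nonneg_left h9 hA0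
            linarith
        have hwt : ∑ d ∈ Icc D Ts, ∑ _t ∈ F G Y Ts (k ∈ S) t' d, (((Nat.gcd K d : ℕ) : ℝ) / (d : ℝ)) ≤ Rk / G := by
          have hKM' : (K.divisors.card : ℝ) ≤ M := by exact_mod_cast hKM
          unfold F
          by_cases hk : k ∈ S
          · simp only [hk, if_true]
            have h5 := hB D T0 Ts Y t' K Z hD hY hT0 h4 hK1 hKZ hTY
            refine h5.trans ?_
            rw [hR, if_pos hk, hQ]
            calc (K.divisors.card : ℝ) * (3 * (1 + Real.log Ts) / Y) ≤ M * (3 * (1 + Real.log Ts) / Y) :=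
                  mul_le_mul_of_nonneg_right hKM' (by positivity)
              _ ≤ M * (3 * (1 + Real.log Ts) / Y) * G := le_mul_of_one_le_right (by positivity) hG'
              _ = M * (3 * (G : ℝ) ^ 2 * (1 + Real.log Ts)) / Y / G := by
                  have : (G : ℝ) ≠ 0 := by positivity
                  field_simp
          · simp only [hk, if_false]
            have h5 := hA D Ts G t' K hD hG hK1
            refine h5.trans ?_
            rw [hR, if_neg hk, hQ]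
            calc (K.divisors.card : ℝ) * (3 * G * (1 + Real.log Ts)) ≤ M * (3 * G * (1 + Real.log Ts)) :=
                  mul_le_mul_of_nonneg_right hKM' (by positivity)
              _ = M * (3 * (G : ℝ) ^ 2 * (1 + Real.log Ts)) / G := by
                  have : (G : ℝ) ≠ 0 := by positivity
                  field_simp
        calc ((((Icc D Ts).biUnion fun d => (F G Y Ts (k ∈ S) t' d).biUnion fun t => E n d t).card : ℕ) : ℝ)
            ≤ ∑ d ∈ Icc D Ts, (((F G Y Ts (k ∈ S) t' d).biUnion fun t => E n d t).card : ℝ) := by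
              exact_mod_cast Finset.card_biUnion_le
          _ ≤ ∑ d ∈ Icc D Ts, ∑ t ∈ F G Y Ts (k ∈ S) t' d, (((E n d t).card : ℕ) : ℝ) := by
              refine Finset.sum_le_sum fun d _ => ?_
              exact_mod_cast Finset.card_biUnion_le
          _ ≤ ∑ d ∈ Icc D Ts, ∑ t ∈ F G Y Ts (k ∈ S) t' d, (A * (((Nat.gcd K d : ℕ) : ℝ) / (d : ℝ)) + B) :=
              Finset.sum_le_sum fun d hd => Finset.sum_le_sum fun t ht => hgcd d hd t ht
          _ = A * (∑ d ∈ Icc D Ts, ∑ _t ∈ F G Y Ts (k ∈ S) t' d, (((Nat.gcd K d : ℕ) : ℝ) / (d : ℝ))) +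
                ∑ d ∈ Icc D Ts, ∑ _t ∈ F G Y Ts (k ∈ S) t' d, B := by
              rw [Finset.mul_sum, ← Finset.sum_add_distrib]
              refine Finset.sum_congr rfl fun d _ => ?_
              rw [Finset.sum_add_distrib, Finset.mul_sum]
          _ ≤ A * (Rk / G) + B * (Ts : ℝ) ^ 2 := add_le_add (mul_le_mul_of_nonneg_left hwt hA0) hcB
      · have h0 : ((Icc D Ts).biUnion fun d => (F G Y Ts (k ∈ S) t' d).biUnion fun t => E n d t) = ∅ := by
          rw [Finset.eq_empty_iff_forall_notMem]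
          intro N hN
          rw [Finset.mem_biUnion] at hN
          obtain ⟨d, hd, hN⟩ := hN
          rw [Finset.mem_biUnion] at hN
          obtain ⟨t, ht, hN⟩ := hN
          exact hex ⟨d, hd, t, ht, N, hN⟩
        rw [h0, card_empty, Nat.cast_zero]
        positivity
    simp only [Finset.sum_const_zero, mul_zero, zero_add] at htime
    have hn : ((ns' n₀ G c).card : ℝ) ≤ G := by exact_mod_cast ns'_card n₀ G c
    have hin0 : 0 ≤ A * (Rk / G) + B * (Ts : ℝ) ^ 2 := by positivity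
    calc (((I.filter (fun i => Typ' n₀ G Z₁ M (ν i) ∧ BB' n₀ G Y Ts D S (ν i) (k + 1) c t')).card : ℕ) : ℝ)
        ≤ (((ns' n₀ G c).biUnion fun n => (Icc D Ts).biUnion fun d =>
            (F G Y Ts (k ∈ S) t' d).biUnion fun t => E n d t).card : ℝ) := by
          exact_mod_cast Finset.card_le_card hsub
      _ ≤ ∑ n ∈ ns' n₀ G c, (((Icc D Ts).biUnion fun d =>
            (F G Y Ts (k ∈ S) t' d).biUnion fun t => E n d t).card : ℝ) := by
          exact_mod_cast Finset.card_biUnion_le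
      _ ≤ ∑ _n ∈ ns' n₀ G c, (A * (Rk / G) + B * (Ts : ℝ) ^ 2) := Finset.sum_le_sum fun n hn => htime n hn
      _ = ((ns' n₀ G c).card : ℝ) * (A * (Rk / G) + B * (Ts : ℝ) ^ 2) := by rw [Finset.sum_const, nsmul_eq_mul]
      _ ≤ (G : ℝ) * (A * (Rk / G) + B * (Ts : ℝ) ^ 2) := mul_le_mul_of_nonneg_right hn hin0
      _ = A * Rk + B * (G * (Ts : ℝ) ^ 2) := by
          have : (G : ℝ) ≠ 0 := by positivity
          field_simp
      _ = _ := by
          rw [Finset.prod_range_succ, ← hW, ← hR, hAd, hBd, pow_succ]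
          ring

open Classical in
/-- **CNT'** -/
theorem cnt_famR {ι : Type} {I : Finset ι} {ν : ι → ℕ} {X R : ℝ} {Lm n₀ a κ : ℕ} (hF : FamR I ν X R Lm n₀ a κ)
    (hX : 0 ≤ X) (hR' : 0 ≤ R)
    (hB : S_WB') (hA : S_WA') (G Y T0 Ts D b M Z Z₁ : ℕ) (Λ : ℝ) (hG : 1 ≤ G) (hY : 2 ≤ Y) (hT0 : 1 ≤ T0)
    (hTs : 1 ≤ Ts) (hD : 1 ≤ D) (hb : 1 ≤ b) (hM : 1 ≤ M) (hZ : G ^ (2 * b) ≤ Z)
    (hTY : Z * (Ts ^ 2 * Y) ≤ T0 * D ^ 2) (hZZ : Z ≤ Z₁) (hTZ : Ts ≤ Z₁) (hΛ1 : 1 ≤ Λ)
    (hΛ : (a : ℝ) * (G : ℝ) ^ a * (M : ℝ) ^ κ ≤ Λ) (hLm : Ts ^ (2 * b) ≤ Lm) :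
    ((I.filter (fun i => Typ' n₀ G Z₁ M (ν i) ∧ BadRun' n₀ G Y T0 Ts D (2 * b) (ν i))).card : ℝ) ≤
    4 ^ b * (Λ ^ (2 * b) * (X * (G * (Ts : ℝ) ^ 2) *
      (M * (3 * (G : ℝ) ^ 2 * (1 + Real.log Ts))) ^ (2 * b) / (Y : ℝ) ^ b +
      R * (G * (Ts : ℝ) ^ 2) ^ (2 * b))) := by
  have hG' : (1 : ℝ) ≤ G := by exact_mod_cast hG
  have hY' : (2 : ℝ) ≤ Y := by exact_mod_cast hY
  have hTs' : (1 : ℝ) ≤ Ts := by exact_mod_cast hTs
  have hM' : (1 : ℝ) ≤ M := by exact_mod_cast hM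
  have hlog : 0 ≤ Real.log Ts := Real.log_nonneg hTs'
  obtain ⟨Q, hQ⟩ : ∃ Q : ℝ, Q = M * (3 * (G : ℝ) ^ 2 * (1 + Real.log Ts)) := ⟨_, rfl⟩
  rw [← hQ]
  have hQ1 : 1 ≤ Q := by
    rw [hQ]
    have h1 : 1 ≤ 3 * (G : ℝ) ^ 2 * (1 + Real.log Ts) := by
      nlinarith [one_le_pow₀ (n := 2) hG']
    nlinarith
  have hQ0 : 0 < Q := by linarith
  set PP : Finset (Finset ℕ) := ((range (2 * b - 1)).powerset).filter (fun S => b ≤ S.card) with hPP
  obtain ⟨E, hE⟩ : ∃ E : Finset ℕ → ℕ → ℕ → ℕ → Finset ι, E = fun S n0 d0 t0 => I.filter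
      (fun i => Typ' n₀ G Z₁ M (ν i) ∧ BB' n₀ G Y Ts D S (ν i) (2 * b - 1) [(n0, d0)] (t0 + 2 * d0)) := ⟨_, rfl⟩
  have hsub : I.filter (fun i => Typ' n₀ G Z₁ M (ν i) ∧ BadRun' n₀ G Y T0 Ts D (2 * b) (ν i)) ⊆
      PP.biUnion fun S => (ns' n₀ G []).biUnion fun n0 => (Icc D Ts).biUnion fun d0 =>
        (Icc T0 Ts).biUnion fun t0 => E S n0 d0 t0 := by
    intro N hN
    obtain ⟨hN1, hty, n, t, d, h1, h2, h3⟩ := Finset.mem_filter.1 hN
    set S : Finset ℕ := (range (2 * b - 1)).filter (fun k =>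
      Y * (t (2 * b - 1 - 1 - k + 1) - (t (2 * b - 1 - 1 - k) + 2 * d (2 * b - 1 - 1 - k))) <
        d (2 * b - 1 - 1 - k + 1)) with hS
    have hSc : b ≤ S.card := by
      have e1 : S.card = ((range (2 * b - 1)).filter
          (fun i => Y * (t (i + 1) - (t i + 2 * d i)) < d (i + 1))).card := by
        rw [hS, Finset.card_filter, Finset.card_filter]
        exact Finset.sum_range_reflect (fun i => if Y * (t (i + 1) - (t i + 2 * d i)) < d (i + 1)
          then 1 else 0) (2 * b - 1)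
      have e2 : 2 * b ≤ 2 * ((range (2 * b - 1)).filter
          (fun i => Y * (t (i + 1) - (t i + 2 * d i)) < d (i + 1))).card := by
        convert h3
      omega
    rw [Finset.mem_biUnion]
    refine ⟨S, Finset.mem_filter.2 ⟨Finset.mem_powerset.2 (Finset.filter_subset _ _), hSc⟩, ?_⟩
    obtain ⟨a1, a2, a3, a4, a5, a6, a7, a8⟩ := h1 0 (by omega)
    rw [Finset.mem_biUnion]
    refine ⟨n 0, ?_, ?_⟩
    · rw [ns', Finset.mem_filter, Finset.mem_Icc]
      exact ⟨⟨by omega, a1⟩, a2, a8, by simp⟩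
    rw [Finset.mem_biUnion]
    refine ⟨d 0, ?_, ?_⟩
    · rw [Finset.mem_Icc]
      exact ⟨a5, (Nat.le_of_dvd (by omega) a6).trans a4⟩
    rw [Finset.mem_biUnion]
    refine ⟨t 0, Finset.mem_Icc.2 ⟨a3, a4⟩, ?_⟩
    rw [hE]
    refine Finset.mem_filter.2 ⟨hN1, hty, ?_⟩
    refine run_BB' hT0 h1 h2 ?_ (2 * b - 1) 0 [(n 0, d 0)] (by omega) (by simp) ?_
    · intro i k hik hk
      have := (Finset.mem_filter.1 hk).2
      have e : 2 * b - 1 - 1 - k = i := by omega
      rw [e] at this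
      exact this
    · intro p hp
      rw [List.mem_singleton] at hp
      subst hp
      exact a7
  obtain ⟨W, hW⟩ : ∃ W : ℝ, W = Λ ^ (2 * b) * (X * Q ^ (2 * b) / (Y : ℝ) ^ b +
    R * (G * (Ts : ℝ) ^ 2) ^ (2 * b - 1)) := ⟨_, rfl⟩
  have hW0 : 0 ≤ W := by rw [hW]; positivity
  have hone : ∀ S ∈ PP, ∀ n0 ∈ ns' n₀ G [], ∀ d0 ∈ Icc D Ts, ∀ t0 ∈ Icc T0 Ts,
      (((E S n0 d0 t0).card : ℕ) : ℝ) ≤ W := by
    intro S hS n0 hn0 d0 hd0 t0 ht0
    rw [hPP, Finset.mem_filter, Finset.mem_powerset] at hS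
    rw [ns', Finset.mem_filter, Finset.mem_Icc] at hn0
    rw [Finset.mem_Icc] at hd0 ht0
    have hd00 : 0 < d0 := by omega
    have h1 := claimR hF hX hR' hB hA G Y T0 Ts D M Z Z₁ (2 * b) Λ S hG hY hT0 hTs hD hM hZ hTY hZZ hTZ hΛ1 hΛ hLm
      (2 * b - 1) [(n0, d0)] (t0 + 2 * d0) (by
        intro p hp
        rw [List.mem_singleton] at hp
        subst hp
        exact ⟨hn0.2.2.1, hn0.1.2, hn0.2.1, hd00, hd0.2⟩) (by simp only [List.length_singleton]; omega) (by omega)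
    rw [← hQ] at h1
    rw [hE]
    refine h1.trans ?_
    rw [hW]
    have h2 : ∏ i ∈ range (2 * b - 1), (if i ∈ S then Q / Y else Q) ≤ Q ^ (2 * b) / (Y : ℝ) ^ b := by
      have e1 : ∏ i ∈ range (2 * b - 1), (if i ∈ S then Q / Y else Q) =
          ∏ i ∈ range (2 * b - 1), (Q * (if i ∈ S then (1 / (Y : ℝ)) else 1)) := by
        refine Finset.prod_congr rfl fun i _ => ?_
        split_ifs
        · ring
        · ring
      have e2 : ∏ i ∈ range (2 * b - 1), (if i ∈ S then (1 / (Y : ℝ)) else 1) =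
          (1 / (Y : ℝ)) ^ S.card := by
        rw [Finset.prod_ite_mem, Finset.inter_eq_right.2 hS.1, Finset.prod_const]
      rw [e1, Finset.prod_mul_distrib, Finset.prod_const, Finset.card_range, e2]
      have e3 : Q ^ (2 * b - 1) ≤ Q ^ (2 * b) := pow_le_pow_right₀ hQ1 (by omega)
      have e4 : (1 / (Y : ℝ)) ^ S.card ≤ (1 / (Y : ℝ)) ^ b :=
        pow_le_pow_of_le_one (by positivity) (by rw [div_le_one (by linarith)]; linarith) hS.2
      calc Q ^ (2 * b - 1) * (1 / (Y : ℝ)) ^ S.card ≤ Q ^ (2 * b) * (1 / (Y : ℝ)) ^ b :=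
            mul_le_mul e3 e4 (by positivity) (by positivity)
        _ = _ := by rw [one_div, inv_pow, div_eq_mul_inv]
    have hlc : (1 : ℝ) ≤ lc [(n0, d0)] := by
      have : 1 ≤ lc [(n0, d0)] := lc_pos' (by
        intro p hp
        rw [List.mem_singleton] at hp
        subst hp
        exact hd00)
      exact_mod_cast this
    have h3 : X / lc [(n0, d0)] ≤ X := div_le_self (by positivity) hlc
    have h4 := mul_le_mul h3 h2 (Finset.prod_nonneg fun i _ => by split_ifs <;> positivity)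
      (by positivity)
    have h5 : X * (Q ^ (2 * b) / (Y : ℝ) ^ b) = X * Q ^ (2 * b) / (Y : ℝ) ^ b := by ring
    apply mul_le_mul_of_nonneg_left _ (by positivity)
    linarith
  have hPPc : (PP.card : ℝ) ≤ 4 ^ b := by
    have h1 : PP.card ≤ 2 ^ (2 * b - 1) := by
      refine (Finset.card_filter_le _ _).trans ?_
      rw [Finset.card_powerset, Finset.card_range]
    have h2 : 2 ^ (2 * b - 1) ≤ 4 ^ b := by
      calc 2 ^ (2 * b - 1) ≤ 2 ^ (2 * b) := Nat.pow_le_pow_right (by norm_num) (by omega)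
        _ = 4 ^ b := by rw [pow_mul]; norm_num
    exact_mod_cast h1.trans h2
  have hnc : ((ns' n₀ G []).card : ℝ) ≤ G := by exact_mod_cast ns'_card n₀ G []
  have hdc : ((Icc D Ts).card : ℝ) ≤ Ts := by
    have : (Icc D Ts).card ≤ Ts := by rw [Nat.card_Icc]; omega
    exact_mod_cast this
  have htc : ((Icc T0 Ts).card : ℝ) ≤ Ts := by
    have : (Icc T0 Ts).card ≤ Ts := by rw [Nat.card_Icc]; omega
    exact_mod_cast this
  have hmain : (((I.filter (fun i => Typ' n₀ G Z₁ M (ν i) ∧ BadRun' n₀ G Y T0 Ts D (2 * b) (ν i))).card : ℕ) : ℝ) ≤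
      4 ^ b * ((G : ℝ) * ((Ts : ℝ) * ((Ts : ℝ) * W))) := by
    calc (((I.filter (fun i => Typ' n₀ G Z₁ M (ν i) ∧ BadRun' n₀ G Y T0 Ts D (2 * b) (ν i))).card : ℕ) : ℝ)
        ≤ ((PP.biUnion fun S => (ns' n₀ G []).biUnion fun n0 => (Icc D Ts).biUnion fun d0 =>
          (Icc T0 Ts).biUnion fun t0 => E S n0 d0 t0).card : ℝ) := by
          exact_mod_cast Finset.card_le_card hsub
      _ ≤ ∑ S ∈ PP, (((ns' n₀ G []).biUnion fun n0 => (Icc D Ts).biUnion fun d0 =>
          (Icc T0 Ts).biUnion fun t0 => E S n0 d0 t0).card : ℝ) := by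
          exact_mod_cast Finset.card_biUnion_le
      _ ≤ ∑ S ∈ PP, ((G : ℝ) * ((Ts : ℝ) * ((Ts : ℝ) * W))) := by
          refine Finset.sum_le_sum fun S hS => ?_
          calc (((ns' n₀ G []).biUnion fun n0 => (Icc D Ts).biUnion fun d0 =>
              (Icc T0 Ts).biUnion fun t0 => E S n0 d0 t0).card : ℝ)
              ≤ ∑ n0 ∈ ns' n₀ G [], (((Icc D Ts).biUnion fun d0 =>
              (Icc T0 Ts).biUnion fun t0 => E S n0 d0 t0).card : ℝ) := by
                exact_mod_cast Finset.card_biUnion_le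
            _ ≤ ∑ n0 ∈ ns' n₀ G [], ((Ts : ℝ) * ((Ts : ℝ) * W)) := by
                refine Finset.sum_le_sum fun n0 hn0 => ?_
                calc (((Icc D Ts).biUnion fun d0 =>
                    (Icc T0 Ts).biUnion fun t0 => E S n0 d0 t0).card : ℝ)
                    ≤ ∑ d0 ∈ Icc D Ts, (((Icc T0 Ts).biUnion fun t0 => E S n0 d0 t0).card : ℝ) := by
                      exact_mod_cast Finset.card_biUnion_le
                  _ ≤ ∑ d0 ∈ Icc D Ts, ((Ts : ℝ) * W) := by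
                      refine Finset.sum_le_sum fun d0 hd0 => ?_
                      calc (((Icc T0 Ts).biUnion fun t0 => E S n0 d0 t0).card : ℝ)
                          ≤ ∑ t0 ∈ Icc T0 Ts, (((E S n0 d0 t0).card : ℕ) : ℝ) := by
                            exact_mod_cast Finset.card_biUnion_le
                        _ ≤ ∑ t0 ∈ Icc T0 Ts, W := Finset.sum_le_sum fun t0 ht0 =>
                            hone S hS n0 hn0 d0 hd0 t0 ht0
                        _ = ((Icc T0 Ts).card : ℝ) * W := by rw [Finset.sum_const, nsmul_eq_mul]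
                        _ ≤ (Ts : ℝ) * W := mul_le_mul_of_nonneg_right htc hW0
                  _ = ((Icc D Ts).card : ℝ) * ((Ts : ℝ) * W) := by
                      rw [Finset.sum_const, nsmul_eq_mul]
                  _ ≤ (Ts : ℝ) * ((Ts : ℝ) * W) := mul_le_mul_of_nonneg_right hdc (by positivity)
            _ = ((ns' n₀ G []).card : ℝ) * ((Ts : ℝ) * ((Ts : ℝ) * W)) := by
                rw [Finset.sum_const, nsmul_eq_mul]
            _ ≤ (G : ℝ) * ((Ts : ℝ) * ((Ts : ℝ) * W)) :=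
                mul_le_mul_of_nonneg_right hnc (by positivity)
      _ = (PP.card : ℝ) * ((G : ℝ) * ((Ts : ℝ) * ((Ts : ℝ) * W))) := by
          rw [Finset.sum_const, nsmul_eq_mul]
      _ ≤ 4 ^ b * ((G : ℝ) * ((Ts : ℝ) * ((Ts : ℝ) * W))) :=
          mul_le_mul_of_nonneg_right hPPc (by positivity)
  refine hmain.trans (le_of_eq ?_)
  have hp : (G * (Ts : ℝ) ^ 2) ^ (2 * b) = (G * (Ts : ℝ) ^ 2) ^ (2 * b - 1) * (G * (Ts : ℝ) ^ 2) := by
    rw [← pow_succ]
    congr 1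
    omega
  rw [hp, hW]
  ring

end Pool.Agent.L7h55.GP
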