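import Pool.Agent.N666.PS.En
import Pool.Agent.L7h55.GP.MainR

/-!
# Counting in residue classes with exponential sums
-/

set_option autoImplicit false

namespace Pool.Agent.L7h55.GP

open Finset Filter
open Pool.Agent.H469R2.NK (e norm_e e_add conj_e e_zero)
open Pool.Agent.N666.PS (kernel_low)

lemma e_int (z : ℤ) : e (z : ℝ) = 1 := by
  unfold e
  have h := Complex.exp_int_mul_two_pi_mul_I z
  rw [← h]
  congr 1
  push_cast
  ring

lemma e_neg_sum (S : Finset ℕ) (θ : ℝ) (y : ℕ → ℝ) : ‖∑ n ∈ S, e (-θ * y n)‖ = ‖∑ n ∈ S, e (θ * y n)‖ := by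
  have h : ∑ n ∈ S, e (-θ * y n) = (starRingEnd ℂ) (∑ n ∈ S, e (θ * y n)) := by
    rw [map_sum]
    refine sum_congr rfl fun n _ => ?_
    rw [conj_e]
    congr 1
    ring
  rw [h]
  exact RCLike.norm_conj _

lemma sq_norm_sum (q : ℕ) (x : ℝ) :
    ((‖∑ l ∈ range q, e (l * x)‖ ^ 2 : ℝ) : ℂ) = ∑ l ∈ range q, ∑ l' ∈ range q, e (((l : ℝ) - l') * x) := by
  have h1 : ((‖∑ l ∈ range q, e (l * x)‖ ^ 2 : ℝ) : ℂ) =
      (∑ l ∈ range q, e (l * x)) * (starRingEnd ℂ) (∑ l ∈ range q, e (l * x)) := by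
    rw [Complex.mul_conj, Complex.normSq_eq_norm_sq]
  rw [h1, map_sum, sum_mul_sum]
  refine sum_congr rfl fun l _ => sum_congr rfl fun l' _ => ?_
  rw [conj_e, ← e_add]
  congr 1
  ring

open Classical in
/-- the Fejér kernel -/
lemma fejer (S : Finset ℕ) (y : ℕ → ℝ) {q : ℕ} (hq : 1 ≤ q) {M : ℝ} (hM0 : 0 ≤ M)
    (hM : ∀ j : ℕ, 1 ≤ j → j < q → ‖∑ n ∈ S, e ((j : ℝ) / q * y n)‖ ≤ M) (t : ℝ) :
    ((S.filter (fun n => ∃ z : ℤ, |y n - t - q * z| ≤ 1 / 8)).card : ℝ) ≤ 2 * ((S.card : ℝ) / q + M) := by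
  have hq0 : (0 : ℝ) < q := by exact_mod_cast hq
  obtain ⟨x, hx⟩ : ∃ x : ℕ → ℝ, x = fun n => (y n - t) / q := ⟨_, rfl⟩
  -- lower bound
  have hlow : ∀ n ∈ S.filter (fun n => ∃ z : ℤ, |y n - t - q * z| ≤ 1 / 8),
      (q : ℝ) ^ 2 / 2 ≤ ‖∑ l ∈ range q, e (l * x n)‖ ^ 2 := by
    intro n hn
    rw [mem_filter] at hn
    obtain ⟨-, z, hz⟩ := hn
    have h1 := kernel_low q (1 / q) (y n - t - q * z) (by
      have : (1 : ℝ) / q * q = 1 := by field_simp
      rw [this, mul_one]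
      exact hz) (by positivity)
    have h2 : ∑ l ∈ range q, e (l * x n) = ∑ l ∈ range q, e (l * (1 / q * (y n - t - q * z))) := by
      refine sum_congr rfl fun l _ => ?_
      have e1 : (l : ℝ) * x n = l * (1 / q * (y n - t - q * z)) + (((l : ℤ) * z : ℤ) : ℝ) := by
        rw [hx]
        push_cast
        field_simp
        ring
      rw [e1, e_add, e_int, mul_one]
    rw [h2]
    exact h1
  have hup : ∑ n ∈ S, ‖∑ l ∈ range q, e (l * x n)‖ ^ 2 ≤ q * S.card + (q : ℝ) ^ 2 * M := by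
    have h1 : (((∑ n ∈ S, ‖∑ l ∈ range q, e (l * x n)‖ ^ 2 : ℝ)) : ℂ) =
        ∑ l ∈ range q, ∑ l' ∈ range q, ∑ n ∈ S, e (((l : ℝ) - l') * x n) := by
      rw [Complex.ofReal_sum]
      simp_rw [sq_norm_sum]
      rw [sum_comm]
      refine sum_congr rfl fun l _ => ?_
      rw [sum_comm]
    have h2 : ∑ n ∈ S, ‖∑ l ∈ range q, e (l * x n)‖ ^ 2 =
        ‖∑ l ∈ range q, ∑ l' ∈ range q, ∑ n ∈ S, e (((l : ℝ) - l') * x n)‖ := by
      rw [← h1, Complex.norm_real, Real.norm_of_nonneg (sum_nonneg fun n _ => by positivity)]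
    have h3 : ∀ l ∈ range q, ∀ l' ∈ range q, ‖∑ n ∈ S, e (((l : ℝ) - l') * x n)‖ ≤
        (if l = l' then (S.card : ℝ) else 0) + M := by
      intro l hl l' hl'
      rw [mem_range] at hl hl'
      have h4 : ∀ θ : ℝ, ‖∑ n ∈ S, e (θ * x n)‖ = ‖∑ n ∈ S, e (θ / q * y n)‖ := by
        intro θ
        have e1 : ∑ n ∈ S, e (θ * x n) = (∑ n ∈ S, e (θ / q * y n)) * e (-(θ / q * t)) := by
          rw [sum_mul]
          refine sum_congr rfl fun n _ => ?_
          rw [← e_add]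
          congr 1
          rw [hx]
          ring
        rw [e1, norm_mul, norm_e, mul_one]
      rw [h4]
      rcases lt_trichotomy l l' with h | h | h
      · rw [if_neg h.ne, zero_add]
        have e2 : ((l : ℝ) - l') / q = -(((l' - l : ℕ) : ℝ) / q) := by
          rw [Nat.cast_sub h.le]
          ring
        rw [e2, e_neg_sum]
        exact hM _ (by omega) (by omega)
      · rw [if_pos h, h, sub_self, zero_div]
        have : ‖∑ n ∈ S, e (0 * y n)‖ ≤ S.card := by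
          refine (norm_sum_le _ _).trans ?_
          simp [norm_e]
        linarith
      · rw [if_neg h.ne', zero_add]
        have e2 : ((l : ℝ) - l') / q = (((l - l' : ℕ) : ℝ) / q) := by
          rw [Nat.cast_sub h.le]
        rw [e2]
        exact hM _ (by omega) (by omega)
    rw [h2]
    calc ‖∑ l ∈ range q, ∑ l' ∈ range q, ∑ n ∈ S, e (((l : ℝ) - l') * x n)‖
        ≤ ∑ l ∈ range q, ∑ l' ∈ range q, ‖∑ n ∈ S, e (((l : ℝ) - l') * x n)‖ :=
          (norm_sum_le _ _).trans (sum_le_sum fun l _ => norm_sum_le _ _)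
      _ ≤ ∑ l ∈ range q, ∑ l' ∈ range q, ((if l = l' then (S.card : ℝ) else 0) + M) :=
          sum_le_sum fun l hl => sum_le_sum fun l' hl' => h3 l hl l' hl'
      _ = ∑ l ∈ range q, ((S.card : ℝ) + q * M) := by
          refine sum_congr rfl fun l hl => ?_
          rw [sum_add_distrib, sum_ite_eq, if_pos hl, sum_const, card_range, nsmul_eq_mul]
      _ = q * S.card + (q : ℝ) ^ 2 * M := by
          rw [sum_const, card_range, nsmul_eq_mul]
          ring
  have h5 : ((S.filter (fun n => ∃ z : ℤ, |y n - t - q * z| ≤ 1 / 8)).card : ℝ) * ((q : ℝ) ^ 2 / 2) ≤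
      q * S.card + (q : ℝ) ^ 2 * M := by
    calc ((S.filter (fun n => ∃ z : ℤ, |y n - t - q * z| ≤ 1 / 8)).card : ℝ) * ((q : ℝ) ^ 2 / 2) =
        ∑ n ∈ S.filter (fun n => ∃ z : ℤ, |y n - t - q * z| ≤ 1 / 8), (q : ℝ) ^ 2 / 2 := by
          rw [sum_const, nsmul_eq_mul]
      _ ≤ ∑ n ∈ S.filter (fun n => ∃ z : ℤ, |y n - t - q * z| ≤ 1 / 8), ‖∑ l ∈ range q, e (l * x n)‖ ^ 2 :=
          sum_le_sum hlow
      _ ≤ ∑ n ∈ S, ‖∑ l ∈ range q, e (l * x n)‖ ^ 2 :=
          sum_le_sum_of_subset_of_nonneg (filter_subset _ _) fun n _ _ => by positivity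
      _ ≤ _ := hup
  have h6 : q * (S.card : ℝ) + (q : ℝ) ^ 2 * M = (2 * ((S.card : ℝ) / q + M)) * ((q : ℝ) ^ 2 / 2) := by
    field_simp
  rw [h6] at h5
  exact le_of_mul_le_mul_right h5 (by positivity)

open Classical in
/-- the integer parts in a residue class -/
theorem floor_class (S : Finset ℕ) (y : ℕ → ℝ) {q : ℕ} (hq : 1 ≤ q) {M : ℝ} (hM0 : 0 ≤ M)
    (hM : ∀ j : ℕ, 1 ≤ j → j < q → ‖∑ n ∈ S, e ((j : ℝ) / q * y n)‖ ≤ M) (r : ℤ) :
    ((S.filter (fun n => (q : ℤ) ∣ ⌊y n⌋ - r)).card : ℝ) ≤ 8 * ((S.card : ℝ) / q + M) := by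
  have h0 := fejer S y hq hM0 hM
  obtain ⟨T, hT⟩ : ∃ T : ℝ → Finset ℕ, T = fun t => S.filter (fun n => ∃ z : ℤ, |y n - t - q * z| ≤ 1 / 8) := ⟨_, rfl⟩
  have hsub : S.filter (fun n => (q : ℤ) ∣ ⌊y n⌋ - r) ⊆
      ((T (r + 1 / 8) ∪ T (r + 3 / 8)) ∪ (T (r + 5 / 8) ∪ T (r + 7 / 8))) := by
    intro n hn
    rw [mem_filter] at hn
    obtain ⟨hnS, z, hz⟩ := hn
    have h1 := Int.floor_le (y n)
    have h2 := Int.lt_floor_add_one (y n)
    have h3 : ((⌊y n⌋ : ℤ) : ℝ) = r + q * z := by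
      have : ⌊y n⌋ = r + q * z := by linarith
      rw [this]
      push_cast
      ring
    rw [h3] at h1 h2
    rw [hT]
    simp only [mem_union, mem_filter]
    rcases le_total (y n - r - q * z) (1 / 2) with h4 | h4
    · left
      rcases le_total (y n - r - q * z) (1 / 4) with h5 | h5
      · left
        refine ⟨hnS, z, ?_⟩
        rw [abs_le]
        constructor <;> linarith
      · right
        refine ⟨hnS, z, ?_⟩
        rw [abs_le]
        constructor <;> linarith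
    · right
      rcases le_total (y n - r - q * z) (3 / 4) with h5 | h5
      · left
        refine ⟨hnS, z, ?_⟩
        rw [abs_le]
        constructor <;> linarith
      · right
        refine ⟨hnS, z, ?_⟩
        rw [abs_le]
        constructor <;> linarith
  have h1 := (card_le_card hsub).trans ((card_union_le _ _).trans
    (Nat.add_le_add (card_union_le _ _) (card_union_le _ _)))
  have h2 : ((S.filter (fun n => (q : ℤ) ∣ ⌊y n⌋ - r)).card : ℝ) ≤
      ((T (r + 1 / 8)).card + (T (r + 3 / 8)).card) + ((T (r + 5 / 8)).card + (T (r + 7 / 8)).card) := by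
    exact_mod_cast h1
  have g1 := h0 (r + 1 / 8)
  have g2 := h0 (r + 3 / 8)
  have g3 := h0 (r + 5 / 8)
  have g4 := h0 (r + 7 / 8)
  rw [hT] at h2
  simp only at h2
  linarith

end Pool.Agent.L7h55.GP
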