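import Pool.Agent.L7h55.GP.Cnt
import Pool.Agent.L7h55.GP.Sub
import Pool.Agent.N333.GR.Rec
import Pool.Agent.N333.GR.Big
import Pool.Agent.N333.GR.Dbl

/-!
# The gcd recursion of MP_b5e119_nt: slow descent for almost all members of well distributed families
-/

set_option autoImplicit false

namespace Pool.Agent.L7h55.GP

open Finset Filter Topology Pool.Agent.N333.GR Pool.Agent.L7h79.GR

/-- polynomials against powers of two -/
theorem poly_le (C E : ℕ) : ∃ h₀ : ℕ, ∀ h : ℕ, h₀ ≤ h → C * h ^ E ≤ 2 ^ h := by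
  have h1 := tendsto_pow_const_div_const_pow_of_one_lt E (r := (2 : ℝ)) one_lt_two
  have h2 : ∀ᶠ n : ℕ in atTop, (n : ℝ) ^ E / 2 ^ n < 1 / ((C : ℝ) + 1) :=
    h1.eventually_lt_const (by positivity)
  obtain ⟨h₀, hh⟩ := eventually_atTop.1 h2
  refine ⟨h₀, fun h hh' => ?_⟩
  have h3 := hh h hh'
  rw [div_lt_div_iff₀ (by positivity) (by positivity)] at h3
  have h4 : (0 : ℝ) ≤ (h : ℝ) ^ E := by positivity
  have : (C : ℝ) * (h : ℝ) ^ E ≤ 2 ^ h := by nlinarith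
  exact_mod_cast this

section par

variable {h s m y u q α : ℕ}

theorem m_le' (hh : 1 ≤ h) (hm : m = 6 * h + 4) : m ≤ 10 * h := by omega

theorem u_le' (hh : 1 ≤ h) (hs : h ≤ s) (hy : y = (6 * (q + α) + 32) * s) (hu : u = 1 + h + y) :
    u ≤ (6 * (q + α) + 34) * s := by
  rw [hu, hy]
  nlinarith

theorem exp_main'' (hh : 1 ≤ h) (hs : h ≤ s) (hm : m = 6 * h + 4) (hy : y = (6 * (q + α) + 32) * s)
    (hu : u = 1 + h + y) :
    64 * m + (q * s) * (64 * m) + (h + 20 * m * u) + (α * s + 3 * h) * (64 * m) + (s + 3 * h) ≤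
      32 * m * y := by
  obtain ⟨P, hP⟩ : ∃ P, P = m * s := ⟨_, rfl⟩
  obtain ⟨Pq, hPq⟩ : ∃ P, P = q * (m * s) := ⟨_, rfl⟩
  obtain ⟨Pa, hPa⟩ : ∃ P, P = α * (m * s) := ⟨_, rfl⟩
  obtain ⟨H, hH⟩ : ∃ P, P = m * h := ⟨_, rfl⟩
  obtain ⟨V, hV⟩ : ∃ P, P = m * y := ⟨_, rfl⟩
  have e1 : 32 * m * y = 20 * V + 12 * V := by rw [hV]; ring
  have e2 : 12 * V = 72 * Pq + 72 * Pa + 384 * P := by rw [hV, hy, hPq, hPa, hP]; ring
  have e3 : 20 * m * u = 20 * m + 20 * H + 20 * V := by rw [hu, hV, hH]; ring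
  have e4 : (q * s) * (64 * m) = 64 * Pq := by rw [hPq]; ring
  have e5 : (α * s + 3 * h) * (64 * m) = 64 * Pa + 192 * H := by rw [hPa, hH]; ring
  have f1 : m ≤ P := by rw [hP]; exact Nat.le_mul_of_pos_right _ (by omega)
  have f2 : s ≤ P := by rw [hP]; exact Nat.le_mul_of_pos_left _ (by omega)
  have f3 : H ≤ P := by rw [hP, hH]; exact Nat.mul_le_mul_left _ hs
  rw [e1, e3, e4, e5]
  omega

theorem exp_tuples'' (hh : 1 ≤ h) (hs : h ≤ s) (hm : m = 6 * h + 4) (hy : y = (6 * (q + α) + 32) * s)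
    (hu : u = 1 + h + y) :
    64 * m + (q * s) * (64 * m) + (h + 20 * m * u) * (64 * m) ≤
      (1280 + 640 * q + 128000 * (6 * (q + α) + 34)) * (h ^ 2 * s) := by
  have h1 := m_le' hh hm
  have h2 := u_le' hh hs hy hu
  have hs1 : 1 ≤ s := hh.trans hs
  have g1 : 64 * m ≤ 640 * (h ^ 2 * s) := by
    have : h ≤ h ^ 2 * s := by
      calc h = h * 1 * 1 := by ring
        _ ≤ h * h * s := by gcongr
        _ = h ^ 2 * s := by ring
    omega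
  have g2 : (q * s) * (64 * m) ≤ 640 * q * (h ^ 2 * s) := by
    calc (q * s) * (64 * m) ≤ (q * s) * (64 * (10 * h)) := by gcongr
      _ = 640 * q * (h * 1 * s) := by ring
      _ ≤ 640 * q * (h * h * s) := by gcongr
      _ = 640 * q * (h ^ 2 * s) := by ring
  have g3 : h * (64 * m) ≤ 640 * (h ^ 2 * s) := by
    calc h * (64 * m) ≤ h * (64 * (10 * h)) := by gcongr
      _ = 640 * (h ^ 2 * 1) := by ring
      _ ≤ 640 * (h ^ 2 * s) := by gcongr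
  have g4 : (20 * m * u) * (64 * m) ≤ 128000 * (6 * (q + α) + 34) * (h ^ 2 * s) := by
    calc (20 * m * u) * (64 * m) ≤ (20 * (10 * h) * ((6 * (q + α) + 34) * s)) * (64 * (10 * h)) := by gcongr
      _ = 128000 * (6 * (q + α) + 34) * (h ^ 2 * s) := by ring
  have e1 : (h + 20 * m * u) * (64 * m) = h * (64 * m) + (20 * m * u) * (64 * m) := by ring
  have e2 : (1280 + 640 * q + 128000 * (6 * (q + α) + 34)) * (h ^ 2 * s) =
      640 * (h ^ 2 * s) + 640 * (h ^ 2 * s) + 640 * q * (h ^ 2 * s) +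
        128000 * (6 * (q + α) + 34) * (h ^ 2 * s) := by ring
  rw [e1, e2]
  omega

open Classical in
theorem cnt_bound_fam {ι : Type} {I : Finset ι} {ν : ι → ℕ} {X n₀ a κ : ℕ} (hF : Fam I ν X n₀ a κ)
    (hB : S_WB') (hA : S_WA') (k : ℕ) (hh : 1 ≤ h) (hs : h ≤ s)
    (hq : q = 1 + a + κ * α) (hah : a ≤ 2 ^ h)
    (hm : m = 6 * h + 4) (hy : y = (6 * (q + α) + 32) * s) (hu : u = 1 + h + y) (hk : k < 6 * h)
    (hl : 3 * (1 + 10 * m * u) ≤ 2 ^ h) :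
    ((I.filter (fun i => Typ' n₀ (2 ^ h) (2 ^ (64 * m * u)) (2 ^ (α * s)) (ν i) ∧
      BadRun' n₀ (2 ^ h) (2 ^ y) (2 ^ (8 * m * u))
      (2 ^ (10 * m * u)) (2 ^ ((8 * m - 2 - k) * u)) (64 * m) (ν i))).card : ℝ) ≤
      (X : ℝ) / 2 ^ (s + 3 * h) +
        2 ^ ((1280 + 640 * q + 128000 * (6 * (q + α) + 34)) * (h ^ 2 * s)) := by
  have hs1 : 1 ≤ s := hh.trans hs
  have hy32 : 32 * s ≤ y := by rw [hy]; nlinarith
  have hcond : 2 ^ (64 * m * h) * ((2 ^ (10 * m * u)) ^ 2 * 2 ^ y) ≤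
      2 ^ (8 * m * u) * (2 ^ ((8 * m - 2 - k) * u)) ^ 2 := by
    rw [← pow_mul, ← pow_mul, ← pow_add, ← pow_add, ← pow_add]
    apply Nat.pow_le_pow_right (by norm_num)
    have h1 : 7 * m + 3 ≤ 8 * m - 2 - k := by omega
    have h2 : (7 * m + 3) * u ≤ (8 * m - 2 - k) * u := Nat.mul_le_mul_right _ h1
    have h3 : 32 * h ≤ u := by omega
    have h4 : 64 * m * h ≤ 2 * m * u := by
      calc 64 * m * h = 2 * m * (32 * h) := by ring
        _ ≤ 2 * m * u := Nat.mul_le_mul_left _ h3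
    have h5 : y ≤ u := by omega
    nlinarith
  have hΛ : (a : ℝ) * (((2 ^ h : ℕ) : ℝ)) ^ a * (((2 ^ (α * s) : ℕ) : ℝ)) ^ κ ≤ 2 ^ (q * s) := by
    push_cast
    rw [← pow_mul, ← pow_mul]
    have h1 : (a : ℝ) ≤ 2 ^ h := by exact_mod_cast hah
    calc (a : ℝ) * 2 ^ (h * a) * 2 ^ (α * s * κ) ≤ 2 ^ h * 2 ^ (h * a) * 2 ^ (α * s * κ) := by gcongr
      _ = 2 ^ (h + h * a + α * s * κ) := by rw [← pow_add, ← pow_add]
      _ ≤ 2 ^ (q * s) := by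
        apply pow_le_pow_right₀ (by norm_num)
        rw [hq]
        have : (1 + a + κ * α) * s = s + s * a + α * s * κ := by ring
        rw [this]
        gcongr
  have hhu : h ≤ u := by omega
  have h0 := cnt_fam hF hB hA (2 ^ h) (2 ^ y) (2 ^ (8 * m * u)) (2 ^ (10 * m * u))
    (2 ^ ((8 * m - 2 - k) * u)) (32 * m) (2 ^ (α * s)) (2 ^ (64 * m * h)) (2 ^ (64 * m * u)) (2 ^ (q * s))
    Nat.one_le_two_pow
    (by
      calc 2 = 2 ^ 1 := by norm_num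
        _ ≤ 2 ^ y := Nat.pow_le_pow_right (by norm_num) (by omega))
    Nat.one_le_two_pow Nat.one_le_two_pow Nat.one_le_two_pow (by omega) Nat.one_le_two_pow
    (by
      rw [← pow_mul]
      apply Nat.pow_le_pow_right (by norm_num)
      apply le_of_eq
      ring) hcond
    (Nat.pow_le_pow_right (by norm_num) (Nat.mul_le_mul_left _ hhu))
    (Nat.pow_le_pow_right (by norm_num) (by
      apply Nat.mul_le_mul_right
      omega))
    (one_le_pow₀ (by norm_num)) hΛ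
  rw [show 2 * (32 * m) = 64 * m by ring] at h0
  refine h0.trans ?_
  have hlog : (3 : ℝ) * ((2 ^ h : ℕ) : ℝ) ^ 2 *
      (1 + Real.log ((2 ^ (10 * m * u) : ℕ) : ℝ)) ≤ 2 ^ (3 * h) := by
    have h1 : Real.log ((2 ^ (10 * m * u) : ℕ) : ℝ) ≤ (10 * m * u : ℕ) := by
      push_cast
      rw [Real.log_pow]
      have : Real.log 2 ≤ 1 := by
        have := Real.log_two_lt_d9
        linarith
      push_cast
      have h3 : (0 : ℝ) ≤ 10 * (m : ℝ) * (u : ℝ) := by positivity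
      nlinarith
    have h2 : (3 : ℝ) * (1 + (10 * m * u : ℕ)) ≤ 2 ^ h := by
      exact_mod_cast hl
    have h3 : (3 : ℝ) * (1 + Real.log ((2 ^ (10 * m * u) : ℕ) : ℝ)) ≤ 2 ^ h := by linarith
    calc (3 : ℝ) * ((2 ^ h : ℕ) : ℝ) ^ 2 * (1 + Real.log ((2 ^ (10 * m * u) : ℕ) : ℝ))
        = ((2 ^ h : ℕ) : ℝ) ^ 2 * (3 * (1 + Real.log ((2 ^ (10 * m * u) : ℕ) : ℝ))) := by ring
      _ ≤ ((2 ^ h : ℕ) : ℝ) ^ 2 * 2 ^ h := by gcongr
      _ = 2 ^ (3 * h) := by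
        push_cast
        ring
  have hlog0 : 0 ≤ (3 : ℝ) * ((2 ^ h : ℕ) : ℝ) ^ 2 *
      (1 + Real.log ((2 ^ (10 * m * u) : ℕ) : ℝ)) := by
    have : 0 ≤ Real.log ((2 ^ (10 * m * u) : ℕ) : ℝ) :=
      Real.log_nonneg (by exact_mod_cast Nat.one_le_two_pow)
    positivity
  have hX : (0 : ℝ) ≤ X := Nat.cast_nonneg X
  have hMlog : ((2 ^ (α * s) : ℕ) : ℝ) * (3 * ((2 ^ h : ℕ) : ℝ) ^ 2 *
      (1 + Real.log ((2 ^ (10 * m * u) : ℕ) : ℝ))) ≤ 2 ^ (α * s + 3 * h) := by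
    rw [pow_add (2 : ℝ) (α * s)]
    push_cast at hlog ⊢
    exact mul_le_mul_of_nonneg_left hlog (by positivity)
  have hMlog0 : 0 ≤ ((2 ^ (α * s) : ℕ) : ℝ) * (3 * ((2 ^ h : ℕ) : ℝ) ^ 2 *
      (1 + Real.log ((2 ^ (10 * m * u) : ℕ) : ℝ))) := by positivity
  have e1 : (4 : ℝ) ^ (32 * m) * ((2 ^ (q * s)) ^ (64 * m) * ((X : ℝ) *
      (((2 ^ h : ℕ) : ℝ) * ((2 ^ (10 * m * u) : ℕ) : ℝ) ^ 2) *
      (((2 ^ (α * s) : ℕ) : ℝ) * (3 * ((2 ^ h : ℕ) : ℝ) ^ 2 *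
        (1 + Real.log ((2 ^ (10 * m * u) : ℕ) : ℝ)))) ^ (64 * m) / ((2 ^ y : ℕ) : ℝ) ^ (32 * m))) ≤
      (4 : ℝ) ^ (32 * m) * ((2 ^ (q * s)) ^ (64 * m) * ((X : ℝ) *
      (((2 ^ h : ℕ) : ℝ) * ((2 ^ (10 * m * u) : ℕ) : ℝ) ^ 2) *
      (2 ^ (α * s + 3 * h)) ^ (64 * m) / ((2 ^ y : ℕ) : ℝ) ^ (32 * m))) := by
    gcongr
  have e2 : (4 : ℝ) ^ (32 * m) * ((2 ^ (q * s)) ^ (64 * m) * ((X : ℝ) *
      (((2 ^ h : ℕ) : ℝ) * ((2 ^ (10 * m * u) : ℕ) : ℝ) ^ 2) *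
      (2 ^ (α * s + 3 * h)) ^ (64 * m) / ((2 ^ y : ℕ) : ℝ) ^ (32 * m))) =
      (X : ℝ) * 2 ^ (64 * m + (q * s) * (64 * m) + (h + 20 * m * u) + (α * s + 3 * h) * (64 * m)) /
        2 ^ (32 * m * y) := by
    push_cast
    rw [show (4 : ℝ) = 2 ^ 2 by norm_num]
    simp only [← pow_mul, ← pow_add]
    rw [← mul_div_assoc, ← mul_div_assoc]
    congr 1
    · rw [show (2 : ℝ) ^ (2 * (32 * m)) * (2 ^ (q * s * (64 * m)) * ((X : ℝ) *
        2 ^ (h + 10 * m * u * 2) * 2 ^ ((α * s + 3 * h) * (64 * m)))) =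
        (X : ℝ) * (2 ^ (2 * (32 * m)) * 2 ^ (q * s * (64 * m)) *
        2 ^ (h + 10 * m * u * 2) * 2 ^ ((α * s + 3 * h) * (64 * m))) by ring]
      congr 1
      rw [← pow_add, ← pow_add, ← pow_add]
      congr 1
      ring
    · congr 1
      ring
  have e3 : (X : ℝ) * 2 ^ (64 * m + (q * s) * (64 * m) + (h + 20 * m * u) + (α * s + 3 * h) * (64 * m)) /
        2 ^ (32 * m * y) ≤ (X : ℝ) / 2 ^ (s + 3 * h) := by
    rw [div_le_div_iff₀ (by positivity) (by positivity), mul_assoc, ← pow_add]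
    apply mul_le_mul_of_nonneg_left _ hX
    apply pow_le_pow_right₀ (by norm_num)
    exact exp_main'' hh hs hm hy hu
  have e4 : (4 : ℝ) ^ (32 * m) * ((2 ^ (q * s)) ^ (64 * m) * (((2 ^ h : ℕ) : ℝ) *
      ((2 ^ (10 * m * u) : ℕ) : ℝ) ^ 2) ^ (64 * m)) ≤
      2 ^ ((1280 + 640 * q + 128000 * (6 * (q + α) + 34)) * (h ^ 2 * s)) := by
    have e5 : (4 : ℝ) ^ (32 * m) * ((2 ^ (q * s)) ^ (64 * m) * (((2 ^ h : ℕ) : ℝ) *
      ((2 ^ (10 * m * u) : ℕ) : ℝ) ^ 2) ^ (64 * m)) =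
      2 ^ (64 * m + (q * s) * (64 * m) + (h + 20 * m * u) * (64 * m)) := by
      push_cast
      rw [show (4 : ℝ) = 2 ^ 2 by norm_num]
      simp only [← pow_mul, ← pow_add]
      congr 1
      ring
    rw [e5]
    apply pow_le_pow_right₀ (by norm_num)
    exact exp_tuples'' hh hs hm hy hu
  rw [mul_add, mul_add]
  exact add_le_add (e1.trans (e2.le.trans e3)) e4

end par

end Pool.Agent.L7h55.GP
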