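import Pool.Agent.L7h55.GP.Root
import Pool.Agent.L7h55.GP.Fam

/-!
# The gcd recursion of MP_b5e119_nt: the values of a polynomial are a well distributed family
-/

set_option autoImplicit false

namespace Pool.Agent.L7h55.GP

open Finset Polynomial Pool.Agent.L7h79.GR

/-- there is `R ≠ 0` such that `P'` divides `R (2 P)` -/
theorem exists_resultant (P : ℤ[X]) (hP : 0 < P.natDegree) :
    ∃ R W : ℤ[X], R ≠ 0 ∧ R.comp (C 2 * P) = derivative P * W := by
  obtain ⟨Pq, hPq⟩ : ∃ Pq : ℚ[X], Pq = P.map (Int.castRingHom ℚ) := ⟨_, rfl⟩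
  obtain ⟨f, hf⟩ : ∃ f : ℚ[X], f = derivative Pq := ⟨_, rfl⟩
  have hinj : Function.Injective (Int.castRingHom ℚ) := Int.cast_injective
  have hdeg : Pq.natDegree = P.natDegree := by
    rw [hPq]; exact Polynomial.natDegree_map_eq_of_injective hinj P
  have hf0 : f ≠ 0 := by
    intro h
    rw [hf] at h
    have := Polynomial.derivative_eq_zero.1 h
    omega
  have : FiniteDimensional ℚ (AdjoinRoot f) := (AdjoinRoot.powerBasis hf0).finite
  obtain ⟨θ, hθ⟩ : ∃ θ : AdjoinRoot f, θ = AdjoinRoot.mk f (C 2 * Pq) := ⟨_, rfl⟩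
  have hint : IsIntegral ℚ θ := IsIntegral.of_finite ℚ θ
  obtain ⟨g, hg⟩ : ∃ g : ℚ[X], g = minpoly ℚ θ := ⟨_, rfl⟩
  have hg0 : g ≠ 0 := by rw [hg]; exact minpoly.ne_zero hint
  have hdvd : f ∣ g.comp (C 2 * Pq) := by
    rw [← AdjoinRoot.mk_eq_zero]
    have h1 : aeval θ g = 0 := by rw [hg]; exact minpoly.aeval ℚ θ
    rw [hθ] at h1
    have h2 : AdjoinRoot.mk f (g.comp (C 2 * Pq)) = aeval (AdjoinRoot.mk f (C 2 * Pq)) g := by
      rw [Polynomial.comp, Polynomial.aeval_def, Polynomial.hom_eval₂]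
      rfl
    rw [h2]
    exact h1
  obtain ⟨w, hw⟩ := hdvd
  -- clear the denominators
  obtain ⟨b, hb0, hb⟩ : ∃ b : ℤ, b ≠ 0 ∧ ∃ R : ℤ[X], R.map (Int.castRingHom ℚ) = C (b : ℚ) * g := by
    obtain ⟨b, hbm, hb⟩ := IsLocalization.integerNormalization_spec (nonZeroDivisors ℤ) g
    refine ⟨b, nonZeroDivisors.ne_zero hbm, IsLocalization.integerNormalization (nonZeroDivisors ℤ) g, ?_⟩
    rw [← Polynomial.smul_eq_C_mul]
    have e : (algebraMap ℤ ℚ) = Int.castRingHom ℚ := rfl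
    rw [e] at hb
    rw [hb]
    ext i
    simp
  obtain ⟨b', hb'0, hb'⟩ : ∃ b : ℤ, b ≠ 0 ∧ ∃ R : ℤ[X], R.map (Int.castRingHom ℚ) = C (b : ℚ) * w := by
    obtain ⟨b, hbm, hb⟩ := IsLocalization.integerNormalization_spec (nonZeroDivisors ℤ) w
    refine ⟨b, nonZeroDivisors.ne_zero hbm, IsLocalization.integerNormalization (nonZeroDivisors ℤ) w, ?_⟩
    rw [← Polynomial.smul_eq_C_mul]
    have e : (algebraMap ℤ ℚ) = Int.castRingHom ℚ := rfl
    rw [e] at hb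
    rw [hb]
    ext i
    simp
  obtain ⟨R, hR⟩ := hb
  obtain ⟨W, hW⟩ := hb'
  refine ⟨C b' * R, C b * W, ?_, ?_⟩
  · intro h
    rcases mul_eq_zero.1 h with h1 | h1
    · exact hb'0 (Polynomial.C_eq_zero.1 h1)
    · rw [h1, Polynomial.map_zero] at hR
      rcases mul_eq_zero.1 hR.symm with h2 | h2
      · have := Polynomial.C_eq_zero.1 h2
        exact hb0 (by exact_mod_cast this)
      · exact hg0 h2
  · apply Polynomial.map_injective (Int.castRingHom ℚ) hinj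
    rw [Polynomial.map_comp, Polynomial.map_mul, Polynomial.map_mul, Polynomial.map_mul, Polynomial.map_mul,
      Polynomial.map_C, Polynomial.map_C, Polynomial.map_C, ← Polynomial.derivative_map, ← hPq, ← hf, hR, hW,
      Polynomial.mul_comp, Polynomial.mul_comp, Polynomial.C_comp, Polynomial.C_comp]
    have e2 : (Int.castRingHom ℚ) 2 = 2 := by simp
    rw [e2, hw]
    simp only [eq_intCast]
    ring

/-- the size of the values of a polynomial -/
theorem poly_size (R : ℤ[X]) : ∃ A E : ℕ, ∀ n : ℕ, 1 ≤ n → (R.eval (n : ℤ)).natAbs ≤ A * n ^ E := by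
  refine ⟨∑ i ∈ range (R.natDegree + 1), (R.coeff i).natAbs, R.natDegree, fun n hn => ?_⟩
  rw [Polynomial.eval_eq_sum_range, sum_mul]
  refine (Int.natAbs_sum_le _ _).trans (sum_le_sum fun i hi => ?_)
  rw [mem_range] at hi
  rw [Int.natAbs_mul, Int.natAbs_pow, Int.natAbs_natCast]
  exact Nat.mul_le_mul_left _ (Nat.pow_le_pow_right hn (by omega))

/-- the polynomial has no large roots -/
theorem poly_ne (R : ℤ[X]) (hR : R ≠ 0) : ∃ n₀ : ℕ, ∀ n : ℕ, n₀ ≤ n → R.eval (n : ℤ) ≠ 0 := by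
  classical
  refine ⟨R.roots.toFinset.sup Int.natAbs + 1, fun n hn h => ?_⟩
  have h1 : (n : ℤ) ∈ R.roots.toFinset := by
    rw [Multiset.mem_toFinset, Polynomial.mem_roots hR]
    exact h
  have h2 : (n : ℤ).natAbs ≤ _ := Finset.le_sup (f := Int.natAbs) h1
  rw [Int.natAbs_natCast] at h2
  omega

open Classical in
/-- **the values of an integer valued polynomial in an interval** -/
theorem poly_fam (F : ℤ[X]) (hF : 0 < F.natDegree) (m : ℕ) (hm : 0 < m) (P : ℤ → ℤ)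
    (hP : ∀ k, (m : ℤ) * P k = F.eval k) : ∃ n₀ a κ : ℕ, ∀ (A : ℤ) (K : ℕ),
    Fam ((Ioc A (A + K)).filter (fun k => 0 ≤ P k)) (fun k : ℤ => (P k).toNat) K n₀ a κ := by
  obtain ⟨R, W, hR0, hR⟩ := exists_resultant F hF
  obtain ⟨A₀, E₀, hsize⟩ := poly_size R
  obtain ⟨n₀, hne⟩ := poly_ne R hR0
  obtain ⟨κ, hκ⟩ : ∃ κ, κ = F.natDegree := ⟨_, rfl⟩
  obtain ⟨a, ha⟩ : ∃ a, a = m * m.divisors.card ^ κ * (2 * A₀ * m ^ E₀) ^ 3 + 3 * E₀ := ⟨_, rfl⟩
  have hm' : (m : ℤ) ≠ 0 := by exact_mod_cast hm.ne'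
  refine ⟨n₀, a, κ, fun A K c hc => ?_⟩
  -- the polynomials
  obtain ⟨Q, hQ⟩ : ∃ Q : ℕ → ℤ[X], Q = fun n : ℕ => C 2 * F - C ((m * n : ℕ) : ℤ) :=
    ⟨fun n : ℕ => C 2 * F - C ((m * n : ℕ) : ℤ), rfl⟩
  have hQe : ∀ n (x : ℤ), (Q n).eval x = 2 * F.eval x - ((m * n : ℕ) : ℤ) := by
    intro n x
    rw [hQ]
    simp
  have hQP : ∀ n (x : ℤ), (Q n).eval x = m * (2 * P x - n) := by
    intro n x
    rw [hQe, ← hP]
    push_cast
    ring
  have hQd : ∀ n (x : ℤ), (derivative (Q n)).eval x = 2 * (derivative F).eval x := by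
    intro n x
    rw [hQ]
    simp
  have hres : ∀ n : ℕ, ∀ x z : ℤ, z ∣ (Q n).eval x → z ∣ (derivative (Q n)).eval x →
      z ∣ 2 * R.eval ((m * n : ℕ) : ℤ) := by
    intro n x z h1 h2
    rw [hQd] at h2
    rw [hQe] at h1
    have h3 : (2 * F.eval x - ((m * n : ℕ) : ℤ)) ∣ R.eval (2 * F.eval x) - R.eval ((m * n : ℕ) : ℤ) :=
      Polynomial.sub_dvd_eval_sub _ _ _
    have h4 : R.eval (2 * F.eval x) = (derivative F).eval x * W.eval x := by
      have := congrArg (Polynomial.eval x) hR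
      rw [Polynomial.eval_comp, Polynomial.eval_mul, Polynomial.eval_mul, Polynomial.eval_C] at this
      exact this
    have h5 : z ∣ 2 * R.eval (2 * F.eval x) := by
      rw [h4, ← mul_assoc]
      exact h2.mul_right _
    have h6 : z ∣ 2 * (R.eval (2 * F.eval x) - R.eval ((m * n : ℕ) : ℤ)) := (h1.trans h3).mul_left 2
    have h7 := dvd_sub h5 h6
    have e : 2 * R.eval (2 * F.eval x) - 2 * (R.eval (2 * F.eval x) - R.eval ((m * n : ℕ) : ℤ)) =
        2 * R.eval ((m * n : ℕ) : ℤ) := by ring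
    rwa [e] at h7
  have hdegQ : ∀ n, (Q n).natDegree ≤ 2 ^ κ := by
    intro n
    have h1 : (Q n).natDegree ≤ κ := by
      rw [hQ, hκ]
      refine (Polynomial.natDegree_sub_le _ _).trans (max_le ?_ ?_)
      · exact Polynomial.natDegree_C_mul_le _ _
      · rw [Polynomial.natDegree_C]
        omega
    exact h1.trans Nat.lt_two_pow_self.le
  have hrho : ∀ n d : ℕ, n₀ ≤ n → n % 2 = 1 → 0 < d → m * rho (Q n) (m * d) ≤ wt a κ (n, d) := by
    intro n d hn hn2 hd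
    have hn1 : 1 ≤ n := by omega
    have hmn : n ≤ m * n := Nat.le_mul_of_pos_left _ hm
    have h1 := rho_le (Q := Q n) (R := 2 * R.eval ((m * n : ℕ) : ℤ))
      (mul_ne_zero two_ne_zero (hne (m * n) (by omega))) (hres n) (hdegQ n) (m * d) (Nat.mul_pos hm hd)
    unfold wt
    simp only
    have h2 : (m * d).divisors.card ^ κ ≤ m.divisors.card ^ κ * d.divisors.card ^ κ := by
      rw [← mul_pow]
      exact Nat.pow_le_pow_left (card_divisors_mul_le _ _) _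
    rw [Int.natAbs_mul] at h1
    have e2 : (2 : ℤ).natAbs = 2 := rfl
    rw [e2] at h1
    have h3 : (2 * (R.eval ((m * n : ℕ) : ℤ)).natAbs) ^ 3 ≤ (2 * A₀ * m ^ E₀) ^ 3 * n ^ (E₀ * 3) := by
      calc (2 * (R.eval ((m * n : ℕ) : ℤ)).natAbs) ^ 3 ≤ (2 * (A₀ * (m * n) ^ E₀)) ^ 3 :=
            Nat.pow_le_pow_left (Nat.mul_le_mul_left _ (hsize (m * n) (by omega))) 3
        _ = (2 * A₀ * m ^ E₀) ^ 3 * n ^ (E₀ * 3) := by
          rw [pow_mul, ← mul_pow]
          congr 1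
          rw [mul_pow]
          ring
    calc m * rho (Q n) (m * d) ≤ m * ((m * d).divisors.card ^ κ * (2 * (R.eval ((m * n : ℕ) : ℤ)).natAbs) ^ 3) :=
          Nat.mul_le_mul_left _ h1
      _ ≤ m * ((m.divisors.card ^ κ * d.divisors.card ^ κ) * ((2 * A₀ * m ^ E₀) ^ 3 * n ^ (E₀ * 3))) := by gcongr
      _ = (m * m.divisors.card ^ κ * (2 * A₀ * m ^ E₀) ^ 3) * n ^ (E₀ * 3) * d.divisors.card ^ κ := by ring
      _ ≤ a * n ^ a * d.divisors.card ^ κ := by
          apply Nat.mul_le_mul_right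
          apply Nat.mul_le_mul
          · omega
          · exact Nat.pow_le_pow_right hn1 (by omega)
  -- the product over the list
  have hper : ∀ c' : List (ℕ × ℕ), (∀ p ∈ c', p ∈ c) →
      Per (m * lc c') (fun x => ∀ p ∈ c', ((m * p.2 : ℕ) : ℤ) ∣ (Q p.1).eval x) ∧
      cnt (m * lc c') (fun x => ∀ p ∈ c', ((m * p.2 : ℕ) : ℤ) ∣ (Q p.1).eval x) ≤
        m * (c'.map (fun p => rho (Q p.1) (m * p.2))).prod := by
    intro c'
    induction c' with
    | nil =>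
      intro _
      refine ⟨fun x y _ _ p hp => absurd hp List.not_mem_nil, ?_⟩
      exact cnt_le _ _
    | cons p c' ih =>
      intro hp
      obtain ⟨ih1, ih2⟩ := ih (fun q hq => hp q (List.mem_cons_of_mem _ hq))
      have hpc := hc p (hp p (List.mem_cons_self ..))
      have hL0 : 0 < lc c' := lc_pos' fun q hq => (hc q (hp q (List.mem_cons_of_mem _ hq))).2.2
      have e : (fun x : ℤ => ∀ q ∈ p :: c', ((m * q.2 : ℕ) : ℤ) ∣ (Q q.1).eval x) =
          fun x : ℤ => ((m * p.2 : ℕ) : ℤ) ∣ (Q p.1).eval x ∧ ∀ q ∈ c', ((m * q.2 : ℕ) : ℤ) ∣ (Q q.1).eval x := by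
        funext x
        rw [eq_iff_iff]
        exact List.forall_mem_cons
      rw [e]
      have hp1 := per_poly (Q p.1) (m * p.2)
      have elc : m * lc (p :: c') = Nat.lcm (m * p.2) (m * lc c') := by
        rw [lc_cons, Nat.lcm_mul_left]
      rw [elc]
      refine ⟨?_, ?_⟩
      · intro x y hxy hx
        have d1 : ((m * p.2 : ℕ) : ℤ) ∣ x - y := (Int.natCast_dvd_natCast.2 (Nat.dvd_lcm_left _ _)).trans hxy
        have d2 : ((m * lc c' : ℕ) : ℤ) ∣ x - y := (Int.natCast_dvd_natCast.2 (Nat.dvd_lcm_right _ _)).trans hxy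
        exact ⟨hp1 x y d1 hx.1, ih1 x y d2 hx.2⟩
      · rw [List.map_cons, List.prod_cons]
        refine (cnt_lcm (Nat.mul_pos hm hpc.2.2) (Nat.mul_pos hm hL0) hp1 ih1).trans ?_
        refine (Nat.mul_le_mul_left _ ih2).trans (le_of_eq ?_)
        unfold rho
        ring
  obtain ⟨hper1, hper2⟩ := hper c (fun p hp => hp)
  have hL0 : 0 < lc c := lc_pos' fun q hq => (hc q hq).2.2
  have hsub : (((Ioc A (A + K)).filter (fun k => 0 ≤ P k)).filter
      (fun k : ℤ => ∀ p ∈ c, (p.2 : ℤ) ∣ 2 * (((P k).toNat : ℕ) : ℤ) - p.1)).card ≤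
      ((Ioc A (A + K)).filter (fun k : ℤ => ∀ p ∈ c, ((m * p.2 : ℕ) : ℤ) ∣ (Q p.1).eval k)).card := by
    apply card_le_card
    intro k hk
    rw [mem_filter, mem_filter] at hk
    rw [mem_filter]
    refine ⟨hk.1.1, fun p hp => ?_⟩
    have := hk.2 p hp
    rw [Int.toNat_of_nonneg hk.1.2] at this
    rw [hQP]
    push_cast
    exact mul_dvd_mul_left _ this
  rcases c with _ | ⟨p₀, c₀⟩
  · -- no conditions
    have h1 : (((Ioc A (A + K)).filter (fun k => 0 ≤ P k)).filter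
      (fun k : ℤ => ∀ p ∈ ([] : List (ℕ × ℕ)), (p.2 : ℤ) ∣ 2 * (((P k).toNat : ℕ) : ℤ) - p.1)).card ≤ K := by
      refine (card_filter_le _ _).trans ((card_filter_le _ _).trans ?_)
      rw [Int.card_Ioc]
      omega
    have h2 : (((((Ioc A (A + K)).filter (fun k => 0 ≤ P k)).filter
      (fun k : ℤ => ∀ p ∈ ([] : List (ℕ × ℕ)), (p.2 : ℤ) ∣ 2 * (((P k).toNat : ℕ) : ℤ) - p.1)).card : ℕ) : ℝ) ≤ K :=
      Nat.cast_le.2 h1
    refine h2.trans ?_
    have e1 : lc [] = 1 := rfl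
    rw [e1]
    simp
  have h1 : (((Ioc A (A + K)).filter (fun k : ℤ => ∀ p ∈ p₀ :: c₀, ((m * p.2 : ℕ) : ℤ) ∣ (Q p.1).eval k)).card : ℝ) ≤
      ((K : ℝ) / ((m * lc (p₀ :: c₀) : ℕ) : ℝ) + 1) *
      (cnt (m * lc (p₀ :: c₀)) (fun x => ∀ p ∈ p₀ :: c₀, ((m * p.2 : ℕ) : ℤ) ∣ (Q p.1).eval x) : ℝ) := by
    convert card_interval (Nat.mul_pos hm hL0) hper1 A K
  have h4 : m * ((p₀ :: c₀).map (fun p => rho (Q p.1) (m * p.2))).prod ≤ ((p₀ :: c₀).map (wt a κ)).prod := by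
    have h5 : ∀ c' : List (ℕ × ℕ), (∀ p ∈ c', p ∈ p₀ :: c₀) →
        (c'.map (fun p => rho (Q p.1) (m * p.2))).prod ≤ (c'.map (wt a κ)).prod := by
      intro c'
      induction c' with
      | nil => intro _; exact le_rfl
      | cons p c' ih =>
        intro hp
        have hpc := hc p (hp p (List.mem_cons_self ..))
        rw [List.map_cons, List.prod_cons, List.map_cons, List.prod_cons]
        refine Nat.mul_le_mul ?_ (ih (fun q hq => hp q (List.mem_cons_of_mem _ hq)))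
        exact (Nat.le_mul_of_pos_left _ hm).trans (hrho p.1 p.2 hpc.1 hpc.2.1 hpc.2.2)
    have hpc := hc p₀ (List.mem_cons_self ..)
    rw [List.map_cons, List.prod_cons, List.map_cons, List.prod_cons, ← mul_assoc]
    exact Nat.mul_le_mul (hrho p₀.1 p₀.2 hpc.1 hpc.2.1 hpc.2.2)
      (h5 c₀ (fun p hp => List.mem_cons_of_mem _ hp))
  have h3 : (((((Ioc A (A + K)).filter (fun k => 0 ≤ P k)).filter
      (fun k : ℤ => ∀ p ∈ p₀ :: c₀, (p.2 : ℤ) ∣ 2 * (((P k).toNat : ℕ) : ℤ) - p.1)).card : ℕ) : ℝ) ≤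
      (((Ioc A (A + K)).filter (fun k : ℤ => ∀ p ∈ p₀ :: c₀, ((m * p.2 : ℕ) : ℤ) ∣ (Q p.1).eval k)).card : ℝ) :=
    Nat.cast_le.2 hsub
  refine h3.trans (h1.trans ?_)
  have hL0' : (0 : ℝ) < lc (p₀ :: c₀) := by exact_mod_cast hL0
  have hm1 : (1 : ℝ) ≤ m := by exact_mod_cast hm
  have h6 : (K : ℝ) / ((m * lc (p₀ :: c₀) : ℕ) : ℝ) ≤ (K : ℝ) / (lc (p₀ :: c₀) : ℝ) := by
    push_cast
    apply div_le_div_of_nonneg_left (Nat.cast_nonneg _) hL0'
    nlinarith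
  have h7 : (cnt (m * lc (p₀ :: c₀)) (fun x => ∀ p ∈ p₀ :: c₀, ((m * p.2 : ℕ) : ℤ) ∣ (Q p.1).eval x) : ℝ) ≤
      ((((p₀ :: c₀).map (wt a κ)).prod : ℕ) : ℝ) := Nat.cast_le.2 (hper2.trans h4)
  apply mul_le_mul (by linarith) h7 (Nat.cast_nonneg _) (by positivity)

end Pool.Agent.L7h55.GP
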