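import Pool.Agent.L7h55.GP.Main
import Pool.Agent.L7h55.GP.Poly

/-!
# The gcd recursion of MP_b5e119_nt at the values of integer valued polynomials
-/

set_option autoImplicit false

namespace Pool.Agent.L7h55.GP

open Finset Filter Topology Polynomial

/-- `P` is an integer valued polynomial of positive degree -/
def IntPoly (P : ℤ → ℤ) : Prop := ∃ F : ℚ[X], 0 < F.natDegree ∧ ∀ k : ℤ, F.eval (k : ℚ) = P k

lemma IntPoly.clear {P : ℤ → ℤ} (hP : IntPoly P) :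
    ∃ (F : ℤ[X]) (m : ℕ), 0 < F.natDegree ∧ 0 < m ∧ ∀ k, (m : ℤ) * P k = F.eval k := by
  obtain ⟨f, hf, hfP⟩ := hP
  obtain ⟨b, hbm, hb⟩ := IsLocalization.integerNormalization_spec (nonZeroDivisors ℤ) f
  have hb0 : b ≠ 0 := nonZeroDivisors.ne_zero hbm
  obtain ⟨R, hR⟩ : ∃ R, R = IsLocalization.integerNormalization (nonZeroDivisors ℤ) f := ⟨_, rfl⟩
  rw [← hR] at hb
  have hinj : Function.Injective (algebraMap ℤ ℚ) := Int.cast_injective
  have hev : ∀ k : ℤ, b * P k = R.eval k := by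
    intro k
    have h1 : (R.map (algebraMap ℤ ℚ)).eval (k : ℚ) = b * P k := by
      rw [hb, Polynomial.eval_smul, hfP]
      simp
    have h2 : (R.map (algebraMap ℤ ℚ)).eval (k : ℚ) = ((R.eval k : ℤ) : ℚ) := by
      simp
    rw [h2] at h1
    exact_mod_cast h1.symm
  have hdeg : R.natDegree = f.natDegree := by
    rw [← Polynomial.natDegree_map_eq_of_injective hinj R, hb]
    exact Polynomial.natDegree_smul_of_smul_regular f (fun x y hxy => by
      have hbq : (b : ℚ) ≠ 0 := by exact_mod_cast hb0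
      simp only [zsmul_eq_mul] at hxy
      exact mul_left_cancel₀ hbq hxy)
  rcases lt_or_gt_of_ne hb0 with h | h
  · refine ⟨-R, b.natAbs, by rw [Polynomial.natDegree_neg]; omega, by omega, fun k => ?_⟩
    rw [Polynomial.eval_neg, ← hev]
    have : ((b.natAbs : ℕ) : ℤ) = -b := by omega
    rw [this]
    ring
  · refine ⟨R, b.natAbs, by omega, by omega, fun k => ?_⟩
    rw [← hev]
    have : ((b.natAbs : ℕ) : ℤ) = b := by omega
    rw [this]

open Classical in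
/-- **slow descent at the values of an integer valued polynomial** -/
theorem poly_main {P : ℤ → ℤ} (hP : IntPoly P) : ∃ C : ℕ, ∀ (h s K : ℕ) (A : ℤ), C ≤ h → h ≤ s → s ≤ h ^ 2 →
    2 ^ (C * (h ^ 2 * s)) ≤ K →
    (((Ioc A (A + K)).filter (fun k => ∃ N : ℕ, (N : ℤ) = P k ∧ 2 ^ (C * (h * s)) ≤ N ∧
      ¬ (2 ^ h < Pool.Agent.N333.GR.g N ∧ ∀ n, 1 ≤ n → n ≤ 2 ^ h →
        (N : ℤ) - 2 ^ (C * (h * s)) ≤ Pool.Agent.N333.GR.a N n))).card : ℝ) ≤ (K : ℝ) / 2 ^ s := by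
  obtain ⟨F, m, hF, hm, hFP⟩ := hP.clear
  obtain ⟨n₀, a, κ, hfam⟩ := poly_fam F hF m hm P hFP
  obtain ⟨C, hC⟩ := main_fam n₀ a κ
  refine ⟨C, fun h s K A hCh hs hs2 hK => ?_⟩
  refine le_trans (Nat.cast_le.2 (card_le_card ?_)) (hC _ _ K (hfam A K) h s hCh hs hs2 hK)
  intro k hk
  rw [mem_filter] at hk
  rw [mem_filter, mem_filter]
  obtain ⟨hk1, N, hN, h2, h3⟩ := hk
  have e : (P k).toNat = N := by rw [← hN]; exact Int.toNat_natCast N
  rw [e]
  exact ⟨⟨hk1, by rw [← hN]; exact Int.natCast_nonneg N⟩, h2, h3⟩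

/-- the descent for `N` is slow up to the time `exp (c L^(1/3))` -/
def SlowTo (c D L : ℝ) (N : ℕ) : Prop :=
  Real.exp (c * L ^ (1 / 3 : ℝ)) ≤ Pool.Agent.N333.GR.g N ∧
    ∀ n : ℕ, 1 ≤ n → (n : ℝ) ≤ Real.exp (c * L ^ (1 / 3 : ℝ)) →
      (N : ℝ) - Real.exp (D * L ^ (2 / 3 : ℝ)) ≤ Pool.Agent.N333.GR.a N n

open Classical in
/-- from the parameters to exponentials -/
theorem log_form' {P : ℤ → ℤ} {C : ℕ} (hC : ∀ (h s K : ℕ) (A : ℤ), C ≤ h → h ≤ s → s ≤ h ^ 2 →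
    2 ^ (C * (h ^ 2 * s)) ≤ K →
    (((Ioc A (A + K)).filter (fun k => ∃ N : ℕ, (N : ℤ) = P k ∧ 2 ^ (C * (h * s)) ≤ N ∧
      ¬ (2 ^ h < Pool.Agent.N333.GR.g N ∧ ∀ n, 1 ≤ n → n ≤ 2 ^ h →
        (N : ℤ) - 2 ^ (C * (h * s)) ≤ Pool.Agent.N333.GR.a N n))).card : ℝ) ≤ (K : ℝ) / 2 ^ s)
    (B : ℝ) (hB : 0 ≤ B) : ∃ c D : ℝ, 0 < c ∧ 0 < D ∧ ∀ᶠ K : ℕ in atTop, ∀ A : ℤ,
    (((Ioc A (A + K)).filter (fun k => ∃ N : ℕ, (N : ℤ) = P k ∧ Real.exp (D * Real.log K ^ (2 / 3 : ℝ)) ≤ N ∧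
      ¬ SlowTo c D (Real.log K) N)).card : ℝ) ≤ (K : ℝ) * Real.exp (-(B * Real.log K ^ (1 / 3 : ℝ))) := by
  obtain ⟨t, ht⟩ : ∃ t : ℕ, t = ⌈64 * B ^ 3 * (C + 1)⌉₊ + 1 := ⟨_, rfl⟩
  have ht1 : 1 ≤ t := by omega
  have htR : (1 : ℝ) ≤ t := by exact_mod_cast ht1
  have htB : 64 * B ^ 3 * (C + 1) ≤ t := by
    rw [ht]
    push_cast
    have := Nat.le_ceil (64 * B ^ 3 * (C + 1))
    linarith
  obtain ⟨C', hC'⟩ : ∃ C' : ℝ, C' = (C : ℝ) * t + 1 := ⟨_, rfl⟩
  have hC'1 : 1 ≤ C' := by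
    rw [hC']
    have : (0 : ℝ) ≤ (C : ℝ) * t := by positivity
    linarith
  have hC'0 : 0 < C' := by linarith
  refine ⟨1 / (4 * C'), C', by positivity, hC'0, ?_⟩
  -- large K
  have hlim : Tendsto (fun K : ℕ => (Real.log K / C') ^ (1 / 3 : ℝ)) atTop atTop := by
    apply (tendsto_rpow_atTop (by norm_num : (0 : ℝ) < 1 / 3)).comp
    exact (Real.tendsto_log_atTop.comp tendsto_natCast_atTop_atTop).atTop_div_const hC'0
  have hl1 := hlim.eventually_ge_atTop (2 * (C + t + 2 : ℝ))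
  filter_upwards [hl1, eventually_ge_atTop 1] with K hK1 hK2 A
  obtain ⟨L, hL⟩ : ∃ L : ℝ, L = Real.log K := ⟨_, rfl⟩
  rw [← hL] at hK1 ⊢
  have hKR : (1 : ℝ) ≤ K := by exact_mod_cast hK2
  have hL0 : 0 ≤ L := by rw [hL]; exact Real.log_nonneg hKR
  have hKL : (K : ℝ) = Real.exp L := by rw [hL, Real.exp_log (by linarith)]
  obtain ⟨R, hR⟩ : ∃ R : ℝ, R = (L / C') ^ (1 / 3 : ℝ) := ⟨_, rfl⟩
  rw [← hR] at hK1
  have hLC : 0 ≤ L / C' := by positivity
  have hR0 : 0 ≤ R := by rw [hR]; positivity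
  have hR3 : R ^ 3 = L / C' := by
    rw [hR, ← Real.rpow_natCast, ← Real.rpow_mul hLC]
    norm_num
  obtain ⟨h, hh⟩ : ∃ h : ℕ, h = ⌊R⌋₊ := ⟨_, rfl⟩
  have hhR : (h : ℝ) ≤ R := by rw [hh]; exact Nat.floor_le hR0
  have hRh : R < (h : ℝ) + 1 := by rw [hh]; exact Nat.lt_floor_add_one _
  have hC0 : (0 : ℝ) ≤ C := Nat.cast_nonneg C
  have hhalf : R / 2 ≤ h := by linarith
  have hhC : (C : ℝ) + t + 2 ≤ h + 1 := by linarith
  have hhC' : C + t + 2 ≤ h + 1 := by exact_mod_cast hhC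
  have hlog2 : (1 / 2 : ℝ) ≤ Real.log 2 := by have := Real.log_two_gt_d9; linarith
  have hlog2' : Real.log 2 ≤ 1 := by have := Real.log_two_lt_d9; linarith
  have hpow : ∀ k : ℕ, ((2 : ℝ) ^ k) = Real.exp (k * Real.log 2) := by
    intro k
    rw [← Real.log_pow, Real.exp_log (by positivity)]
  have hR3h : (h : ℝ) ^ 3 ≤ L / C' := by rw [← hR3]; exact pow_le_pow_left₀ (Nat.cast_nonneg _) hhR 3
  -- the condition on K
  have hKp : 2 ^ (C * (h ^ 2 * (t * h))) ≤ K := by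
    have h1 : ((2 : ℝ) ^ (C * (h ^ 2 * (t * h)))) ≤ K := by
      rw [hpow, hKL]
      apply Real.exp_le_exp.2
      have e : (((C * (h ^ 2 * (t * h)) : ℕ)) : ℝ) = (C : ℝ) * t * (h : ℝ) ^ 3 := by push_cast; ring
      have h2 : (C : ℝ) * t * (h : ℝ) ^ 3 ≤ L := by
        calc (C : ℝ) * t * (h : ℝ) ^ 3 ≤ C' * (L / C') := by
              apply mul_le_mul _ hR3h (by positivity) hC'0.le
              rw [hC']; linarith
          _ = L := by field_simp
      rw [e]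
      calc (C : ℝ) * t * (h : ℝ) ^ 3 * Real.log 2 ≤ L * 1 := mul_le_mul h2 hlog2' (by linarith) hL0
        _ = L := mul_one _
    exact_mod_cast h1
  have hmain := hC h (t * h) K A (by omega) (Nat.le_mul_of_pos_left _ ht1) (by
    rw [pow_two]
    exact Nat.mul_le_mul_right _ (by omega)) hKp
  -- sizes
  have hL13 : L ^ (1 / 3 : ℝ) / C' ≤ R := by
    rw [hR, Real.div_rpow hL0 hC'0.le]
    apply div_le_div_of_nonneg_left (by positivity) (by positivity)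
    calc C' ^ (1 / 3 : ℝ) ≤ C' ^ (1 : ℝ) := Real.rpow_le_rpow_of_exponent_le hC'1 (by norm_num)
      _ = C' := Real.rpow_one _
  have hexp1 : Real.exp (1 / (4 * C') * L ^ (1 / 3 : ℝ)) ≤ 2 ^ h := by
    rw [hpow]
    apply Real.exp_le_exp.2
    calc 1 / (4 * C') * L ^ (1 / 3 : ℝ) = (L ^ (1 / 3 : ℝ) / C') / 4 := by field_simp
      _ ≤ R / 4 := by linarith
      _ = (R / 2) * (1 / 2) := by ring
      _ ≤ h * Real.log 2 := mul_le_mul hhalf hlog2 (by norm_num) (Nat.cast_nonneg _)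
  have hexp2 : (2 : ℝ) ^ (C * (h * (t * h))) ≤ Real.exp (C' * L ^ (2 / 3 : ℝ)) := by
    rw [hpow]
    apply Real.exp_le_exp.2
    have e : (((C * (h * (t * h)) : ℕ)) : ℝ) = (C : ℝ) * t * (h : ℝ) ^ 2 := by push_cast; ring
    have hR2 : R ^ 2 = (L / C') ^ (2 / 3 : ℝ) := by
      rw [hR, ← Real.rpow_natCast, ← Real.rpow_mul hLC]
      norm_num
    have h2 : (h : ℝ) ^ 2 ≤ L ^ (2 / 3 : ℝ) := by
      calc (h : ℝ) ^ 2 ≤ R ^ 2 := pow_le_pow_left₀ (Nat.cast_nonneg _) hhR 2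
        _ = (L / C') ^ (2 / 3 : ℝ) := hR2
        _ ≤ L ^ (2 / 3 : ℝ) := by
          apply Real.rpow_le_rpow hLC _ (by norm_num)
          exact div_le_self hL0 hC'1
    rw [e]
    have h3 : (C : ℝ) * t * (h : ℝ) ^ 2 ≤ C' * L ^ (2 / 3 : ℝ) := by
      apply mul_le_mul _ h2 (by positivity) hC'0.le
      rw [hC']; linarith
    calc (C : ℝ) * t * (h : ℝ) ^ 2 * Real.log 2 ≤ (C' * L ^ (2 / 3 : ℝ)) * 1 :=
          mul_le_mul h3 hlog2' (by linarith) (by positivity)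
      _ = _ := mul_one _
  have hexp3 : (K : ℝ) / 2 ^ (t * h) ≤ (K : ℝ) * Real.exp (-(B * L ^ (1 / 3 : ℝ))) := by
    rw [hpow, div_eq_mul_inv, ← Real.exp_neg]
    apply mul_le_mul_of_nonneg_left _ (by linarith)
    apply Real.exp_le_exp.2
    apply neg_le_neg
    push_cast
    -- `B L^(1/3) ≤ t R / 4`
    have h1 : B * L ^ (1 / 3 : ℝ) ≤ t * R / 4 := by
      have h2 : (B * L ^ (1 / 3 : ℝ)) ^ 3 ≤ (t * R / 4) ^ 3 := by
        have e1 : (L ^ (1 / 3 : ℝ)) ^ 3 = L := by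
          rw [← Real.rpow_natCast, ← Real.rpow_mul hL0]
          norm_num
        have e2 : (B * L ^ (1 / 3 : ℝ)) ^ 3 = B ^ 3 * L := by rw [mul_pow, e1]
        have e3 : (t * R / 4) ^ 3 = t ^ 3 * (L / C') / 64 := by
          rw [div_pow, mul_pow, hR3]; norm_num
        rw [e2, e3, le_div_iff₀ (by norm_num), mul_div_assoc', le_div_iff₀ hC'0]
        -- `64 B^3 L C' ≤ t^3 L`
        have h4 : B ^ 3 * 64 * C' ≤ t ^ 3 := by
          have hB3 : 0 ≤ B ^ 3 := by positivity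
          calc B ^ 3 * 64 * C' = (64 * B ^ 3 * C) * t + 64 * B ^ 3 * 1 := by rw [hC']; ring
            _ ≤ (64 * B ^ 3 * C) * t + 64 * B ^ 3 * t := by
                have := mul_le_mul_of_nonneg_left htR (by positivity : 0 ≤ 64 * B ^ 3)
                linarith
            _ = (64 * B ^ 3 * (C + 1)) * t := by ring
            _ ≤ t * t := mul_le_mul_of_nonneg_right htB (by linarith)
            _ = t ^ 2 := by ring
            _ ≤ t ^ 3 := pow_le_pow_right₀ htR (by norm_num)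
        nlinarith
      exact (pow_le_pow_iff_left₀ (by positivity) (by positivity) (by norm_num)).1 h2
    calc B * L ^ (1 / 3 : ℝ) ≤ t * R / 4 := h1
      _ = t * (R / 2) * (1 / 2) := by ring
      _ ≤ (t * h) * Real.log 2 := by
          apply mul_le_mul _ hlog2 (by norm_num) (by positivity)
          exact mul_le_mul_of_nonneg_left hhalf (by linarith)
  refine le_trans (Nat.cast_le.2 (card_le_card ?_)) (hmain.trans hexp3)
  intro k hk
  rw [mem_filter] at hk ⊢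
  obtain ⟨hk1, N, hN, h2, h3⟩ := hk
  refine ⟨hk1, N, hN, ?_, fun hcon => h3 ⟨?_, fun n hn1 hn2 => ?_⟩⟩
  · have := hexp2.trans h2
    exact_mod_cast this
  · refine hexp1.trans ?_
    exact_mod_cast hcon.1.le
  · have h4 : n ≤ 2 ^ h := by
      have := hn2.trans hexp1
      exact_mod_cast this
    have h5 := hcon.2 n hn1 h4
    have h6 : ((((N : ℤ) - 2 ^ (C * (h * (t * h))) : ℤ)) : ℝ) ≤ ((Pool.Agent.N333.GR.a N n : ℤ) : ℝ) := by
      exact_mod_cast h5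
    push_cast at h6
    linarith

/-- the growth of a polynomial which tends to infinity -/
theorem growth {P : ℤ → ℤ} (hP : IntPoly P) (hlim : Tendsto (fun k : ℕ => P k) atTop atTop) :
    ∃ E : ℕ, 1 ≤ E ∧ ∀ᶠ k : ℕ in atTop, Real.log k / 2 ≤ Real.log (P k) ∧ Real.log (P k) ≤ E * Real.log k ∧
      (0 : ℤ) < P k := by
  obtain ⟨f, hf, hfP⟩ := hP
  obtain ⟨F, hF⟩ : ∃ F : ℝ[X], F = f.map (algebraMap ℚ ℝ) := ⟨_, rfl⟩
  have hinj : Function.Injective (algebraMap ℚ ℝ) := (algebraMap ℚ ℝ).injective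
  have hFd : F.natDegree = f.natDegree := by
    rw [hF]; exact Polynomial.natDegree_map_eq_of_injective hinj f
  have hFe : ∀ k : ℤ, F.eval (k : ℝ) = P k := by
    intro k
    have h1 : F.eval (((k : ℚ)) : ℝ) = ((f.eval (k : ℚ) : ℚ) : ℝ) := by
      rw [hF]
      have := Polynomial.eval_map_apply (f := algebraMap ℚ ℝ) (p := f) (x := (k : ℚ))
      simpa using this
    rw [hfP] at h1
    push_cast at h1
    exact h1
  obtain ⟨l, hl⟩ : ∃ l : ℝ, l = F.leadingCoeff := ⟨_, rfl⟩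
  have hequiv := Polynomial.isEquivalent_atTop_lead F
  rw [← hl] at hequiv
  have hd1 : 1 ≤ F.natDegree := by omega
  obtain ⟨d, hd⟩ : ∃ d, d = F.natDegree := ⟨_, rfl⟩
  rw [← hd] at hequiv hd1
  -- the leading coefficient is positive
  have hev := (Asymptotics.isEquivalent_iff_tendsto_one (v := fun x : ℝ => l * x ^ d) (by
    filter_upwards [eventually_gt_atTop 0] with x hx
    have hl0 : l ≠ 0 := by
      rw [hl]
      intro h0
      rw [Polynomial.leadingCoeff_eq_zero] at h0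
      rw [h0] at hd
      simp at hd
      omega
    positivity)).1 hequiv
  have hN := hev.comp (tendsto_natCast_atTop_atTop (R := ℝ))
  have h1 : ∀ᶠ k : ℕ in atTop, (1 / 2 : ℝ) < F.eval (k : ℝ) / (l * (k : ℝ) ^ d) ∧
      F.eval (k : ℝ) / (l * (k : ℝ) ^ d) < 2 := by
    have := hN.eventually (Ioo_mem_nhds (by norm_num : (1 / 2 : ℝ) < 1) (by norm_num : (1 : ℝ) < 2))
    filter_upwards [this] with k hk
    exact hk
  have h2 : ∀ᶠ k : ℕ in atTop, (1 : ℤ) ≤ P k := hlim.eventually_ge_atTop 1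
  have hl0 : 0 < l := by
    obtain ⟨k, hk1, hk2, hk3⟩ := (h1.and (h2.and (eventually_gt_atTop 0))).exists
    have hkR : (0 : ℝ) < k := by exact_mod_cast hk3
    have hPk : (1 : ℝ) ≤ F.eval (k : ℝ) := by
      have := hFe (k : ℤ)
      push_cast at this
      rw [this]
      exact_mod_cast hk2
    by_contra hcon
    push Not at hcon
    have : F.eval (k : ℝ) / (l * (k : ℝ) ^ d) ≤ 0 := by
      apply div_nonpos_of_nonneg_of_nonpos (by linarith)
      exact mul_nonpos_of_nonpos_of_nonneg hcon (by positivity)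
    linarith [hk1.1]
  refine ⟨d + 1, by omega, ?_⟩
  have h3 := (tendsto_natCast_atTop_atTop (R := ℝ)).eventually_ge_atTop (max 1 (max (4 / l ^ 2) (2 * l)))
  filter_upwards [h1, h2, h3] with k hk1 hk2 hk3
  have hkR1 : (1 : ℝ) ≤ k := (le_max_left _ _).trans hk3
  have hkR2 : 4 / l ^ 2 ≤ (k : ℝ) := ((le_max_left _ _).trans (le_max_right _ _)).trans hk3
  have hkR3 : 2 * l ≤ (k : ℝ) := ((le_max_right _ _).trans (le_max_right _ _)).trans hk3
  have hkR : (0 : ℝ) < k := by linarith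
  have hPe : F.eval (k : ℝ) = (P k : ℝ) := by
    have := hFe (k : ℤ)
    push_cast at this
    exact this
  rw [hPe] at hk1
  have hPk : (1 : ℝ) ≤ (P k : ℝ) := by exact_mod_cast hk2
  have hlk : 0 < l * (k : ℝ) ^ d := by positivity
  rw [lt_div_iff₀ hlk, div_lt_iff₀ hlk] at hk1
  refine ⟨?_, ?_, by omega⟩
  · -- lower bound
    have h4 : (k : ℝ) ≤ (P k : ℝ) ^ 2 := by
      have h5 : l / 2 * k ≤ (P k : ℝ) := by
        have h6 : (k : ℝ) ≤ (k : ℝ) ^ d := by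
          calc (k : ℝ) = (k : ℝ) ^ 1 := (pow_one _).symm
            _ ≤ (k : ℝ) ^ d := pow_le_pow_right₀ hkR1 hd1
        nlinarith [hk1.1]
      have h7 : (l / 2 * k) ^ 2 ≤ (P k : ℝ) ^ 2 := pow_le_pow_left₀ (by positivity) h5 2
      refine le_trans ?_ h7
      rw [div_le_iff₀ (by positivity)] at hkR2
      have h8 : (l / 2 * k) ^ 2 = (k * l ^ 2) * k / 4 := by ring
      rw [h8]
      nlinarith
    have h5 := Real.log_le_log hkR h4
    rw [Real.log_pow] at h5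
    push_cast at h5
    linarith
  · have h4 : (P k : ℝ) ≤ (k : ℝ) ^ (d + 1) := by
      calc (P k : ℝ) ≤ 2 * (l * (k : ℝ) ^ d) := hk1.2.le
        _ = (2 * l) * (k : ℝ) ^ d := by ring
        _ ≤ k * (k : ℝ) ^ d := mul_le_mul_of_nonneg_right hkR3 (by positivity)
        _ = (k : ℝ) ^ (d + 1) := by ring
    have h5 := Real.log_le_log (by linarith) h4
    rw [Real.log_pow] at h5
    exact h5

end Pool.Agent.L7h55.GP
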