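import Pool.Agent.L7h55.GP.Log

/-!
# The gcd recursion of MP_b5e119_nt at the values of polynomials, in terms of the value
-/

set_option autoImplicit false

namespace Pool.Agent.L7h55.GP

open Finset Filter Topology Polynomial

lemma slowTo_mono {c D c₀ D₀ L l : ℝ} {E N : ℕ} (hE : 1 ≤ E) (hc : c = c₀ / E) (hD : D = 4 * D₀) (hc₀ : 0 < c₀)
    (hD₀ : 0 < D₀) (hl0 : 0 ≤ l) (hL0 : 0 ≤ L) (h1 : l ≤ E * L) (h2 : L ≤ 4 * l) (h : SlowTo c₀ D₀ L N) :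
    SlowTo c D l N := by
  have hE1 : (1 : ℝ) ≤ E := by exact_mod_cast hE
  have e1 : c * l ^ (1 / 3 : ℝ) ≤ c₀ * L ^ (1 / 3 : ℝ) := by
    have h3 : l ^ (1 / 3 : ℝ) ≤ E * L ^ (1 / 3 : ℝ) := by
      calc l ^ (1 / 3 : ℝ) ≤ (E * L) ^ (1 / 3 : ℝ) := Real.rpow_le_rpow hl0 h1 (by norm_num)
        _ = (E : ℝ) ^ (1 / 3 : ℝ) * L ^ (1 / 3 : ℝ) := Real.mul_rpow (by linarith) hL0
        _ ≤ (E : ℝ) ^ (1 : ℝ) * L ^ (1 / 3 : ℝ) := by
            apply mul_le_mul_of_nonneg_right _ (by positivity)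
            exact Real.rpow_le_rpow_of_exponent_le hE1 (by norm_num)
        _ = E * L ^ (1 / 3 : ℝ) := by rw [Real.rpow_one]
    rw [hc]
    calc c₀ / E * l ^ (1 / 3 : ℝ) ≤ c₀ / E * (E * L ^ (1 / 3 : ℝ)) :=
          mul_le_mul_of_nonneg_left h3 (by positivity)
      _ = c₀ * L ^ (1 / 3 : ℝ) := by field_simp
  have e2 : D₀ * L ^ (2 / 3 : ℝ) ≤ D * l ^ (2 / 3 : ℝ) := by
    have h3 : L ^ (2 / 3 : ℝ) ≤ 4 * l ^ (2 / 3 : ℝ) := by
      calc L ^ (2 / 3 : ℝ) ≤ (4 * l) ^ (2 / 3 : ℝ) := Real.rpow_le_rpow hL0 h2 (by norm_num)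
        _ = (4 : ℝ) ^ (2 / 3 : ℝ) * l ^ (2 / 3 : ℝ) := Real.mul_rpow (by norm_num) hl0
        _ ≤ (4 : ℝ) ^ (1 : ℝ) * l ^ (2 / 3 : ℝ) := by
            apply mul_le_mul_of_nonneg_right _ (by positivity)
            exact Real.rpow_le_rpow_of_exponent_le (by norm_num) (by norm_num)
        _ = 4 * l ^ (2 / 3 : ℝ) := by rw [Real.rpow_one]
    rw [hD]
    nlinarith
  obtain ⟨h3, h4⟩ := h
  refine ⟨(Real.exp_le_exp.2 e1).trans h3, fun n hn hn2 => ?_⟩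
  have h5 := h4 n hn (hn2.trans (Real.exp_le_exp.2 e1))
  have h6 := Real.exp_le_exp.2 e2
  linarith

open Classical in
theorem log_form3 {P : ℤ → ℤ} (hP : IntPoly P) (hlim : Tendsto (fun k : ℕ => P k) atTop atTop) {c₀ D₀ B : ℝ}
    (hc₀ : 0 < c₀) (hD₀ : 0 < D₀) (hform : ∀ᶠ K : ℕ in atTop, ∀ A : ℤ,
    (((Ioc A (A + K)).filter (fun k => ∃ N : ℕ, (N : ℤ) = P k ∧ Real.exp (D₀ * Real.log K ^ (2 / 3 : ℝ)) ≤ N ∧
      ¬ SlowTo c₀ D₀ (Real.log K) N)).card : ℝ) ≤ (K : ℝ) * Real.exp (-((|B| + 1) * Real.log K ^ (1 / 3 : ℝ)))) :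
    ∃ c D : ℝ, 0 < c ∧ 0 < D ∧ ∀ᶠ K : ℕ in atTop,
    (((Icc 1 K).filter (fun k : ℕ => ¬ ∃ N : ℕ, (N : ℤ) = P k ∧ 3 ≤ N ∧ SlowTo c D (Real.log N) N)).card : ℝ) ≤
      (K : ℝ) * Real.exp (-(B * Real.log K ^ (1 / 3 : ℝ))) := by
  obtain ⟨E, hE, hgr⟩ := growth hP hlim
  obtain ⟨k₀, hk₀⟩ := eventually_atTop.1 hgr
  have hE1 : (1 : ℝ) ≤ E := by exact_mod_cast hE
  refine ⟨c₀ / E, 4 * D₀, by positivity, by positivity, ?_⟩
  have hlogK : Tendsto (fun K : ℕ => Real.log K) atTop atTop :=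
    Real.tendsto_log_atTop.comp tendsto_natCast_atTop_atTop
  -- `L^(2/3)` and `L^(1/3)` are smaller than `L`
  have hl3 : Tendsto (fun K : ℕ => Real.log K ^ (1 / 3 : ℝ)) atTop atTop :=
    (tendsto_rpow_atTop (by norm_num : (0 : ℝ) < 1 / 3)).comp hlogK
  filter_upwards [hform, eventually_ge_atTop (k₀ ^ 2 + 1), hl3.eventually_ge_atTop (4 * D₀ + 2 * (|B| + 1) + 8)]
    with K hK1 hK2 hK3
  obtain ⟨L, hL⟩ : ∃ L : ℝ, L = Real.log K := ⟨_, rfl⟩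
  obtain ⟨r, hr⟩ : ∃ r : ℝ, r = L ^ (1 / 3 : ℝ) := ⟨_, rfl⟩
  rw [← hL] at hK1 hK3 ⊢
  rw [← hr] at hK1 hK3 ⊢
  have hKR : (1 : ℝ) ≤ K := by exact_mod_cast (by omega : 1 ≤ K)
  have hL0 : 0 ≤ L := by rw [hL]; exact Real.log_nonneg hKR
  have hKL : (K : ℝ) = Real.exp L := by rw [hL, Real.exp_log (by linarith)]
  have hr3 : r ^ 3 = L := by
    rw [hr, ← Real.rpow_natCast, ← Real.rpow_mul hL0]
    norm_num
  have hr2 : r ^ 2 = L ^ (2 / 3 : ℝ) := by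
    rw [hr, ← Real.rpow_natCast, ← Real.rpow_mul hL0]
    norm_num
  have hB0 : 0 ≤ |B| := abs_nonneg B
  have hr8 : 8 ≤ r := by linarith
  have hLr2 : 4 * D₀ * r ^ 2 ≤ L := by
    rw [← hr3]
    have : 0 ≤ r ^ 2 := by positivity
    nlinarith
  have hL8 : 8 ≤ L := by
    rw [← hr3]
    nlinarith [sq_nonneg r]
  have hLr : 2 * (|B| + 1) * r ≤ L - 4 := by
    rw [← hr3]
    have h1 : (2 * (|B| + 1) + 1) * r ≤ r * r := by nlinarith
    have h2 : r * r ≤ r ^ 3 := by nlinarith [sq_nonneg r]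
    linarith
  have hsub : (Icc 1 K).filter (fun k : ℕ => ¬ ∃ N : ℕ, (N : ℤ) = P k ∧ 3 ≤ N ∧ SlowTo (c₀ / E) (4 * D₀) (Real.log N) N) ⊆
      Icc 1 (Nat.sqrt K) ∪ (Icc 1 K).filter (fun k : ℕ => ∃ N : ℕ, (N : ℤ) = P k ∧
        Real.exp (D₀ * L ^ (2 / 3 : ℝ)) ≤ N ∧ ¬ SlowTo c₀ D₀ L N) := by
    intro k hk
    rw [mem_filter, mem_Icc] at hk
    obtain ⟨⟨hk1, hk2⟩, hk3⟩ := hk
    rw [mem_union, mem_Icc, mem_filter, mem_Icc]
    by_cases hs : k ≤ Nat.sqrt K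
    · exact Or.inl ⟨hk1, hs⟩
    right
    refine ⟨⟨hk1, hk2⟩, ?_⟩
    push Not at hs
    have hkk : K < k * k := Nat.sqrt_lt.1 hs
    have hkk₀ : k₀ ≤ k := by
      by_contra hcon
      push Not at hcon
      have : k * k ≤ k₀ * k₀ := Nat.mul_le_mul hcon.le hcon.le
      have e : k₀ ^ 2 = k₀ * k₀ := by ring
      omega
    obtain ⟨g1, g2, g3⟩ := hk₀ k hkk₀
    have hkR : (0 : ℝ) < k := by exact_mod_cast hk1
    have hlk : Real.log k ≤ L := by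
      rw [hL]
      apply Real.log_le_log hkR
      exact_mod_cast hk2
    have hlk2 : L ≤ 2 * Real.log k := by
      have h1 : (K : ℝ) ≤ k * k := by exact_mod_cast hkk.le
      have h2 := Real.log_le_log (by linarith) h1
      rw [Real.log_mul hkR.ne' hkR.ne'] at h2
      rw [hL]
      linarith
    obtain ⟨N, hN⟩ : ∃ N : ℕ, (N : ℤ) = P k := ⟨(P k).toNat, Int.toNat_of_nonneg g3.le⟩
    have hNR : (N : ℝ) = (P k : ℝ) := by
      have : ((N : ℤ) : ℝ) = ((P k : ℤ) : ℝ) := by rw [hN]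
      simpa using this
    rw [← hNR] at g1 g2
    have hN0 : (0 : ℝ) < N := by
      rw [hNR]
      exact_mod_cast g3
    have hlN1 : L ≤ 4 * Real.log N := by linarith
    have hlN2 : Real.log N ≤ E * L := by
      refine g2.trans ?_
      exact mul_le_mul_of_nonneg_left hlk (by linarith)
    have hlN0 : 0 ≤ Real.log N := by linarith
    refine ⟨N, hN, ?_, fun hcon => hk3 ⟨N, hN, ?_, ?_⟩⟩
    · rw [← Real.exp_log hN0]
      apply Real.exp_le_exp.2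
      rw [← hr2]
      linarith
    · by_contra h3
      push Not at h3
      have h4 : (N : ℝ) ≤ 2 := by exact_mod_cast (by omega : N ≤ 2)
      have h5 := Real.log_le_log hN0 h4
      have := Real.log_two_lt_d9
      linarith
    · exact slowTo_mono hE rfl rfl hc₀ hD₀ hlN0 hL0 hlN2 hlN1 hcon
  have hc1 : (((Icc 1 K).filter (fun k : ℕ => ∃ N : ℕ, (N : ℤ) = P k ∧
        Real.exp (D₀ * L ^ (2 / 3 : ℝ)) ≤ N ∧ ¬ SlowTo c₀ D₀ L N)).card : ℝ) ≤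
        (K : ℝ) * Real.exp (-((|B| + 1) * r)) := by
    refine le_trans (Nat.cast_le.2 ?_) (hK1 0)
    refine card_le_card_of_injOn (fun k : ℕ => (k : ℤ)) ?_ ?_
    · intro k hk
      simp only [coe_filter, mem_Icc, Set.mem_ofPred_eq] at hk
      simp only [coe_filter, mem_Ioc, Set.mem_ofPred_eq]
      exact ⟨⟨by omega, by omega⟩, hk.2⟩
    · intro k _ k' _ he
      have he' : (k : ℤ) = (k' : ℤ) := he
      exact_mod_cast he'
  have hc2 : ((Icc 1 (Nat.sqrt K)).card : ℝ) ≤ Real.exp (L / 2) := by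
    rw [Nat.card_Icc, Nat.add_sub_cancel]
    have h1 : ((Nat.sqrt K : ℕ) : ℝ) ^ 2 ≤ K := by
      have := Nat.sqrt_le' K
      exact_mod_cast this
    have h2 : (Real.exp (L / 2)) ^ 2 = K := by
      rw [← Real.exp_nat_mul, hKL]
      congr 1
      push_cast
      ring
    rw [← h2] at h1
    exact (pow_le_pow_iff_left₀ (Nat.cast_nonneg _) (Real.exp_pos _).le (by norm_num)).1 h1
  have hcard := (card_le_card hsub).trans (card_union_le _ _)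
  have hcard' : (((Icc 1 K).filter (fun k : ℕ => ¬ ∃ N : ℕ, (N : ℤ) = P k ∧ 3 ≤ N ∧
      SlowTo (c₀ / E) (4 * D₀) (Real.log N) N)).card : ℝ) ≤
      ((Icc 1 (Nat.sqrt K)).card : ℝ) + (((Icc 1 K).filter (fun k : ℕ => ∃ N : ℕ, (N : ℤ) = P k ∧
        Real.exp (D₀ * L ^ (2 / 3 : ℝ)) ≤ N ∧ ¬ SlowTo c₀ D₀ L N)).card : ℝ) := by
    exact_mod_cast hcard
  have hBr : B * r ≤ |B| * r := mul_le_mul_of_nonneg_right (le_abs_self B) (by linarith)
  have hhalf : Real.exp (-1 : ℝ) ≤ 1 / 2 := by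
    have := Real.exp_neg_one_lt_d9
    linarith
  have h5 : Real.exp (L / 2) ≤ (K : ℝ) * Real.exp (-(B * r)) * (1 / 2) := by
    calc Real.exp (L / 2) ≤ Real.exp (L + -(B * r) + -1) := by
          apply Real.exp_le_exp.2
          linarith
      _ = (K : ℝ) * Real.exp (-(B * r)) * Real.exp (-1) := by
          rw [Real.exp_add, Real.exp_add, ← hKL]
      _ ≤ _ := mul_le_mul_of_nonneg_left hhalf (by positivity)
  have h6 : (K : ℝ) * Real.exp (-((|B| + 1) * r)) ≤ (K : ℝ) * Real.exp (-(B * r)) * (1 / 2) := by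
    calc (K : ℝ) * Real.exp (-((|B| + 1) * r)) ≤ (K : ℝ) * (Real.exp (-(B * r)) * Real.exp (-1)) := by
          apply mul_le_mul_of_nonneg_left _ (by linarith)
          rw [← Real.exp_add]
          apply Real.exp_le_exp.2
          linarith
      _ ≤ (K : ℝ) * (Real.exp (-(B * r)) * (1 / 2)) := by gcongr
      _ = _ := by ring
  linarith

end Pool.Agent.L7h55.GP
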