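import Pool.Agent.L7h55.GP.Fin

/-!
# The gcd recursion of MP_b5e119_nt: slow descent for almost all members of well distributed families
-/

set_option autoImplicit false

namespace Pool.Agent.L7h55.GP

open Finset Filter Topology Pool.Agent.N333.GR Pool.Agent.L7h79.GR

open Classical in
/-- **the main theorem for families** -/
theorem main_fam (n₀ a κ : ℕ) : ∃ C : ℕ, ∀ {ι : Type} (I : Finset ι) (ν : ι → ℕ) (X : ℕ), Fam I ν X n₀ a κ →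
    ∀ h s : ℕ, C ≤ h → h ≤ s → s ≤ h ^ 2 → 2 ^ (C * (h ^ 2 * s)) ≤ X →
    ((I.filter (fun i => 2 ^ (C * (h * s)) ≤ ν i ∧ ¬ (2 ^ h < g (ν i) ∧ ∀ n, 1 ≤ n → n ≤ 2 ^ h →
      (ν i : ℤ) - 2 ^ (C * (h * s)) ≤ Pool.Agent.N333.GR.a (ν i) n))).card : ℝ) ≤ (X : ℝ) / 2 ^ s := by
  obtain ⟨α, hα⟩ : ∃ α, α = a + 8 := ⟨_, rfl⟩
  obtain ⟨q, hq⟩ : ∃ q, q = 1 + a + κ * α := ⟨_, rfl⟩
  obtain ⟨C₂, hC₂⟩ : ∃ C₂, C₂ = 6 * (q + α) + 34 := ⟨_, rfl⟩
  obtain ⟨C₃, hC₃⟩ : ∃ C₃, C₃ = 1280 + 640 * q + 128000 * (6 * (q + α) + 34) := ⟨_, rfl⟩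
  obtain ⟨h₁, hh₁⟩ := poly_le (300 * C₂ + 3) 3
  obtain ⟨h₂, hh₂⟩ := poly_le ((640 * C₂ + 1) ^ (2 ^ κ)) (3 * 2 ^ κ)
  obtain ⟨h₃, hh₃⟩ := poly_le 6 1
  refine ⟨h₁ + h₂ + h₃ + n₀ + a + 4 + C₃ + 640 * C₂ + 5, fun {ι} I ν X hF h s hCh hs hs2 hX => ?_⟩
  obtain ⟨C, hC⟩ : ∃ C, C = h₁ + h₂ + h₃ + n₀ + a + 4 + C₃ + 640 * C₂ + 5 := ⟨_, rfl⟩
  rw [← hC] at hCh hX ⊢
  have hh : 1 ≤ h := by omega
  have hs1 : 1 ≤ s := hh.trans hs
  obtain ⟨m, hm⟩ : ∃ m, m = 6 * h + 4 := ⟨_, rfl⟩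
  obtain ⟨y, hy⟩ : ∃ y, y = (6 * (q + α) + 32) * s := ⟨_, rfl⟩
  obtain ⟨u, hu⟩ : ∃ u, u = 1 + h + y := ⟨_, rfl⟩
  have hml := m_le' hh hm
  have hul : u ≤ C₂ * s := by rw [hC₂]; exact u_le' hh hs hy hu
  have hy32 : 32 * s ≤ y := by rw [hy]; nlinarith
  have hhs3 : h * s ≤ h ^ 3 := by
    calc h * s ≤ h * h ^ 2 := Nat.mul_le_mul_left _ hs2
      _ = h ^ 3 := by ring
  have hhs2 : h * s ≤ h ^ 2 * s := by
    rw [pow_two, mul_assoc]
    exact Nat.le_mul_of_pos_left _ (by omega)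
  have hsh : s ≤ h * s := Nat.le_mul_of_pos_left _ (by omega)
  have h31 : 1 ≤ h ^ 3 := Nat.one_le_pow _ _ (by omega)
  have hmu : m * u ≤ 10 * C₂ * (h * s) := by
    calc m * u ≤ (10 * h) * (C₂ * s) := Nat.mul_le_mul hml hul
      _ = 10 * C₂ * (h * s) := by ring
  have hah : a ≤ 2 ^ h := by
    have : h < 2 ^ h := Nat.lt_pow_self (by norm_num)
    omega
  have hl : 3 * (1 + 10 * m * u) ≤ 2 ^ h := by
    refine le_trans ?_ (hh₁ h (by omega))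
    have e : 10 * m * u = 10 * (m * u) := by ring
    rw [e]
    have h4 : C₂ * (h * s) ≤ C₂ * h ^ 3 := Nat.mul_le_mul_left _ hhs3
    have e2 : (300 * C₂ + 3) * h ^ 3 = 300 * (C₂ * h ^ 3) + 3 * h ^ 3 := by ring
    have e3 : 10 * C₂ * (h * s) = 10 * (C₂ * (h * s)) := by ring
    rw [e2]
    rw [e3] at hmu
    omega
  have hl2 : (1 + 64 * m * u) ^ (2 ^ κ) ≤ 2 ^ h := by
    refine le_trans ?_ (hh₂ h (by omega))
    have h4 : 1 + 64 * m * u ≤ (640 * C₂ + 1) * h ^ 3 := by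
      have e : 64 * m * u = 64 * (m * u) := by ring
      rw [e]
      have h4 : C₂ * (h * s) ≤ C₂ * h ^ 3 := Nat.mul_le_mul_left _ hhs3
      have e2 : (640 * C₂ + 1) * h ^ 3 = 640 * (C₂ * h ^ 3) + h ^ 3 := by ring
      have e3 : 10 * C₂ * (h * s) = 10 * (C₂ * (h * s)) := by ring
      rw [e2]
      rw [e3] at hmu
      omega
    calc (1 + 64 * m * u) ^ (2 ^ κ) ≤ ((640 * C₂ + 1) * h ^ 3) ^ (2 ^ κ) := Nat.pow_le_pow_left h4 _
      _ = (640 * C₂ + 1) ^ (2 ^ κ) * h ^ (3 * 2 ^ κ) := by rw [mul_pow, ← pow_mul]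
  have h6h : 6 * h ≤ 2 ^ h := by
    have := hh₃ h (by omega)
    rwa [pow_one] at this
  obtain ⟨Tp, hTp⟩ : ∃ Tp : Finset ι, Tp = I.filter
    (fun i => ¬ Typ' n₀ (2 ^ h) (2 ^ (64 * m * u)) (2 ^ (α * s)) (ν i)) := ⟨_, rfl⟩
  obtain ⟨Bk, hBk⟩ : ∃ Bk : ℕ → Finset ι, Bk = fun k => I.filter
    (fun i => Typ' n₀ (2 ^ h) (2 ^ (64 * m * u)) (2 ^ (α * s)) (ν i) ∧
      BadRun' n₀ (2 ^ h) (2 ^ y) (2 ^ (8 * m * u))
      (2 ^ (10 * m * u)) (2 ^ ((8 * m - 2 - k) * u)) (64 * m) (ν i)) := ⟨_, rfl⟩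
  have hCC₂ : 640 * C₂ ≤ C := by omega
  have h10 : 10 * m * u ≤ C * (h * s) := by
    calc 10 * m * u = 10 * (m * u) := by ring
      _ ≤ 10 * (10 * C₂ * (h * s)) := Nat.mul_le_mul_left _ hmu
      _ = 100 * C₂ * (h * s) := by ring
      _ ≤ C * (h * s) := Nat.mul_le_mul_right _ (by omega)
  have hsub : I.filter (fun i => 2 ^ (C * (h * s)) ≤ ν i ∧ ¬ (2 ^ h < g (ν i) ∧ ∀ n, 1 ≤ n → n ≤ 2 ^ h →
      (ν i : ℤ) - 2 ^ (C * (h * s)) ≤ Pool.Agent.N333.GR.a (ν i) n)) ⊆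
      Tp ∪ (range (6 * h)).biUnion Bk := by
    intro i hi
    rw [mem_filter] at hi
    obtain ⟨hi1, hi2, hi3⟩ := hi
    rw [mem_union]
    have h1 : 2 ^ (10 * m * u) ≤ ν i := (Nat.pow_le_pow_right (by norm_num) h10).trans hi2
    have h3 : 3 ≤ ν i := by
      refine le_trans ?_ h1
      calc 3 ≤ 2 ^ 2 := by norm_num
        _ ≤ 2 ^ (10 * m * u) := Nat.pow_le_pow_right (by norm_num) (by
          have : 1 ≤ m * u := Nat.mul_pos (by omega) (by omega)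
          have e : 10 * m * u = 10 * (m * u) := by ring
          omega)
    by_cases h2 : Typ' n₀ (2 ^ h) (2 ^ (64 * m * u)) (2 ^ (α * s)) (ν i)
    · right
      obtain ⟨k, hk, hk2⟩ := exc_fam Rec.t_REC BIG.t_BIG Dbl.t_DBL n₀ h (ν i) m y u hh (by omega) hm hu
        (by
          have : 4 ≤ h := by omega
          omega) h3 h1
        (fun hcon => hi3 ⟨hcon.1, fun n hn1 hn2 => le_trans (by
          have : (2 : ℤ) ^ (10 * m * u) ≤ 2 ^ (C * (h * s)) :=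
            pow_le_pow_right₀ (by norm_num) h10
          linarith) (hcon.2 n hn1 hn2)⟩)
      rw [mem_biUnion]
      refine ⟨k, mem_range.2 hk, ?_⟩
      rw [hBk, mem_filter]
      exact ⟨hi1, h2, hk2⟩
    · left
      rw [hTp, mem_filter]
      exact ⟨hi1, h2⟩
  have h1 := (card_le_card hsub).trans ((card_union_le _ _).trans
    (Nat.add_le_add_left card_biUnion_le _))
  have h1' : ((I.filter (fun i => 2 ^ (C * (h * s)) ≤ ν i ∧ ¬ (2 ^ h < g (ν i) ∧ ∀ n, 1 ≤ n → n ≤ 2 ^ h →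
      (ν i : ℤ) - 2 ^ (C * (h * s)) ≤ Pool.Agent.N333.GR.a (ν i) n))).card : ℝ) ≤
      (Tp.card : ℝ) + ∑ k ∈ range (6 * h), ((Bk k).card : ℝ) := by
    exact_mod_cast h1
  refine h1'.trans ?_
  have hX0 : (0 : ℝ) ≤ X := Nat.cast_nonneg X
  have hXR : (2 : ℝ) ^ (C * (h ^ 2 * s)) ≤ X := by exact_mod_cast hX
  have hpow : ∀ e : ℕ, e ≤ (C₃ + 1) * (h ^ 2 * s) → (2 : ℝ) ^ e ≤ (X : ℝ) / 2 ^ (s + 3) := by
    intro e he
    rw [le_div_iff₀ (by positivity), ← pow_add]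
    refine (pow_le_pow_right₀ (by norm_num) ?_).trans hXR
    have h5 : (C₃ + 5) * (h ^ 2 * s) ≤ C * (h ^ 2 * s) := Nat.mul_le_mul_right _ (by omega)
    have e5 : (C₃ + 5) * (h ^ 2 * s) = (C₃ + 1) * (h ^ 2 * s) + 4 * (h ^ 2 * s) := by ring
    omega
  have hZX : (2 : ℝ) ^ (64 * m * u) ≤ X := by
    refine (pow_le_pow_right₀ (by norm_num) ?_).trans hXR
    calc 64 * m * u = 64 * (m * u) := by ring
      _ ≤ 64 * (10 * C₂ * (h * s)) := Nat.mul_le_mul_left _ hmu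
      _ = 640 * C₂ * (h * s) := by ring
      _ ≤ C * (h ^ 2 * s) := Nat.mul_le_mul hCC₂ hhs2
  -- the numbers which are not typical
  have t2 : (Tp.card : ℝ) ≤ (X : ℝ) / 2 ^ (s + 3) := by
    have h2 := typ_fam hF (2 ^ h) (2 ^ (64 * m * u)) (2 ^ (α * s)) Nat.one_le_two_pow Nat.one_le_two_pow
      Nat.one_le_two_pow
    rw [hTp]
    refine h2.trans ?_
    have hl' : Real.log ((2 ^ (64 * m * u) : ℕ) : ℝ) ≤ ((64 * m * u : ℕ) : ℝ) := by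
      push_cast
      rw [Real.log_pow]
      have : Real.log 2 ≤ 1 := by
        have := Real.log_two_lt_d9
        linarith
      push_cast
      have h3 : (0 : ℝ) ≤ 64 * (m : ℝ) * (u : ℝ) := by positivity
      nlinarith
    have hl0 : 0 ≤ Real.log ((2 ^ (64 * m * u) : ℕ) : ℝ) :=
      Real.log_nonneg (by exact_mod_cast Nat.one_le_two_pow)
    have hl3 : (1 + Real.log ((2 ^ (64 * m * u) : ℕ) : ℝ)) ^ (2 ^ κ) ≤ 2 ^ h := by
      calc (1 + Real.log ((2 ^ (64 * m * u) : ℕ) : ℝ)) ^ (2 ^ κ) ≤ (1 + ((64 * m * u : ℕ) : ℝ)) ^ (2 ^ κ) := by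
            apply pow_le_pow_left₀ (by linarith)
            linarith
        _ ≤ 2 ^ h := by exact_mod_cast hl2
    have ha' : (a : ℝ) ≤ 2 ^ h := by exact_mod_cast hah
    have e0 : (X : ℝ) + ((2 ^ (64 * m * u) : ℕ) : ℝ) ≤ 2 * X := by
      push_cast
      linarith
    have hlp : 0 ≤ (1 + Real.log ((2 ^ (64 * m * u) : ℕ) : ℝ)) ^ (2 ^ κ) := by positivity
    calc ((2 ^ h : ℕ) : ℝ) * ((a * ((2 ^ h : ℕ) : ℝ) ^ a) * ((X + ((2 ^ (64 * m * u) : ℕ) : ℝ)) *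
          (1 + Real.log ((2 ^ (64 * m * u) : ℕ) : ℝ)) ^ (2 ^ κ))) / ((2 ^ (α * s) : ℕ) : ℝ) ≤
        2 ^ h * ((2 ^ h * (2 ^ h) ^ a) * ((2 * X) * 2 ^ h)) / 2 ^ (α * s) := by
          push_cast at e0 hl3 hlp ⊢
          gcongr
      _ = (X : ℝ) * 2 ^ (h + h + h * a + 1 + h) / 2 ^ (α * s) := by
          congr 1
          rw [← pow_mul, pow_add, pow_add, pow_add, pow_add]
          ring
      _ ≤ (X : ℝ) / 2 ^ (s + 3) := by
          rw [div_le_div_iff₀ (by positivity) (by positivity), mul_assoc, ← pow_add]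
          apply mul_le_mul_of_nonneg_left _ hX0
          apply pow_le_pow_right₀ (by norm_num)
          rw [hα]
          have e1 : (a + 8) * s = s * a + 8 * s := by ring
          have e2 : h * a ≤ s * a := Nat.mul_le_mul_right _ hs
          omega
  -- the bad runs
  have t3 : ∑ k ∈ range (6 * h), ((Bk k).card : ℝ) ≤ 2 * ((X : ℝ) / 2 ^ (s + 3)) := by
    calc ∑ k ∈ range (6 * h), ((Bk k).card : ℝ)
        ≤ ∑ k ∈ range (6 * h), ((X : ℝ) / 2 ^ (s + 3 * h) + 2 ^ (C₃ * (h ^ 2 * s))) := by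
          refine sum_le_sum fun k hk => ?_
          rw [hBk, hC₃]
          exact cnt_bound_fam hF Pool.Agent.L7h32.GR.wb' Pool.Agent.L7h32.GR.wa' k hh hs hq hah hm hy hu
            (mem_range.1 hk) hl
      _ = ((6 * h : ℕ) : ℝ) * ((X : ℝ) / 2 ^ (s + 3 * h) + 2 ^ (C₃ * (h ^ 2 * s))) := by
          rw [sum_const, card_range, nsmul_eq_mul]
      _ ≤ 2 ^ h * ((X : ℝ) / 2 ^ (s + 3 * h) + 2 ^ (C₃ * (h ^ 2 * s))) := by
          have : ((6 * h : ℕ) : ℝ) ≤ 2 ^ h := by exact_mod_cast h6h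
          gcongr
      _ ≤ 2 * ((X : ℝ) / 2 ^ (s + 3)) := by
          rw [mul_add]
          have e1 : (2 : ℝ) ^ h * ((X : ℝ) / 2 ^ (s + 3 * h)) ≤ (X : ℝ) / 2 ^ (s + 3) := by
            rw [← mul_div_assoc, div_le_div_iff₀ (by positivity) (by positivity)]
            have e : (2 : ℝ) ^ h * X * 2 ^ (s + 3) = X * 2 ^ (h + (s + 3)) := by
              rw [pow_add]; ring
            rw [e]
            apply mul_le_mul_of_nonneg_left _ hX0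
            apply pow_le_pow_right₀ (by norm_num)
            omega
          have e2 : (2 : ℝ) ^ h * 2 ^ (C₃ * (h ^ 2 * s)) ≤ (X : ℝ) / 2 ^ (s + 3) := by
            rw [← pow_add]
            apply hpow
            have e5 : (C₃ + 1) * (h ^ 2 * s) = C₃ * (h ^ 2 * s) + h ^ 2 * s := by ring
            omega
          linarith
  have t4 : (X : ℝ) / 2 ^ (s + 3) = (X : ℝ) / 2 ^ s / 8 := by
    rw [pow_add, div_div]
    norm_num
  have t5 : 0 ≤ (X : ℝ) / 2 ^ s := by positivity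
  rw [t4] at t2 t3
  linarith

end Pool.Agent.L7h55.GP
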