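import Pool.Agent.L7h55.GP.PS2

/-!
# The gcd recursion of MP_b5e119_nt near the values of generalised polynomials: exponential form
-/

set_option autoImplicit false

namespace Pool.Agent.L7h55.GP

open Finset Filter Topology
open Pool.Agent.N666.PS (gp GH exp_main gp_size dyadic)

/-- the choice of the parameters -/
theorem params (C : ℕ) (B : ℝ) (hB : 0 ≤ B) : ∃ t : ℕ, 1 ≤ t ∧ ∃ c D : ℝ, 0 < c ∧ 0 < D ∧ ∀ᶠ L : ℝ in atTop,
    ∃ h : ℕ, C + 3 * t + 2 ≤ h ∧ (2 : ℝ) ^ (C * (h ^ 2 * (t * h))) ≤ Real.exp (L / 2) ∧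
      Real.exp (c * L ^ (1 / 3 : ℝ)) ≤ 2 ^ h ∧ (2 : ℝ) ^ (C * (h * (t * h))) ≤ Real.exp (D * L ^ (2 / 3 : ℝ)) ∧
      Real.exp (B * L ^ (1 / 3 : ℝ)) ≤ 2 ^ (t * h) := by
  obtain ⟨t, ht⟩ : ∃ t : ℕ, t = ⌈128 * B ^ 3 * (C + 1)⌉₊ + 1 := ⟨_, rfl⟩
  have ht1 : 1 ≤ t := by omega
  have htR : (1 : ℝ) ≤ t := by exact_mod_cast ht1
  have htB : 128 * B ^ 3 * (C + 1) ≤ t := by
    rw [ht]
    push_cast
    have := Nat.le_ceil (128 * B ^ 3 * (C + 1))
    linarith
  obtain ⟨C', hC'⟩ : ∃ C' : ℝ, C' = (C : ℝ) * t + 1 := ⟨_, rfl⟩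
  have hC'1 : 1 ≤ C' := by
    rw [hC']
    have : (0 : ℝ) ≤ (C : ℝ) * t := by positivity
    linarith
  have hC'0 : 0 < C' := by linarith
  have hlim : Tendsto (fun L : ℝ => (L / (2 * C')) ^ (1 / 3 : ℝ)) atTop atTop :=
    (tendsto_rpow_atTop (by norm_num : (0 : ℝ) < 1 / 3)).comp (tendsto_id.atTop_div_const (by positivity))
  refine ⟨t, ht1, 1 / (8 * C'), C', by positivity, hC'0, ?_⟩
  filter_upwards [hlim.eventually_ge_atTop (2 * (C + 3 * t + 3 : ℝ)), eventually_ge_atTop (0 : ℝ)] with L hK1 hL0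
  obtain ⟨R, hR⟩ : ∃ R : ℝ, R = (L / (2 * C')) ^ (1 / 3 : ℝ) := ⟨_, rfl⟩
  rw [← hR] at hK1
  have hLC : 0 ≤ L / (2 * C') := by positivity
  have hR0 : 0 ≤ R := by rw [hR]; positivity
  have hR3 : R ^ 3 = L / (2 * C') := by
    rw [hR, ← Real.rpow_natCast, ← Real.rpow_mul hLC]
    norm_num
  obtain ⟨h, hh⟩ : ∃ h : ℕ, h = ⌊R⌋₊ := ⟨_, rfl⟩
  have hhR : (h : ℝ) ≤ R := by rw [hh]; exact Nat.floor_le hR0
  have hRh : R < (h : ℝ) + 1 := by rw [hh]; exact Nat.lt_floor_add_one _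
  have hC0 : (0 : ℝ) ≤ C := Nat.cast_nonneg C
  have hhalf : R / 2 ≤ h := by linarith
  have hhC : (C : ℝ) + 3 * t + 3 ≤ h + 1 := by linarith
  have hhC' : C + 3 * t + 3 ≤ h + 1 := by exact_mod_cast hhC
  have hlog2 : (1 / 2 : ℝ) ≤ Real.log 2 := by have := Real.log_two_gt_d9; linarith
  have hlog2' : Real.log 2 ≤ 1 := by have := Real.log_two_lt_d9; linarith
  have hpow : ∀ k : ℕ, ((2 : ℝ) ^ k) = Real.exp (k * Real.log 2) := by
    intro k
    rw [← Real.log_pow, Real.exp_log (by positivity)]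
  have hR3h : (h : ℝ) ^ 3 ≤ L / (2 * C') := by rw [← hR3]; exact pow_le_pow_left₀ (Nat.cast_nonneg _) hhR 3
  refine ⟨h, by omega, ?_, ?_, ?_, ?_⟩
  · rw [hpow]
    apply Real.exp_le_exp.2
    have e : (((C * (h ^ 2 * (t * h)) : ℕ)) : ℝ) = (C : ℝ) * t * (h : ℝ) ^ 3 := by push_cast; ring
    have h2 : (C : ℝ) * t * (h : ℝ) ^ 3 ≤ L / 2 := by
      calc (C : ℝ) * t * (h : ℝ) ^ 3 ≤ C' * (L / (2 * C')) := by
            apply mul_le_mul _ hR3h (by positivity) hC'0.le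
            rw [hC']; linarith
        _ = L / 2 := by field_simp
    rw [e]
    calc (C : ℝ) * t * (h : ℝ) ^ 3 * Real.log 2 ≤ (L / 2) * 1 := mul_le_mul h2 hlog2' (by linarith) (by linarith)
      _ = L / 2 := mul_one _
  · have hL13 : L ^ (1 / 3 : ℝ) / (2 * C') ≤ R := by
      rw [hR, Real.div_rpow hL0 (by positivity)]
      apply div_le_div_of_nonneg_left (by positivity) (by positivity)
      calc (2 * C') ^ (1 / 3 : ℝ) ≤ (2 * C') ^ (1 : ℝ) :=
            Real.rpow_le_rpow_of_exponent_le (by linarith) (by norm_num)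
        _ = 2 * C' := Real.rpow_one _
    rw [hpow]
    apply Real.exp_le_exp.2
    calc 1 / (8 * C') * L ^ (1 / 3 : ℝ) = (L ^ (1 / 3 : ℝ) / (2 * C')) / 4 := by field_simp; ring
      _ ≤ R / 4 := by linarith
      _ = (R / 2) * (1 / 2) := by ring
      _ ≤ h * Real.log 2 := mul_le_mul hhalf hlog2 (by norm_num) (Nat.cast_nonneg _)
  · rw [hpow]
    apply Real.exp_le_exp.2
    have e : (((C * (h * (t * h)) : ℕ)) : ℝ) = (C : ℝ) * t * (h : ℝ) ^ 2 := by push_cast; ring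
    have hR2 : R ^ 2 = (L / (2 * C')) ^ (2 / 3 : ℝ) := by
      rw [hR, ← Real.rpow_natCast, ← Real.rpow_mul hLC]
      norm_num
    have h2 : (h : ℝ) ^ 2 ≤ L ^ (2 / 3 : ℝ) := by
      calc (h : ℝ) ^ 2 ≤ R ^ 2 := pow_le_pow_left₀ (Nat.cast_nonneg _) hhR 2
        _ = (L / (2 * C')) ^ (2 / 3 : ℝ) := hR2
        _ ≤ L ^ (2 / 3 : ℝ) := by
          apply Real.rpow_le_rpow hLC _ (by norm_num)
          exact div_le_self hL0 (by linarith)
    rw [e]
    have h3 : (C : ℝ) * t * (h : ℝ) ^ 2 ≤ C' * L ^ (2 / 3 : ℝ) := by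
      apply mul_le_mul _ h2 (by positivity) hC'0.le
      rw [hC']; linarith
    calc (C : ℝ) * t * (h : ℝ) ^ 2 * Real.log 2 ≤ (C' * L ^ (2 / 3 : ℝ)) * 1 :=
          mul_le_mul h3 hlog2' (by linarith) (by positivity)
      _ = _ := mul_one _
  · rw [hpow]
    apply Real.exp_le_exp.2
    push_cast
    have h1 : B * L ^ (1 / 3 : ℝ) ≤ t * R / 4 := by
      have h2 : (B * L ^ (1 / 3 : ℝ)) ^ 3 ≤ (t * R / 4) ^ 3 := by
        have e1 : (L ^ (1 / 3 : ℝ)) ^ 3 = L := by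
          rw [← Real.rpow_natCast, ← Real.rpow_mul hL0]
          norm_num
        have e2 : (B * L ^ (1 / 3 : ℝ)) ^ 3 = B ^ 3 * L := by rw [mul_pow, e1]
        have e3 : (t * R / 4) ^ 3 = t ^ 3 * (L / (2 * C')) / 64 := by
          rw [div_pow, mul_pow, hR3]; norm_num
        rw [e2, e3, le_div_iff₀ (by norm_num), mul_div_assoc', le_div_iff₀ (by positivity)]
        have h4 : B ^ 3 * 128 * C' ≤ t ^ 3 := by
          have hB3 : 0 ≤ B ^ 3 := by positivity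
          calc B ^ 3 * 128 * C' = (128 * B ^ 3 * C) * t + 128 * B ^ 3 * 1 := by rw [hC']; ring
            _ ≤ (128 * B ^ 3 * C) * t + 128 * B ^ 3 * t := by
                have := mul_le_mul_of_nonneg_left htR (by positivity : 0 ≤ 128 * B ^ 3)
                linarith
            _ = (128 * B ^ 3 * (C + 1)) * t := by ring
            _ ≤ t * t := mul_le_mul_of_nonneg_right htB (by linarith)
            _ = t ^ 2 := by ring
            _ ≤ t ^ 3 := pow_le_pow_right₀ htR (by norm_num)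
        nlinarith
      exact (pow_le_pow_iff_left₀ (by positivity) (by positivity) (by norm_num)).1 h2
    calc B * L ^ (1 / 3 : ℝ) ≤ t * R / 4 := h1
      _ = t * (R / 2) * (1 / 2) := by ring
      _ ≤ (t * h) * Real.log 2 := by
          apply mul_le_mul _ hlog2 (by norm_num) (by positivity)
          exact mul_le_mul_of_nonneg_left hhalf (by linarith)

open Classical in
/-- **windows around the values of a generalised polynomial, exponential form** -/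
theorem ps_log {F : Finset ℝ} {a : ℝ → ℝ} {c : ℝ} (hg : GH F a c) {C : ℕ}
    (hC : ∀ h s N : ℕ, C ≤ h → h ≤ s → 3 * s ≤ h ^ 2 → 2 ^ (C * (h ^ 2 * s)) ≤ N →
    (((range N).filter (fun i : ℕ => ∃ m : ℕ, |(m : ℝ) - gp F a 0 ((N : ℝ) + i)| ≤ 2 ^ s ∧
      ¬ (N ≤ 2 * m ∧ 2 ^ h < Pool.Agent.N333.GR.g m ∧ ∀ n, 1 ≤ n → n ≤ 2 ^ h →
        (m : ℤ) - 2 ^ (C * (h * s)) ≤ Pool.Agent.N333.GR.a m n))).card : ℝ) ≤ (N : ℝ) / 2 ^ s)
    (B : ℝ) (hB : 0 ≤ B) : ∃ c' D : ℝ, 0 < c' ∧ 0 < D ∧ ∀ᶠ K : ℕ in atTop,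
    (((Icc 1 K).filter (fun k : ℕ => ∃ m : ℕ, |(m : ℝ) - gp F a 0 k| ≤ Real.exp (B * Real.log K ^ (1 / 3 : ℝ)) ∧
      ¬ (3 ≤ m ∧ SlowTo c' D (Real.log m) m))).card : ℝ) ≤
      (K : ℝ) * Real.exp (-(B * Real.log K ^ (1 / 3 : ℝ))) := by
  obtain ⟨t, ht1, c₀, D₀, hc₀, hD₀, hpar⟩ := params C (B + 1) (by linarith)
  obtain ⟨lo, hi, hlo, hhi, hsize⟩ := gp_size hg 0 (by omega)
  have hc := hg.one
  obtain ⟨E, hE⟩ : ∃ E : ℕ, E = ⌈c⌉₊ + 2 := ⟨_, rfl⟩
  have hcE : c + 2 ≤ E := by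
    rw [hE]
    push_cast
    have := Nat.le_ceil c
    linarith
  obtain ⟨X₁, hX₁⟩ := eventually_atTop.1 (hsize.and (eventually_ge_atTop (max 2 hi)))
  have hE0 : (0 : ℝ) < E := by linarith
  refine ⟨c₀ / E, 4 * D₀, by positivity, by positivity, ?_⟩
  have hlogK : Tendsto (fun K : ℕ => Real.log K) atTop atTop :=
    Real.tendsto_log_atTop.comp tendsto_natCast_atTop_atTop
  have hl3 : Tendsto (fun K : ℕ => Real.log K ^ (1 / 3 : ℝ)) atTop atTop :=
    (tendsto_rpow_atTop (by norm_num : (0 : ℝ) < 1 / 3)).comp hlogK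
  filter_upwards [hlogK.eventually hpar, eventually_ge_atTop (⌈X₁⌉₊ ^ 2 + 1),
    hl3.eventually_ge_atTop (2 * (B + 1) + 16)] with K hpK hK2 hK3
  obtain ⟨L, hL⟩ : ∃ L : ℝ, L = Real.log K := ⟨_, rfl⟩
  obtain ⟨r, hr⟩ : ∃ r : ℝ, r = L ^ (1 / 3 : ℝ) := ⟨_, rfl⟩
  rw [← hL] at hpK hK3 ⊢
  rw [← hr] at hK3 ⊢
  obtain ⟨h, hh1, hh2, hh3, hh4, hh5⟩ := hpK
  rw [← hr] at hh3 hh5
  have hKR : (1 : ℝ) ≤ K := by exact_mod_cast (by omega : 1 ≤ K)
  have hL0 : 0 ≤ L := by rw [hL]; exact Real.log_nonneg hKR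
  have hKL : (K : ℝ) = Real.exp L := by rw [hL, Real.exp_log (by linarith)]
  have hr3 : r ^ 3 = L := by
    rw [hr, ← Real.rpow_natCast, ← Real.rpow_mul hL0]
    norm_num
  have hr8 : 16 ≤ r := by linarith
  have hLr : 2 * (B + 1) * r + 16 * r ≤ L := by
    rw [← hr3]
    have h1 : (2 * (B + 1) + 16) * r ≤ r * r := by nlinarith
    have h2 : r * r ≤ r ^ 3 := by nlinarith [sq_nonneg r]
    linarith
  -- the square root
  obtain ⟨N₁, hN₁⟩ : ∃ N₁ : ℕ, N₁ = Nat.sqrt K + 1 := ⟨_, rfl⟩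
  have hsq : (Real.exp (L / 2)) ^ 2 = K := by
    rw [← Real.exp_nat_mul, hKL]
    congr 1
    push_cast
    ring
  have hN₁l : Real.exp (L / 2) ≤ N₁ := by
    have h1 : (K : ℝ) ≤ (N₁ : ℝ) ^ 2 := by
      have := Nat.lt_succ_sqrt K
      have h2 : K ≤ N₁ ^ 2 := by rw [hN₁, pow_two]; exact this.le
      exact_mod_cast h2
    rw [← hsq] at h1
    exact (pow_le_pow_iff_left₀ (Real.exp_pos _).le (Nat.cast_nonneg _) (by norm_num)).1 h1
  have hN₁u : (N₁ : ℝ) ≤ Real.exp (L / 2) + 1 := by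
    rw [hN₁]
    push_cast
    have h1 : ((Nat.sqrt K : ℕ) : ℝ) ^ 2 ≤ K := by
      have := Nat.sqrt_le' K
      exact_mod_cast this
    rw [← hsq] at h1
    have := (pow_le_pow_iff_left₀ (Nat.cast_nonneg _) (Real.exp_pos _).le (by norm_num)).1 h1
    linarith
  obtain ⟨S, hS⟩ : ∃ S : ℕ → Prop, S = fun k : ℕ => ∃ m : ℕ, |(m : ℝ) - gp F a 0 k| ≤ 2 ^ (t * h) ∧
      ¬ (k ≤ 4 * m ∧ 2 ^ h < Pool.Agent.N333.GR.g m ∧ ∀ n, 1 ≤ n → n ≤ 2 ^ h →
        (m : ℤ) - 2 ^ (C * (h * (t * h))) ≤ Pool.Agent.N333.GR.a m n) := ⟨_, rfl⟩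
  have hth : h ≤ t * h := Nat.le_mul_of_pos_left _ ht1
  have hblock : ∀ N : ℕ, N₁ ≤ N → ((univ.filter (fun i : Fin N => S (N + i))).card : ℝ) ≤ (1 / 2 ^ (t * h)) * N := by
    intro N hN
    have h1 := hC h (t * h) N (by omega) hth (by
      rw [pow_two, ← mul_assoc]
      exact Nat.mul_le_mul_right _ (by omega)) (by
      have : ((2 : ℝ) ^ (C * (h ^ 2 * (t * h)))) ≤ N := by
        refine hh2.trans (hN₁l.trans ?_)
        exact_mod_cast hN
      exact_mod_cast this)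
    have h2 : (univ.filter (fun i : Fin N => S (N + i))).card ≤ ((range N).filter (fun i : ℕ => ∃ m : ℕ,
        |(m : ℝ) - gp F a 0 ((N : ℝ) + i)| ≤ 2 ^ (t * h) ∧
      ¬ (N ≤ 2 * m ∧ 2 ^ h < Pool.Agent.N333.GR.g m ∧ ∀ n, 1 ≤ n → n ≤ 2 ^ h →
        (m : ℤ) - 2 ^ (C * (h * (t * h))) ≤ Pool.Agent.N333.GR.a m n))).card := by
      refine card_le_card_of_injOn (fun i : Fin N => (i : ℕ)) ?_ ?_
      · intro i hi
        simp only [coe_filter, mem_univ, true_and, Set.mem_ofPred_eq] at hi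
        simp only [coe_filter, mem_range, Set.mem_ofPred_eq]
        rw [hS] at hi
        obtain ⟨m, hm1, hm2⟩ := hi
        refine ⟨i.2, m, ?_, fun hcon => hm2 ⟨?_, hcon.2⟩⟩
        · push_cast at hm1
          exact hm1
        · have := i.2
          omega
      · intro i _ i' _ he
        exact Fin.ext he
    calc ((univ.filter (fun i : Fin N => S (N + i))).card : ℝ) ≤ _ := Nat.cast_le.2 h2
      _ ≤ (N : ℝ) / 2 ^ (t * h) := h1
      _ = (1 / 2 ^ (t * h)) * N := by ring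
  have hdy := dyadic S (1 / 2 ^ (t * h)) (by positivity) N₁ (by omega) hblock K
  -- the exceptional set
  have hexpB : Real.exp (B * r) ≤ 2 ^ (t * h) := by
    refine le_trans (Real.exp_le_exp.2 ?_) hh5
    nlinarith
  have hsub : (Icc 1 K).filter (fun k : ℕ => ∃ m : ℕ, |(m : ℝ) - gp F a 0 k| ≤ Real.exp (B * r) ∧
      ¬ (3 ≤ m ∧ SlowTo (c₀ / E) (4 * D₀) (Real.log m) m)) ⊆ range (N₁ + 1) ∪ (range (K + 1)).filter S := by
    intro k hk
    rw [mem_filter, mem_Icc] at hk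
    obtain ⟨⟨hk1, hk2⟩, m, hm1, hm2⟩ := hk
    rw [mem_union, mem_range, mem_filter, mem_range]
    by_cases hs : k < N₁ + 1
    · exact Or.inl hs
    right
    refine ⟨by omega, ?_⟩
    rw [hS]
    refine ⟨m, hm1.trans hexpB, fun hcon => hm2 ?_⟩
    obtain ⟨h4, h5, h6⟩ := hcon
    have hkX : X₁ ≤ (k : ℝ) := by
      refine (Nat.le_ceil X₁).trans ?_
      have h7 : ⌈X₁⌉₊ ≤ Nat.sqrt K := by
        rw [Nat.le_sqrt']
        omega
      exact_mod_cast (by omega : ⌈X₁⌉₊ ≤ k)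
    obtain ⟨hsz, hkm⟩ := hX₁ k hkX
    have hk2R : (2 : ℝ) ≤ k := (le_max_left _ _).trans hkm
    have hkhi : hi ≤ (k : ℝ) := (le_max_right _ _).trans hkm
    have hkR0 : (0 : ℝ) < k := by linarith
    have hkK : (k : ℝ) ≤ K := by exact_mod_cast hk2
    have hlk : Real.log k ≤ L := by rw [hL]; exact Real.log_le_log hkR0 hkK
    have hlk2 : L ≤ 2 * Real.log k := by
      have h1 : Real.exp (L / 2) ≤ k := hN₁l.trans (by exact_mod_cast (by omega : N₁ ≤ k))
      have h2 := Real.log_le_log (Real.exp_pos _) h1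
      rw [Real.log_exp] at h2
      linarith
    have hval : gp F a 0 k ≤ hi * (k : ℝ) ^ c := by
      have := (hsz k ⟨by linarith, by linarith⟩).2
      simpa using this
    have hmR : (m : ℝ) ≤ (k : ℝ) ^ E := by
      have h7 := (abs_le.1 hm1).2
      have h8 : Real.exp (B * r) ≤ k := by
        have h9 : B * r ≤ Real.log k := by nlinarith
        calc Real.exp (B * r) ≤ Real.exp (Real.log k) := Real.exp_le_exp.2 h9
          _ = k := Real.exp_log hkR0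
      have h9 : hi * (k : ℝ) ^ c ≤ (k : ℝ) ^ (c + 1) := by
        rw [Real.rpow_add_one hkR0.ne', mul_comm]
        exact mul_le_mul_of_nonneg_left hkhi (by positivity)
      have h10 : (k : ℝ) ≤ (k : ℝ) ^ (c + 1) := by
        calc (k : ℝ) = (k : ℝ) ^ (1 : ℝ) := (Real.rpow_one _).symm
          _ ≤ (k : ℝ) ^ (c + 1) := Real.rpow_le_rpow_of_exponent_le (by linarith) (by linarith)
      have h11 : 2 * (k : ℝ) ^ (c + 1) ≤ (k : ℝ) ^ (c + 2) := by
        have e1 : (k : ℝ) ^ (c + 2) = (k : ℝ) ^ (c + 1) * k := by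
          rw [← Real.rpow_add_one hkR0.ne']
          congr 1
          ring
        rw [e1, mul_comm]
        exact mul_le_mul_of_nonneg_left hk2R (by positivity)
      have h12 : (k : ℝ) ^ (c + 2) ≤ (k : ℝ) ^ E := by
        rw [← Real.rpow_natCast]
        exact Real.rpow_le_rpow_of_exponent_le (by linarith) hcE
      linarith
    have hm4 : (k : ℝ) ≤ 4 * m := by exact_mod_cast h4
    have hm0 : (0 : ℝ) < m := by linarith
    have hlm1 : Real.log m ≤ E * L := by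
      have h7 := Real.log_le_log hm0 hmR
      rw [Real.log_pow] at h7
      refine h7.trans ?_
      exact mul_le_mul_of_nonneg_left hlk (Nat.cast_nonneg _)
    have hlm2 : L / 2 ≤ Real.log m + 2 := by
      have h7 := Real.log_le_log hkR0 hm4
      rw [Real.log_mul (by norm_num) hm0.ne'] at h7
      have h8 : Real.log 4 ≤ 2 := by
        rw [show (4 : ℝ) = 2 ^ 2 by norm_num, Real.log_pow]
        have := Real.log_two_lt_d9
        push_cast
        linarith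
      linarith
    have hL64 : 64 ≤ L := by nlinarith
    have hlm3 : L ≤ 4 * Real.log m := by linarith
    refine ⟨?_, ?_⟩
    · by_contra h3
      push Not at h3
      have h7 : (m : ℝ) ≤ 2 := by exact_mod_cast (by omega : m ≤ 2)
      have h8 := Real.log_le_log hm0 h7
      have := Real.log_two_lt_d9
      linarith
    · refine slowTo_mono (c₀ := c₀) (D₀ := D₀) (L := L) (E := E) (by omega) rfl rfl hc₀ hD₀ (by linarith) hL0
        hlm1 hlm3 ?_
      refine ⟨?_, fun n hn1 hn2 => ?_⟩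
      · rw [← hr]
        refine hh3.trans ?_
        exact_mod_cast h5.le
      · rw [← hr] at hn2
        have h7 : n ≤ 2 ^ h := by
          have := hn2.trans hh3
          exact_mod_cast this
        have h8 := h6 n hn1 h7
        have h9 : ((((m : ℤ) - 2 ^ (C * (h * (t * h))) : ℤ)) : ℝ) ≤ ((Pool.Agent.N333.GR.a m n : ℤ) : ℝ) := by
          exact_mod_cast h8
        push_cast at h9
        linarith
  have hcard := (card_le_card hsub).trans (card_union_le _ _)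
  rw [card_range] at hcard
  have hcard' : (((Icc 1 K).filter (fun k : ℕ => ∃ m : ℕ, |(m : ℝ) - gp F a 0 k| ≤ Real.exp (B * r) ∧
      ¬ (3 ≤ m ∧ SlowTo (c₀ / E) (4 * D₀) (Real.log m) m))).card : ℝ) ≤
      ((N₁ : ℝ) + 1) + (((range (K + 1)).filter S).card : ℝ) := by
    exact_mod_cast hcard
  -- numerics
  have e1 : (1 : ℝ) / 2 ^ (t * h) ≤ Real.exp (-(B * r)) * Real.exp (-16 : ℝ) := by
    have h1 : Real.exp (B * r + 16) ≤ 2 ^ (t * h) := by
      refine le_trans (Real.exp_le_exp.2 ?_) hh5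
      nlinarith
    calc (1 : ℝ) / 2 ^ (t * h) ≤ 1 / Real.exp (B * r + 16) :=
          one_div_le_one_div_of_le (Real.exp_pos _) h1
      _ = Real.exp (-(B * r)) * Real.exp (-16 : ℝ) := by
          rw [one_div, ← Real.exp_neg, ← Real.exp_add]
          congr 1
          ring
  have e2 : Real.exp (L / 2) ≤ (K : ℝ) * Real.exp (-(B * r)) * Real.exp (-16 : ℝ) := by
    rw [hKL, ← Real.exp_add, ← Real.exp_add]
    apply Real.exp_le_exp.2
    nlinarith
  have e3 : Real.exp (-16 : ℝ) ≤ 1 / 16 := by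
    have h1 : (16 : ℝ) + 1 ≤ Real.exp 16 := Real.add_one_le_exp 16
    rw [Real.exp_neg, ← one_div]
    exact one_div_le_one_div_of_le (by norm_num) (by linarith)
  have e4 : (1 : ℝ) ≤ Real.exp (L / 2) := Real.one_le_exp (by linarith)
  have hP : 0 < (K : ℝ) * Real.exp (-(B * r)) := by positivity
  have e5 : (K : ℝ) * Real.exp (-(B * r)) * Real.exp (-16 : ℝ) ≤ (K : ℝ) * Real.exp (-(B * r)) * (1 / 16) :=
    mul_le_mul_of_nonneg_left e3 hP.le
  have e6 : 4 * (1 / 2 ^ (t * h)) * (K : ℝ) ≤ 4 * ((K : ℝ) * Real.exp (-(B * r)) * (1 / 16)) := by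
    have h1 : (1 / 2 ^ (t * h)) * (K : ℝ) ≤ (K : ℝ) * Real.exp (-(B * r)) * Real.exp (-16 : ℝ) := by
      calc (1 / 2 ^ (t * h)) * (K : ℝ) ≤ (Real.exp (-(B * r)) * Real.exp (-16 : ℝ)) * K :=
            mul_le_mul_of_nonneg_right e1 (by linarith)
        _ = _ := by ring
    linarith
  linarith

end Pool.Agent.L7h55.GP
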