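import Pool.Agent.R482.ST.Ae
import Pool.Agent.L7h55.GP.PS3

/-!
# The gcd recursion of MP_b5e119_nt near powers `x ^ (v n)`, for almost all `x`
-/

set_option autoImplicit false

namespace Pool.Agent.L7h55.GP

open Finset Filter Topology MeasureTheory

lemma intPoly_id : IntPoly (fun k : ℤ => k) := by
  refine ⟨Polynomial.X, ?_, fun k => ?_⟩
  · rw [Polynomial.natDegree_X]
    norm_num
  · rw [Polynomial.eval_X]

/-- the numbers which are not slow, from a height on -/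
def Bad (C h s : ℕ) : Set ℕ := {m : ℕ | 2 ^ (C * (h ^ 2 * s)) ≤ m ∧
  ¬ (2 ^ h < Pool.Agent.N333.GR.g m ∧ ∀ n, 1 ≤ n → n ≤ 2 ^ h →
    (m : ℤ) - 2 ^ (C * (h * s)) ≤ Pool.Agent.N333.GR.a m n)}

theorem bad_count : ∃ C : ℕ, ∀ h s : ℕ, C ≤ h → h ≤ s → s ≤ h ^ 2 → ∀ X : ℝ, 1 ≤ X →
    {m : ℕ | m ∈ Bad C h s ∧ (m : ℝ) ≤ X}.Finite ∧
    ({m : ℕ | m ∈ Bad C h s ∧ (m : ℝ) ≤ X}.ncard : ℝ) ≤ 1 / 2 ^ s * X := by
  classical
  obtain ⟨C, hC⟩ := poly_main intPoly_id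
  refine ⟨C, fun h s hCh hs hs2 X hX => ?_⟩
  have hfin : {m : ℕ | m ∈ Bad C h s ∧ (m : ℝ) ≤ X}.Finite :=
    (Set.finite_Iic ⌊X⌋₊).subset fun m hm => Nat.le_floor hm.2
  refine ⟨hfin, ?_⟩
  rcases Nat.lt_or_ge ⌊X⌋₊ (2 ^ (C * (h ^ 2 * s))) with hlt | hge
  · have h0 : {m : ℕ | m ∈ Bad C h s ∧ (m : ℝ) ≤ X} = ∅ := by
      rw [Set.eq_empty_iff_forall_notMem]
      rintro m ⟨⟨h1, _⟩, h2⟩
      have h3 := Nat.le_floor h2
      omega
    rw [h0, Set.ncard_empty]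
    push_cast
    positivity
  · have h1 := hC h s ⌊X⌋₊ 0 hCh hs hs2 hge
    have h2 : {m : ℕ | m ∈ Bad C h s ∧ (m : ℝ) ≤ X}.ncard ≤ ((Ioc (0 : ℤ) (0 + (⌊X⌋₊ : ℕ))).filter
        (fun k => ∃ N : ℕ, (N : ℤ) = k ∧ 2 ^ (C * (h * s)) ≤ N ∧
        ¬ (2 ^ h < Pool.Agent.N333.GR.g N ∧ ∀ n, 1 ≤ n → n ≤ 2 ^ h →
        (N : ℤ) - 2 ^ (C * (h * s)) ≤ Pool.Agent.N333.GR.a N n))).card := by
      rw [← Set.ncard_coe_finset]
      refine Set.ncard_le_ncard_of_injOn (fun m : ℕ => (m : ℤ)) ?_ ?_ (Finset.finite_toSet _)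
      · rintro m ⟨⟨h3, h4⟩, h5⟩
        simp only [coe_filter, mem_Ioc, Set.mem_ofPred_eq]
        have h6 : 0 < m := lt_of_lt_of_le (by positivity) h3
        have h7 := Nat.le_floor h5
        refine ⟨⟨by omega, by omega⟩, m, rfl, ?_, h4⟩
        refine le_trans (Nat.pow_le_pow_right (by norm_num) ?_) h3
        apply Nat.mul_le_mul_left
        rcases Nat.eq_zero_or_pos h with h0 | h0
        · subst h0
          simp
        · rw [pow_two, mul_assoc]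
          exact Nat.le_mul_of_pos_left _ h0
      · intro m _ m' _ he
        have he' : (m : ℤ) = (m' : ℤ) := he
        exact_mod_cast he'
    have h3 : ((⌊X⌋₊ : ℕ) : ℝ) ≤ X := Nat.floor_le (by linarith)
    calc ({m : ℕ | m ∈ Bad C h s ∧ (m : ℝ) ≤ X}.ncard : ℝ) ≤ _ := Nat.cast_le.2 h2
      _ ≤ ((⌊X⌋₊ : ℕ) : ℝ) / 2 ^ s := by
          refine le_trans (le_of_eq ?_) h1
          congr
      _ ≤ 1 / 2 ^ s * X := by
          rw [div_eq_mul_inv, mul_comm, ← one_div]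
          exact mul_le_mul_of_nonneg_left h3 (by positivity)

/-- **one value of the parameters** -/
theorem met_one {κ : ℝ} (hκ : 0 < κ) {v : ℕ → ℝ} (hv1 : ∀ n, 1 ≤ v n)
    (hv : ∀ n : ℕ, 1 ≤ n → κ * Real.log (n : ℝ) ^ 3 ≤ v n) (hvt : Tendsto v atTop atTop)
    {l A : ℝ} (hl : 0 < l) (hA : 0 ≤ A) : ∃ c D : ℝ, 0 < c ∧ 0 < D ∧ ∃ Z : Set ℝ, volume Z = 0 ∧
    ∀ x : ℝ, 1 < x → l ≤ Real.log x → x ∉ Z → ∃ n₀ : ℕ, ∀ n : ℕ, n₀ ≤ n → ∀ m : ℕ,
      |(m : ℝ) - x ^ (v n)| ≤ Real.exp (A * v n ^ (1 / 3 : ℝ)) → 3 ≤ m ∧ SlowTo c D (v n) m := by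
  classical
  obtain ⟨C, hC⟩ := bad_count
  -- the constants
  obtain ⟨k₁, hk₁⟩ : ∃ k₁ : ℝ, k₁ = κ ^ (1 / 3 : ℝ) := ⟨_, rfl⟩
  have hk₁0 : 0 < k₁ := by rw [hk₁]; positivity
  obtain ⟨l₁, hl₁⟩ : ∃ l₁ : ℝ, l₁ = l ^ (1 / 3 : ℝ) := ⟨_, rfl⟩
  have hl₁0 : 0 < l₁ := by rw [hl₁]; positivity
  obtain ⟨B, hB⟩ : ∃ B : ℝ, B = (A + 3 + 2 / k₁) / l₁ := ⟨_, rfl⟩
  have hB0 : 0 ≤ B := by rw [hB]; positivity
  have hBl : B * l₁ = A + 3 + 2 / k₁ := by rw [hB]; field_simp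
  obtain ⟨t, ht1, c, D, hc, hD, hpar⟩ := params C B hB0
  refine ⟨c * l₁, D * l₁ ^ 2, by positivity, by positivity, ?_⟩
  -- the choice of `h`
  have hlv : Tendsto (fun n => l * v n) atTop atTop := hvt.const_mul_atTop hl
  obtain ⟨n₁, hn₁⟩ := eventually_atTop.1 (hlv.eventually hpar)
  choose! h hh1 hh2 hh3 hh4 hh5 using hn₁
  have hv0 : ∀ n, 0 < v n := fun n => by linarith [hv1 n]
  have hr : ∀ n, (l * v n) ^ (1 / 3 : ℝ) = l₁ * v n ^ (1 / 3 : ℝ) := fun n => by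
    rw [Real.mul_rpow hl.le (hv0 n).le, hl₁]
  have hr2 : ∀ n, (l * v n) ^ (2 / 3 : ℝ) = l₁ ^ 2 * v n ^ (2 / 3 : ℝ) := fun n => by
    rw [Real.mul_rpow hl.le (hv0 n).le, hl₁, ← Real.rpow_natCast (l ^ (1 / 3 : ℝ)) 2, ← Real.rpow_mul hl.le]
    norm_num
  obtain ⟨S, hS⟩ : ∃ S : ℕ → Set ℕ, S = fun n => if n₁ ≤ n then Bad C (h n) (t * h n) else ∅ := ⟨_, rfl⟩
  obtain ⟨Cn, hCn⟩ : ∃ Cn : ℕ → ℝ, Cn = fun n => if n₁ ≤ n then 1 / 2 ^ (t * h n) else (0 : ℝ) := ⟨_, rfl⟩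
  obtain ⟨Ln, hLn⟩ : ∃ Ln : ℕ → ℝ, Ln = fun n => Real.exp (A * v n ^ (1 / 3 : ℝ)) := ⟨_, rfl⟩
  have hCn0 : ∀ n, 0 ≤ Cn n := fun n => by
    rw [hCn]
    simp only
    split_ifs
    · positivity
    · exact le_rfl
  -- `exp (A v ^ (1/3))` is small
  have hvsmall : ∀ ε : ℝ, 0 < ε → ∀ᶠ n in atTop, A * v n ^ (1 / 3 : ℝ) + 2 ≤ ε * v n := by
    intro ε hε
    have h1 : Tendsto (fun y : ℝ => y ^ (2 / 3 : ℝ)) atTop atTop := tendsto_rpow_atTop (by norm_num)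
    have h2 := (h1.comp hvt).eventually_ge_atTop ((A + 2) / ε)
    filter_upwards [h2] with n hn
    have h3 : (A + 2) / ε ≤ v n ^ (2 / 3 : ℝ) := hn
    rw [div_le_iff₀ hε] at h3
    have h4 : v n ^ (1 / 3 : ℝ) * v n ^ (2 / 3 : ℝ) = v n := by
      rw [← Real.rpow_add (hv0 n)]
      norm_num
    have h5 : 1 ≤ v n ^ (1 / 3 : ℝ) := Real.one_le_rpow (hv1 n) (by norm_num)
    calc A * v n ^ (1 / 3 : ℝ) + 2 ≤ (A + 2) * v n ^ (1 / 3 : ℝ) := by nlinarith
      _ ≤ (v n ^ (2 / 3 : ℝ) * ε) * v n ^ (1 / 3 : ℝ) := mul_le_mul_of_nonneg_right h3 (by linarith)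
      _ = ε * (v n ^ (1 / 3 : ℝ) * v n ^ (2 / 3 : ℝ)) := by ring
      _ = ε * v n := by rw [h4]
  have hsum : Summable fun n => Cn n * Ln n * v n := by
    have h1 : Summable fun n : ℕ => 6 * (1 / (n : ℝ) ^ 2) :=
      (Real.summable_one_div_nat_pow.2 (by norm_num : 1 < 2)).mul_left 6
    rw [← summable_nat_add_iff (n₁ + 1)] at h1 ⊢
    refine Summable.of_nonneg_of_le (fun n => ?_) (fun n => ?_) h1
    · have := hCn0 (n + (n₁ + 1))
      have := hv0 (n + (n₁ + 1))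
      rw [hLn]
      positivity
    · obtain ⟨k, hk⟩ : ∃ k, k = n + (n₁ + 1) := ⟨_, rfl⟩
      rw [← hk]
      have hk1 : n₁ ≤ k := by omega
      have hk2 : 1 ≤ k := by omega
      have hkR : (1 : ℝ) ≤ k := by exact_mod_cast hk2
      obtain ⟨w, hw⟩ : ∃ w : ℝ, w = v k ^ (1 / 3 : ℝ) := ⟨_, rfl⟩
      have hw1 : 1 ≤ w := by rw [hw]; exact Real.one_le_rpow (hv1 k) (by norm_num)
      have hw3 : w ^ 3 = v k := by
        rw [hw, ← Real.rpow_natCast, ← Real.rpow_mul (hv0 k).le]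
        norm_num
      have hC1 : Cn k ≤ Real.exp (-(B * l₁ * w)) := by
        rw [hCn]
        simp only [hk1, if_true]
        have h2 := hh5 k hk1
        rw [hr, ← hw, ← mul_assoc] at h2
        rw [Real.exp_neg, ← one_div]
        exact one_div_le_one_div_of_le (Real.exp_pos _) h2
      have hlogk : Real.log k ≤ w / k₁ := by
        rw [le_div_iff₀ hk₁0]
        have h2 := hv k hk2
        have h3 : (Real.log k * k₁) ^ 3 ≤ w ^ 3 := by
          rw [hw3, mul_pow]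
          have h4 : k₁ ^ 3 = κ := by
            rw [hk₁, ← Real.rpow_natCast, ← Real.rpow_mul hκ.le]
            norm_num
          rw [h4]
          linarith
        exact (pow_le_pow_iff_left₀ (mul_nonneg (Real.log_nonneg hkR) hk₁0.le) (by linarith) (by norm_num)).1 h3
      have hvw : v k ≤ 6 * Real.exp w := by
        have h2 := Real.pow_div_factorial_le_exp (x := w) (by linarith) 3
        rw [hw3] at h2
        have e : ((Nat.factorial 3 : ℕ) : ℝ) = 6 := by norm_num [Nat.factorial]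
        rw [e, div_le_iff₀ (by norm_num)] at h2
        linarith
      have h5 : Real.exp (-(B * l₁ * w)) * Ln k * v k ≤ 6 * (1 / (k : ℝ) ^ 2) := by
        rw [hLn]
        simp only
        rw [← hw]
        calc Real.exp (-(B * l₁ * w)) * Real.exp (A * w) * v k ≤
            Real.exp (-(B * l₁ * w)) * Real.exp (A * w) * (6 * Real.exp w) := by gcongr
          _ = 6 * Real.exp (-(B * l₁ * w) + A * w + w) := by
              rw [Real.exp_add, Real.exp_add]; ring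
          _ ≤ 6 * Real.exp (-(2 * Real.log k)) := by
              apply mul_le_mul_of_nonneg_left _ (by norm_num)
              apply Real.exp_le_exp.2
              rw [hBl]
              have h6 : 2 / k₁ * w = 2 * (w / k₁) := by ring
              nlinarith
          _ = 6 * (1 / (k : ℝ) ^ 2) := by
              rw [Real.exp_neg, one_div]
              congr 2
              rw [← Real.exp_log (by linarith : (0 : ℝ) < k), ← Real.exp_nat_mul, Real.log_exp]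
              norm_num
      refine le_trans ?_ h5
      apply mul_le_mul_of_nonneg_right _ (hv0 k).le
      apply mul_le_mul_of_nonneg_right hC1
      rw [hLn]
      positivity
  obtain ⟨Z, hZ, hZ2⟩ := Pool.Agent.R482.ST.pow_ae_windows S (fun m : ℕ => (m : ℝ)) hv1 (C := Cn) (L := Ln) hCn0
    (fun n => by rw [hLn]; positivity)
    (fun x hx => by
      have hlx : 0 < Real.log x := Real.log_pos hx
      filter_upwards [hvsmall _ hlx] with n hn
      rw [hLn, Real.rpow_def_of_pos (by linarith)]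
      apply Real.exp_le_exp.2
      linarith) hsum
    (fun n X hX => by
      rw [hS, hCn]
      simp only
      split_ifs with hn
      · exact hC (h n) (t * h n) (by have := hh1 n hn; omega) (Nat.le_mul_of_pos_left _ ht1) (by
          rw [pow_two]
          exact Nat.mul_le_mul_right _ (by have := hh1 n hn; omega)) X hX
      · have h0 : {m : ℕ | m ∈ (∅ : Set ℕ) ∧ (m : ℝ) ≤ X} = ∅ := by
          ext m
          simp
        rw [h0]
        simp)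
  refine ⟨Z, hZ, fun x hx hlx hxZ => ?_⟩
  obtain ⟨n₂, hn₂⟩ := hZ2 x hx hxZ
  obtain ⟨n₃, hn₃⟩ := eventually_atTop.1 (hvsmall (l / 2) (by linarith))
  refine ⟨n₁ + n₂ + n₃, fun n hn m hm => ?_⟩
  have hn1 : n₁ ≤ n := by omega
  have hnot : m ∉ S n := fun hmem => absurd (hn₂ n (by omega) m hmem) (not_lt.2 (by rw [hLn]; exact hm))
  rw [hS] at hnot
  simp only [hn1, if_true] at hnot
  have hsmall := hn₃ n (by omega)
  -- the size of `m`
  have hxv : Real.exp (l * v n) ≤ x ^ (v n) := by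
    rw [Real.rpow_def_of_pos (by linarith)]
    apply Real.exp_le_exp.2
    exact mul_le_mul_of_nonneg_right hlx (hv0 n).le
  have he1 : Real.exp (A * v n ^ (1 / 3 : ℝ)) ≤ Real.exp (l * v n / 2) / 4 := by
    have h2 : Real.exp (A * v n ^ (1 / 3 : ℝ)) * Real.exp 2 ≤ Real.exp (l * v n / 2) := by
      rw [← Real.exp_add]
      apply Real.exp_le_exp.2
      linarith
    have h3 : (4 : ℝ) ≤ Real.exp 2 := by
      have h4 : (2 : ℝ) ≤ Real.exp 1 := by
        have := Real.add_one_le_exp (1 : ℝ)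
        linarith
      have h5 : Real.exp 2 = Real.exp 1 * Real.exp 1 := by rw [← Real.exp_add]; norm_num
      rw [h5]
      nlinarith
    have h4 := Real.exp_pos (A * v n ^ (1 / 3 : ℝ))
    rw [le_div_iff₀ (by norm_num)]
    nlinarith
  have hmlow : Real.exp (l * v n / 2) ≤ m := by
    have h2 := (abs_le.1 hm).1
    have h3 : Real.exp (l * v n) = Real.exp (l * v n / 2) * Real.exp (l * v n / 2) := by
      rw [← Real.exp_add]
      congr 1
      ring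
    have h4 : (2 : ℝ) ≤ Real.exp (l * v n / 2) := by
      have h5 : 2 ≤ l * v n / 2 := by
        have : 0 ≤ A * v n ^ (1 / 3 : ℝ) := mul_nonneg hA (Real.rpow_nonneg (hv0 n).le _)
        linarith
      have := Real.add_one_le_exp (l * v n / 2)
      linarith
    nlinarith
  have hBad : ¬ ¬ (2 ^ h n < Pool.Agent.N333.GR.g m ∧ ∀ i, 1 ≤ i → i ≤ 2 ^ h n →
      (m : ℤ) - 2 ^ (C * (h n * (t * h n))) ≤ Pool.Agent.N333.GR.a m i) := by
    intro hcon
    apply hnot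
    refine ⟨?_, hcon⟩
    have h2 := (hh2 n hn1).trans (hmlow)
    exact_mod_cast h2
  rw [not_not] at hBad
  refine ⟨?_, ?_, fun i hi1 hi2 => ?_⟩
  · have h5 : 2 ≤ l * v n / 2 := by
      have : 0 ≤ A * v n ^ (1 / 3 : ℝ) := mul_nonneg hA (Real.rpow_nonneg (hv0 n).le _)
      linarith
    have h6 := Real.add_one_le_exp (l * v n / 2)
    have h7 : (3 : ℝ) ≤ m := by linarith
    exact_mod_cast h7
  · have h2 := hh3 n hn1
    rw [hr, ← mul_assoc] at h2
    refine h2.trans ?_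
    exact_mod_cast hBad.1.le
  · have h2 := hh3 n hn1
    rw [hr, ← mul_assoc] at h2
    have h3 : i ≤ 2 ^ h n := by
      have := hi2.trans h2
      exact_mod_cast this
    have h4 := hBad.2 i hi1 h3
    have h5 := hh4 n hn1
    rw [hr2] at h5
    have h10 : D * (l₁ ^ 2 * v n ^ (2 / 3 : ℝ)) = D * l₁ ^ 2 * v n ^ (2 / 3 : ℝ) := by ring
    rw [h10] at h5
    have h9 : ((((m : ℤ) - 2 ^ (C * (h n * (t * h n))) : ℤ)) : ℝ) ≤ ((Pool.Agent.N333.GR.a m i : ℤ) : ℝ) := by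
      exact_mod_cast h4
    push_cast at h9
    linarith

/-- **near powers, for almost all bases** -/
theorem met_all {κ : ℝ} (hκ : 0 < κ) {v : ℕ → ℝ} (hv1 : ∀ n, 1 ≤ v n)
    (hv : ∀ n : ℕ, 1 ≤ n → κ * Real.log (n : ℝ) ^ 3 ≤ v n) : ∃ Z : Set ℝ, volume Z = 0 ∧
    ∀ x : ℝ, 1 < x → x ∉ Z → ∀ A : ℝ, ∃ c D : ℝ, 0 < c ∧ 0 < D ∧ ∃ n₀ : ℕ, ∀ n : ℕ, n₀ ≤ n → ∀ m : ℕ,
      |(m : ℝ) - x ^ (v n)| ≤ Real.exp (A * v n ^ (1 / 3 : ℝ)) → 3 ≤ m ∧ SlowTo c D (v n) m := by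
  have hvt : Tendsto v atTop atTop := by
    have h1 : Tendsto (fun n : ℕ => κ * Real.log n ^ 3) atTop atTop :=
      ((tendsto_pow_atTop (by norm_num)).comp
        (Real.tendsto_log_atTop.comp tendsto_natCast_atTop_atTop)).const_mul_atTop hκ
    exact tendsto_atTop_mono' _ (by
      filter_upwards [eventually_ge_atTop 1] with n hn
      exact hv n hn) h1
  have hall := fun j : ℕ => met_one hκ hv1 hv hvt (l := 1 / ((j : ℝ) + 1)) (A := j) (by positivity)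
    (Nat.cast_nonneg j)
  choose c D hc hD Z hZ hZ2 using hall
  refine ⟨⋃ j, Z j, measure_iUnion_null hZ, fun x hx hxZ A => ?_⟩
  have hlx : 0 < Real.log x := Real.log_pos hx
  obtain ⟨j, hj⟩ := exists_nat_ge (max A (1 / Real.log x))
  have hj1 : A ≤ j := (le_max_left _ _).trans hj
  have hj2 : 1 / Real.log x ≤ j := (le_max_right _ _).trans hj
  obtain ⟨n₀, hn₀⟩ := hZ2 j x hx (by
    rw [div_le_iff₀ (by positivity)]
    rw [div_le_iff₀ hlx] at hj2
    nlinarith) (fun h => hxZ (Set.mem_iUnion.2 ⟨j, h⟩))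
  refine ⟨c j, D j, hc j, hD j, n₀, fun n hn m hm => hn₀ n hn m (hm.trans ?_)⟩
  apply Real.exp_le_exp.2
  apply mul_le_mul_of_nonneg_right hj1
  apply Real.rpow_nonneg
  linarith [hv1 n]

end Pool.Agent.L7h55.GP
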