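import Pool.Agent.L7h55.GP.Met

/-!
# The gcd recursion of MP_b5e119_nt near powers `x ^ (v n)`, for almost all `x`: the final form
-/

set_option autoImplicit false

namespace Pool.Agent.L7h55.GP

open Finset Filter Topology MeasureTheory

lemma slowTo_scale {c₀ D₀ L l α β : ℝ} {N : ℕ} (hα : 0 < α) (hβ : 0 < β) (hc₀ : 0 < c₀) (hD₀ : 0 < D₀)
    (hl0 : 0 ≤ l) (hL0 : 0 ≤ L) (h1 : l ≤ α * L) (h2 : L ≤ β * l) (h : SlowTo c₀ D₀ L N) :
    SlowTo (c₀ / α ^ (1 / 3 : ℝ)) (D₀ * β ^ (2 / 3 : ℝ)) l N := by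
  have hα3 : 0 < α ^ (1 / 3 : ℝ) := by positivity
  have e1 : c₀ / α ^ (1 / 3 : ℝ) * l ^ (1 / 3 : ℝ) ≤ c₀ * L ^ (1 / 3 : ℝ) := by
    have h3 : l ^ (1 / 3 : ℝ) ≤ α ^ (1 / 3 : ℝ) * L ^ (1 / 3 : ℝ) := by
      rw [← Real.mul_rpow hα.le hL0]
      exact Real.rpow_le_rpow hl0 h1 (by norm_num)
    calc c₀ / α ^ (1 / 3 : ℝ) * l ^ (1 / 3 : ℝ) ≤ c₀ / α ^ (1 / 3 : ℝ) * (α ^ (1 / 3 : ℝ) * L ^ (1 / 3 : ℝ)) :=
          mul_le_mul_of_nonneg_left h3 (by positivity)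
      _ = c₀ * L ^ (1 / 3 : ℝ) := by field_simp
  have e2 : D₀ * L ^ (2 / 3 : ℝ) ≤ D₀ * β ^ (2 / 3 : ℝ) * l ^ (2 / 3 : ℝ) := by
    have h3 : L ^ (2 / 3 : ℝ) ≤ β ^ (2 / 3 : ℝ) * l ^ (2 / 3 : ℝ) := by
      rw [← Real.mul_rpow hβ.le hl0]
      exact Real.rpow_le_rpow hL0 h2 (by norm_num)
    calc D₀ * L ^ (2 / 3 : ℝ) ≤ D₀ * (β ^ (2 / 3 : ℝ) * l ^ (2 / 3 : ℝ)) :=
          mul_le_mul_of_nonneg_left h3 hD₀.le
      _ = _ := by ring
  refine ⟨(Real.exp_le_exp.2 e1).trans h.1, fun n hn1 hn2 => ?_⟩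
  have h3 := h.2 n hn1 (hn2.trans (Real.exp_le_exp.2 e1))
  have h4 := Real.exp_le_exp.2 e2
  linarith

/-- **near powers, for almost all bases** -/
theorem met_final {v : ℕ → ℝ} (hv : ∃ κ : ℝ, 0 < κ ∧ ∀ᶠ n : ℕ in atTop, κ * Real.log (n : ℝ) ^ 3 ≤ v n) :
    ∀ᵐ x : ℝ, 1 < x → ∀ A : ℝ, ∃ c D : ℝ, 0 < c ∧ 0 < D ∧ ∀ᶠ n : ℕ in atTop, ∀ m : ℕ,
      |(m : ℝ) - x ^ (v n)| ≤ Real.exp (A * v n ^ (1 / 3 : ℝ)) → 3 ≤ m ∧ SlowTo c D (Real.log m) m := by
  obtain ⟨κ, hκ, hv⟩ := hv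
  have hlog : Tendsto (fun n : ℕ => κ * Real.log (n : ℝ) ^ 3) atTop atTop :=
    ((tendsto_pow_atTop (by norm_num)).comp
      (Real.tendsto_log_atTop.comp tendsto_natCast_atTop_atTop)).const_mul_atTop hκ
  have hvt : Tendsto v atTop atTop := tendsto_atTop_mono' _ hv hlog
  obtain ⟨Z, hZ, hZ2⟩ := met_all hκ (v := fun n => max 1 (max (v n) (κ * Real.log (n : ℝ) ^ 3)))
    (fun n => le_max_left _ _) (fun n _ => (le_max_right _ _).trans (le_max_right _ _))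
  have hae : ∀ᵐ x : ℝ, x ∉ Z := by
    rw [ae_iff]
    simpa using hZ
  filter_upwards [hae] with x hxZ hx A
  obtain ⟨c, D, hc, hD, n₀, hn₀⟩ := hZ2 x hx hxZ A
  have hlx : 0 < Real.log x := Real.log_pos hx
  refine ⟨c / (Real.log x + 1) ^ (1 / 3 : ℝ), D * (2 / Real.log x) ^ (2 / 3 : ℝ), by positivity, by positivity, ?_⟩
  -- `A v ^ (1/3)` is small
  have hsm : ∀ᶠ n in atTop, A * v n ^ (1 / 3 : ℝ) + 1 ≤ Real.log x * v n / 2 := by
    have h1 : Tendsto (fun y : ℝ => y ^ (2 / 3 : ℝ)) atTop atTop := tendsto_rpow_atTop (by norm_num)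
    have h2 := (h1.comp hvt).eventually_ge_atTop ((|A| + 1) / (Real.log x / 2))
    filter_upwards [h2, hvt.eventually_ge_atTop 1] with n hn hv1
    have h3 : (|A| + 1) / (Real.log x / 2) ≤ v n ^ (2 / 3 : ℝ) := hn
    rw [div_le_iff₀ (by positivity)] at h3
    have h4 : v n ^ (1 / 3 : ℝ) * v n ^ (2 / 3 : ℝ) = v n := by
      rw [← Real.rpow_add (by linarith)]
      norm_num
    have h5 : 1 ≤ v n ^ (1 / 3 : ℝ) := Real.one_le_rpow hv1 (by norm_num)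
    have h6 := le_abs_self A
    calc A * v n ^ (1 / 3 : ℝ) + 1 ≤ (|A| + 1) * v n ^ (1 / 3 : ℝ) := by nlinarith
      _ ≤ (v n ^ (2 / 3 : ℝ) * (Real.log x / 2)) * v n ^ (1 / 3 : ℝ) :=
          mul_le_mul_of_nonneg_right h3 (by linarith)
      _ = (v n ^ (1 / 3 : ℝ) * v n ^ (2 / 3 : ℝ)) * (Real.log x / 2) := by ring
      _ = Real.log x * v n / 2 := by rw [h4]; ring
  filter_upwards [eventually_ge_atTop n₀, hv, hvt.eventually_ge_atTop 1, hsm,
    hvt.eventually_ge_atTop (4 / Real.log x)] with n hn hvn hv1 hsmn hv4 m hm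
  have hmax : max 1 (max (v n) (κ * Real.log (n : ℝ) ^ 3)) = v n := by
    rw [max_eq_left hvn, max_eq_right hv1]
  have h1 := hn₀ n hn m
  simp only [hmax] at h1
  obtain ⟨h2, h3⟩ := h1 hm
  refine ⟨h2, ?_⟩
  have hm0 : (0 : ℝ) < m := by
    have : (3 : ℝ) ≤ m := by exact_mod_cast h2
    linarith
  have hlv : 4 ≤ Real.log x * v n := by
    rw [div_le_iff₀ hlx] at hv4
    linarith
  have hxv : x ^ (v n) = Real.exp (Real.log x * v n) := Real.rpow_def_of_pos (by linarith) _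
  have hE : Real.exp (A * v n ^ (1 / 3 : ℝ)) ≤ Real.exp (Real.log x * v n) / 2 := by
    have h4 : Real.exp (A * v n ^ (1 / 3 : ℝ)) * Real.exp 1 ≤ Real.exp (Real.log x * v n) := by
      rw [← Real.exp_add]
      apply Real.exp_le_exp.2
      linarith
    have h5 : (2 : ℝ) ≤ Real.exp 1 := by
      have := Real.add_one_le_exp (1 : ℝ)
      linarith
    have h6 := Real.exp_pos (A * v n ^ (1 / 3 : ℝ))
    rw [le_div_iff₀ (by norm_num)]
    nlinarith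
  have hab := abs_le.1 hm
  rw [hxv] at hab
  -- bounds for `log m`
  have hup : Real.log m ≤ (Real.log x + 1) * v n := by
    have h4 : (m : ℝ) ≤ Real.exp (Real.log x * v n + 1) := by
      rw [Real.exp_add]
      have h5 : (2 : ℝ) ≤ Real.exp 1 := by
        have := Real.add_one_le_exp (1 : ℝ)
        linarith
      have h6 := Real.exp_pos (Real.log x * v n)
      nlinarith [hab.2]
    have h7 := Real.log_le_log hm0 h4
    rw [Real.log_exp] at h7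
    nlinarith
  have hlow : v n ≤ 2 / Real.log x * Real.log m := by
    have h4 : Real.exp (Real.log x * v n - 1) ≤ m := by
      rw [Real.exp_sub]
      have h5 : (2 : ℝ) ≤ Real.exp 1 := by
        have := Real.add_one_le_exp (1 : ℝ)
        linarith
      have h6 := Real.exp_pos (Real.log x * v n)
      have h7 : Real.exp (Real.log x * v n) / Real.exp 1 ≤ Real.exp (Real.log x * v n) / 2 :=
        div_le_div_of_nonneg_left h6.le (by norm_num) h5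
      linarith [hab.1]
    have h7 := Real.log_le_log (Real.exp_pos _) h4
    rw [Real.log_exp] at h7
    rw [div_mul_eq_mul_div, le_div_iff₀ hlx]
    nlinarith
  have hlm : 0 ≤ Real.log m := Real.log_natCast_nonneg m
  exact slowTo_scale (by linarith) (by positivity) hc hD hlm (by linarith) hup hlow h3

end Pool.Agent.L7h55.GP
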