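import Pool.Agent.N666.PS.Blk
import Pool.Agent.L7h55.GP.Fej
import Pool.Agent.L7h55.GP.Log2

/-!
# The gcd recursion of MP_b5e119_nt near the values of generalised polynomials
-/

set_option autoImplicit false

namespace Pool.Agent.L7h55.GP

open Finset Filter Topology Pool.Agent.L7h79.GR
open Pool.Agent.H469R2.NK (e norm_e e_add conj_e e_zero)
open Pool.Agent.N666.PS (gp GH exp_main gp_size dyadic)

lemma one_le_prod (a κ : ℕ) (ha : 1 ≤ a) : ∀ c : List (ℕ × ℕ), (∀ p ∈ c, 1 ≤ p.1 ∧ 0 < p.2) →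
    1 ≤ (c.map (wt a κ)).prod := by
  intro c
  induction c with
  | nil => intro _; exact le_rfl
  | cons p c ih =>
    intro h
    rw [List.map_cons, List.prod_cons]
    have h1 := ih (fun q hq => h q (List.mem_cons_of_mem _ hq))
    obtain ⟨h2, h3⟩ := h p (List.mem_cons_self ..)
    have h4 : 1 ≤ wt a κ p := by
      unfold wt
      have e1 : 1 ≤ p.1 ^ a := Nat.one_le_pow _ _ h2
      have e2 : 1 ≤ p.2.divisors.card ^ κ := by
        apply Nat.one_le_pow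
        rw [card_pos]
        exact ⟨1, Nat.one_mem_divisors.2 h3.ne'⟩
      calc 1 = 1 * 1 * 1 := by norm_num
        _ ≤ a * p.1 ^ a * p.2.divisors.card ^ κ := by gcongr
    calc 1 = 1 * 1 := by norm_num
      _ ≤ _ := Nat.mul_le_mul h4 h1

/-- **the integer parts of a generalised polynomial in a dyadic block, shifted** -/
theorem ps_fam {F : Finset ℝ} {a : ℝ → ℝ} {c : ℝ} (h : GH F a c) : ∃ δ : ℝ, 0 < δ ∧ δ ≤ 1 ∧ ∃ N₀ : ℕ, ∀ N : ℕ,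
    N₀ ≤ N → ∀ b : ℤ, FamR ((range N).filter (fun i : ℕ => 0 ≤ ⌊gp F a 0 ((N : ℝ) + i)⌋ + b))
      (fun i : ℕ => (⌊gp F a 0 ((N : ℝ) + i)⌋ + b).toNat) N ((N : ℝ) ^ (1 - δ)) ⌊(N : ℝ) ^ δ⌋₊ 0 8 0 := by
  classical
  obtain ⟨η, C, hη, hC, hexp⟩ := exp_main h
  have hc := h.one
  obtain ⟨δ, hδ⟩ : ∃ δ : ℝ, δ = min 1 (min ((c - 1) / 3) (η / 2)) := ⟨_, rfl⟩
  have hδ0 : 0 < δ := by rw [hδ]; exact lt_min one_pos (lt_min (by linarith) (by linarith))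
  have hδ1 : δ ≤ 1 := by rw [hδ]; exact min_le_left _ _
  have hδ2 : 3 * δ ≤ c - 1 := by
    have : δ ≤ (c - 1) / 3 := by rw [hδ]; exact (min_le_right _ _).trans (min_le_left _ _)
    linarith
  have hδ3 : 2 * δ ≤ η := by
    have : δ ≤ η / 2 := by rw [hδ]; exact (min_le_right _ _).trans (min_le_right _ _)
    linarith
  have hnat := hexp.and ((tendsto_rpow_atTop hδ0).eventually_ge_atTop (C + 1))
  obtain ⟨X₀, hX₀⟩ := eventually_atTop.1 (hnat.and (eventually_ge_atTop (1 : ℝ)))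
  refine ⟨δ, hδ0, hδ1, ⌈X₀⌉₊, fun N hN b l hl hlc => ?_⟩
  have hNX : X₀ ≤ (N : ℝ) := (Nat.le_ceil X₀).trans (by exact_mod_cast hN)
  obtain ⟨⟨hexpN, hpow⟩, hN1⟩ := hX₀ N hNX
  have hN0 : (0 : ℝ) < N := by linarith
  obtain ⟨y, hy⟩ : ∃ y : ℕ → ℝ, y = fun i : ℕ => gp F a 0 ((N : ℝ) + i) := ⟨_, rfl⟩
  have hR0 : 0 < (N : ℝ) ^ (1 - δ) := by positivity
  -- no conditions
  rcases l with _ | ⟨p₀, l₀⟩
  · have h1 : (((range N).filter (fun i : ℕ => 0 ≤ ⌊gp F a 0 ((N : ℝ) + i)⌋ + b)).filter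
        (fun i : ℕ => ∀ p ∈ ([] : List (ℕ × ℕ)), (p.2 : ℤ) ∣ 2 * (((⌊gp F a 0 ((N : ℝ) + i)⌋ + b).toNat : ℕ) : ℤ) - p.1)).card
        ≤ N := by
      refine (card_filter_le _ _).trans ((card_filter_le _ _).trans ?_)
      rw [card_range]
    have h2 : (((((range N).filter (fun i : ℕ => 0 ≤ ⌊gp F a 0 ((N : ℝ) + i)⌋ + b)).filter
        (fun i : ℕ => ∀ p ∈ ([] : List (ℕ × ℕ)), (p.2 : ℤ) ∣
          2 * (((⌊gp F a 0 ((N : ℝ) + i)⌋ + b).toNat : ℕ) : ℤ) - p.1)).card : ℕ) : ℝ) ≤ N := Nat.cast_le.2 h1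
    have e1 : lc [] = 1 := rfl
    rw [e1]
    simp only [Nat.cast_one, div_one, List.map_nil, List.prod_nil, mul_one]
    refine le_trans ?_ (h2.trans (by linarith))
    exact le_of_eq (by congr)
  obtain ⟨l, hl'⟩ : ∃ l, l = p₀ :: l₀ := ⟨_, rfl⟩
  rw [← hl'] at hl hlc ⊢
  have hL0 : 0 < lc l := lc_pos' fun p hp => (hl p hp).2.2
  have hL0' : (0 : ℝ) < lc l := by exact_mod_cast hL0
  have hprod : 8 ≤ (l.map (wt 8 0)).prod := by
    rw [hl', List.map_cons, List.prod_cons]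
    have hp0 := hl p₀ (by rw [hl']; exact List.mem_cons_self ..)
    have e1 : 8 ≤ wt 8 0 p₀ := by
      unfold wt
      have : 1 ≤ p₀.1 ^ 8 := Nat.one_le_pow _ _ (by omega)
      rw [pow_zero, mul_one]
      omega
    have e2 := one_le_prod 8 0 (by norm_num) l₀ (fun p hp => by
      have := hl p (by rw [hl']; exact List.mem_cons_of_mem _ hp)
      exact ⟨by omega, this.2.2⟩)
    calc 8 = 8 * 1 := by norm_num
      _ ≤ _ := Nat.mul_le_mul e1 e2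
  have hprodR : (8 : ℝ) ≤ (((l.map (wt 8 0)).prod : ℕ) : ℝ) := by exact_mod_cast hprod
  -- the exponential sums
  obtain ⟨M, hM⟩ : ∃ M : ℝ, M = (N : ℝ) ^ (1 - δ) := ⟨_, rfl⟩
  have hexp2 : ∀ j : ℕ, 1 ≤ j → j < lc l → ‖∑ n ∈ range N, e ((j : ℝ) / (lc l : ℕ) * y n)‖ ≤ M := by
    intro j hj1 hj2
    have hj0 : (0 : ℝ) < j := by exact_mod_cast hj1
    have hjL : (j : ℝ) ≤ lc l := by exact_mod_cast hj2.le
    have h1 := hexpN N rfl ((j : ℝ) / (lc l : ℕ)) (by positivity) (by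
      rw [div_le_one hL0']; exact hjL) N le_rfl
    rw [hy]
    refine h1.trans ?_
    have hLδ : (lc l : ℝ) ≤ (N : ℝ) ^ δ := by
      have : ((⌊(N : ℝ) ^ δ⌋₊ : ℕ) : ℝ) ≤ (N : ℝ) ^ δ := Nat.floor_le (by positivity)
      refine le_trans ?_ this
      exact_mod_cast hlc
    have h2 : (N : ℝ) ^ (1 - c) / ((j : ℝ) / (lc l : ℕ)) ≤ (N : ℝ) ^ (1 - 2 * δ) := by
      have hj1' : (1 : ℝ) ≤ j := by exact_mod_cast hj1
      calc (N : ℝ) ^ (1 - c) / ((j : ℝ) / (lc l : ℕ)) = (N : ℝ) ^ (1 - c) * (lc l) / j := by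
            rw [div_div_eq_mul_div]
        _ ≤ (N : ℝ) ^ (1 - c) * (lc l) / 1 := by
            apply div_le_div_of_nonneg_left (by positivity) one_pos hj1'
        _ = (N : ℝ) ^ (1 - c) * (lc l) := div_one _
        _ ≤ (N : ℝ) ^ (1 - c) * (N : ℝ) ^ δ := by gcongr
        _ = (N : ℝ) ^ (1 - c + δ) := by rw [← Real.rpow_add hN0]
        _ ≤ (N : ℝ) ^ (1 - 2 * δ) := Real.rpow_le_rpow_of_exponent_le hN1 (by linarith)
    have h3 : (N : ℝ) ^ (1 - η) ≤ (N : ℝ) ^ (1 - 2 * δ) := Real.rpow_le_rpow_of_exponent_le hN1 (by linarith)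
    calc C * ((N : ℝ) ^ (1 - c) / ((j : ℝ) / (lc l : ℕ))) + (N : ℝ) ^ (1 - η) ≤
        C * (N : ℝ) ^ (1 - 2 * δ) + (N : ℝ) ^ (1 - 2 * δ) := add_le_add (mul_le_mul_of_nonneg_left h2 hC.le) h3
      _ = (C + 1) * (N : ℝ) ^ (1 - 2 * δ) := by ring
      _ ≤ (N : ℝ) ^ δ * (N : ℝ) ^ (1 - 2 * δ) := by gcongr
      _ = M := by
        rw [← Real.rpow_add hN0, hM]
        congr 1
        ring
  rcases (((range N).filter (fun i : ℕ => 0 ≤ ⌊gp F a 0 ((N : ℝ) + i)⌋ + b)).filter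
        (fun i : ℕ => ∀ p ∈ l, (p.2 : ℤ) ∣ 2 * (((⌊gp F a 0 ((N : ℝ) + i)⌋ + b).toNat : ℕ) : ℤ) - p.1)).eq_empty_or_nonempty
    with h0 | ⟨i₀, hi₀⟩
  · have h1 : (((((range N).filter (fun i : ℕ => 0 ≤ ⌊gp F a 0 ((N : ℝ) + i)⌋ + b)).filter
        (fun i : ℕ => ∀ p ∈ l, (p.2 : ℤ) ∣ 2 * (((⌊gp F a 0 ((N : ℝ) + i)⌋ + b).toNat : ℕ) : ℤ) - p.1)).card : ℕ) : ℝ) = 0 := by
      rw [h0]
      simp
    refine le_trans (le_of_eq (Eq.trans (by congr) h1)) (by positivity)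
  · rw [mem_filter, mem_filter] at hi₀
    obtain ⟨⟨hi1, hi2⟩, hi3⟩ := hi₀
    have hfc := floor_class (range N) y hL0 (by rw [hM]; exact hR0.le) hexp2 ⌊y i₀⌋
    rw [card_range] at hfc
    have hsub : (((range N).filter (fun i : ℕ => 0 ≤ ⌊gp F a 0 ((N : ℝ) + i)⌋ + b)).filter
        (fun i : ℕ => ∀ p ∈ l, (p.2 : ℤ) ∣ 2 * (((⌊gp F a 0 ((N : ℝ) + i)⌋ + b).toNat : ℕ) : ℤ) - p.1)) ⊆
        (range N).filter (fun n => ((lc l : ℕ) : ℤ) ∣ ⌊y n⌋ - ⌊y i₀⌋) := by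
      intro i hi
      rw [mem_filter, mem_filter] at hi
      rw [mem_filter]
      refine ⟨hi.1.1, ?_⟩
      have h1 := lc_dvd_sub_int (c := l) (fun p hp => (hl p hp).2.1) hi3 hi.2
      rw [Int.toNat_of_nonneg hi.1.2, Int.toNat_of_nonneg hi2] at h1
      rw [hy]
      have e1 : ⌊gp F a 0 ((N : ℝ) + i)⌋ + b - (⌊gp F a 0 ((N : ℝ) + i₀)⌋ + b) =
          ⌊gp F a 0 ((N : ℝ) + i)⌋ - ⌊gp F a 0 ((N : ℝ) + i₀)⌋ := by ring
      rwa [e1] at h1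
    have h2 : (((((range N).filter (fun i : ℕ => 0 ≤ ⌊gp F a 0 ((N : ℝ) + i)⌋ + b)).filter
        (fun i : ℕ => ∀ p ∈ l, (p.2 : ℤ) ∣ 2 * (((⌊gp F a 0 ((N : ℝ) + i)⌋ + b).toNat : ℕ) : ℤ) - p.1)).card : ℕ) : ℝ) ≤
        8 * ((N : ℝ) / lc l + M) := by
      refine le_trans (Nat.cast_le.2 (card_le_card hsub)) (le_trans (le_of_eq ?_) hfc)
      congr
    refine le_trans (le_of_eq (by congr)) (h2.trans ?_)
    rw [mul_comm, hM]
    exact mul_le_mul_of_nonneg_left hprodR (by positivity)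

end Pool.Agent.L7h55.GP
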