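import Pool.Agent.L7h55.GP.PS

/-!
# The gcd recursion of MP_b5e119_nt near the values of generalised polynomials: all `N` in windows
-/

set_option autoImplicit false

namespace Pool.Agent.L7h55.GP

open Finset Filter Topology Pool.Agent.L7h79.GR
open Pool.Agent.N666.PS (gp GH exp_main gp_size dyadic)

open Classical in
/-- **windows around the values of a generalised polynomial, dyadic blocks** -/
theorem ps_main {F : Finset ℝ} {a : ℝ → ℝ} {c : ℝ} (hg : GH F a c) : ∃ C : ℕ, ∀ h s N : ℕ, C ≤ h → h ≤ s →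
    3 * s ≤ h ^ 2 → 2 ^ (C * (h ^ 2 * s)) ≤ N →
    (((range N).filter (fun i : ℕ => ∃ m : ℕ, |(m : ℝ) - gp F a 0 ((N : ℝ) + i)| ≤ 2 ^ s ∧
      ¬ (N ≤ 2 * m ∧ 2 ^ h < Pool.Agent.N333.GR.g m ∧ ∀ n, 1 ≤ n → n ≤ 2 ^ h →
        (m : ℤ) - 2 ^ (C * (h * s)) ≤ Pool.Agent.N333.GR.a m n))).card : ℝ) ≤ (N : ℝ) / 2 ^ s := by
  obtain ⟨δ, hδ, hδ1, N₀, hfam⟩ := ps_fam hg
  obtain ⟨C₁, hC₁⟩ := main_famR 0 8 0
  obtain ⟨lo, hi, hlo, hhi, hsize⟩ := gp_size hg 0 (by omega)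
  have hc := hg.one
  have hpw : ∀ᶠ X : ℝ in atTop, 1 / lo ≤ X ^ (c - 1) :=
    (tendsto_rpow_atTop (by linarith : 0 < c - 1)).eventually_ge_atTop (1 / lo)
  obtain ⟨X₁, hX₁⟩ := eventually_atTop.1 ((hsize.and hpw).and (eventually_ge_atTop (1 : ℝ)))
  obtain ⟨C, hC⟩ : ∃ C : ℕ, C = ⌈(3 * C₁ + 3) / δ⌉₊ + 3 * C₁ + N₀ + ⌈X₁⌉₊ + 8 := ⟨_, rfl⟩
  refine ⟨C, fun h s N hCh hs hs2 hN => ?_⟩
  have hh1 : 1 ≤ h := by omega
  have hs1 : 8 ≤ s := by omega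
  have hCδ : (3 * C₁ + 3 : ℝ) ≤ C * δ := by
    have h1 : (3 * C₁ + 3 : ℝ) / δ ≤ C := by
      rw [hC]
      push_cast
      have := Nat.le_ceil ((3 * C₁ + 3 : ℝ) / δ)
      have h2 : (0 : ℝ) ≤ ⌈X₁⌉₊ := Nat.cast_nonneg _
      have h3 : (0 : ℝ) ≤ (N₀ : ℝ) := Nat.cast_nonneg _
      have h4 : (0 : ℝ) ≤ (C₁ : ℝ) := Nat.cast_nonneg _
      linarith
    rwa [div_le_iff₀ hδ] at h1
  have hhs : s ≤ h ^ 2 * s := Nat.le_mul_of_pos_left _ (by positivity)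
  have hhs2 : h * s ≤ h ^ 2 * s := by
    rw [pow_two, mul_assoc]
    exact Nat.le_mul_of_pos_left _ (by omega)
  have hCN : C < 2 ^ (C * (h ^ 2 * s)) := by
    calc C < 2 ^ C := Nat.lt_two_pow_self
      _ ≤ 2 ^ (C * (h ^ 2 * s)) := Nat.pow_le_pow_right (by norm_num) (Nat.le_mul_of_pos_right _ (by omega))
  have hNN₀ : N₀ ≤ N := by omega
  have hNX : X₁ ≤ (N : ℝ) := by
    refine (Nat.le_ceil X₁).trans ?_
    exact_mod_cast (by omega : ⌈X₁⌉₊ ≤ N)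
  obtain ⟨⟨hsz, hpwN⟩, hN1⟩ := hX₁ N hNX
  have hN0 : (0 : ℝ) < N := by linarith
  have hNR : (2 : ℝ) ^ (C * (h ^ 2 * s)) ≤ N := by exact_mod_cast hN
  -- the size of the values
  have hy : ∀ i : ℕ, i < N → (N : ℝ) ≤ gp F a 0 ((N : ℝ) + i) := by
    intro i hi
    have hiR : (i : ℝ) ≤ N := by exact_mod_cast hi.le
    have hi0 : (0 : ℝ) ≤ i := Nat.cast_nonneg i
    have h1 := (hsz ((N : ℝ) + i) ⟨by linarith, by linarith⟩).1
    refine le_trans ?_ h1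
    have e1 : (N : ℝ) ^ (c - ((0 : ℕ) : ℝ)) = (N : ℝ) ^ (c - 1) * N := by
      rw [← Real.rpow_add_one hN0.ne']
      congr 1
      push_cast
      ring
    rw [e1, ← mul_assoc]
    rw [div_le_iff₀ hlo] at hpwN
    nlinarith
  -- the power of `N`
  have hNδ : (2 : ℝ) ^ ((3 * C₁ + 3) * (h ^ 2 * s)) ≤ (N : ℝ) ^ δ := by
    have h1 : ((2 : ℝ) ^ (C * (h ^ 2 * s))) ^ δ ≤ (N : ℝ) ^ δ := Real.rpow_le_rpow (by positivity) hNR hδ.le
    refine le_trans ?_ h1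
    rw [← Real.rpow_natCast, ← Real.rpow_natCast, ← Real.rpow_mul (by norm_num)]
    apply Real.rpow_le_rpow_of_exponent_le (by norm_num)
    push_cast
    have h2 : (0 : ℝ) ≤ (h : ℝ) ^ 2 * s := by positivity
    calc (3 * (C₁ : ℝ) + 3) * ((h : ℝ) ^ 2 * s) ≤ (C * δ) * ((h : ℝ) ^ 2 * s) :=
          mul_le_mul_of_nonneg_right hCδ h2
      _ = C * ((h : ℝ) ^ 2 * s) * δ := by ring
  have hNδ' : (2 : ℝ) ^ (C₁ * (h ^ 2 * (3 * s))) ≤ (N : ℝ) ^ δ := by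
    refine (pow_le_pow_right₀ (by norm_num) ?_).trans hNδ
    have e1 : C₁ * (h ^ 2 * (3 * s)) = 3 * (C₁ * (h ^ 2 * s)) := by ring
    have e2 : (3 * C₁ + 3) * (h ^ 2 * s) = 3 * (C₁ * (h ^ 2 * s)) + 3 * (h ^ 2 * s) := by ring
    omega
  -- one shift
  obtain ⟨E, hE⟩ : ∃ E : ℤ → Finset ℕ, E = fun b => ((range N).filter
      (fun i : ℕ => 0 ≤ ⌊gp F a 0 ((N : ℝ) + i)⌋ + b)).filter
      (fun i : ℕ => 2 ^ (C₁ * (h * (3 * s))) ≤ (⌊gp F a 0 ((N : ℝ) + i)⌋ + b).toNat ∧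
        ¬ (2 ^ h < Pool.Agent.N333.GR.g (⌊gp F a 0 ((N : ℝ) + i)⌋ + b).toNat ∧ ∀ n, 1 ≤ n → n ≤ 2 ^ h →
        (((⌊gp F a 0 ((N : ℝ) + i)⌋ + b).toNat : ℕ) : ℤ) - 2 ^ (C₁ * (h * (3 * s))) ≤
          Pool.Agent.N333.GR.a (⌊gp F a 0 ((N : ℝ) + i)⌋ + b).toNat n)) := ⟨_, rfl⟩
  have hone : ∀ b : ℤ, ((E b).card : ℝ) ≤ (N : ℝ) / 2 ^ (3 * s) := by
    intro b
    have h1 := hC₁ _ _ _ _ _ (hfam N hNN₀ b) (Real.one_le_rpow hN1 (by linarith)) h (3 * s) (by omega)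
      (by omega) hs2 (by
        calc (N : ℝ) ^ (1 - δ) * 2 ^ (C₁ * (h ^ 2 * (3 * s))) ≤ (N : ℝ) ^ (1 - δ) * (N : ℝ) ^ δ := by gcongr
          _ = N := by
            rw [← Real.rpow_add hN0, sub_add_cancel, Real.rpow_one]) (by
        apply Nat.le_floor
        push_cast
        exact hNδ')
    rw [hE]
    exact h1
  -- the union
  have hsub : (range N).filter (fun i : ℕ => ∃ m : ℕ, |(m : ℝ) - gp F a 0 ((N : ℝ) + i)| ≤ 2 ^ s ∧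
      ¬ (N ≤ 2 * m ∧ 2 ^ h < Pool.Agent.N333.GR.g m ∧ ∀ n, 1 ≤ n → n ≤ 2 ^ h →
        (m : ℤ) - 2 ^ (C * (h * s)) ≤ Pool.Agent.N333.GR.a m n)) ⊆
      (Icc (-(2 ^ s + 1 : ℤ)) (2 ^ s + 1)).biUnion E := by
    intro i hi
    rw [mem_filter, mem_range] at hi
    obtain ⟨hi1, m, hm1, hm2⟩ := hi
    obtain ⟨y, hyd⟩ : ∃ y, y = gp F a 0 ((N : ℝ) + i) := ⟨_, rfl⟩
    rw [← hyd] at hm1
    have hyN : (N : ℝ) ≤ y := by rw [hyd]; exact hy i hi1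
    have f1 := Int.floor_le y
    have f2 := Int.lt_floor_add_one y
    have m1 := (abs_le.1 hm1).1
    have m2 := (abs_le.1 hm1).2
    rw [mem_biUnion]
    have em : ⌊y⌋ + ((m : ℤ) - ⌊y⌋) = (m : ℤ) := by ring
    have hpow1 : (2 : ℝ) ^ (C₁ * (h * (3 * s))) + 2 ^ s ≤ N ∧ (2 : ℝ) ^ s ≤ N / 2 := by
      have g1 : (2 : ℝ) ^ (C₁ * (h * (3 * s))) ≤ 2 ^ (C * (h ^ 2 * s) - 1) := by
        apply pow_le_pow_right₀ (by norm_num)
        have e1 : C₁ * (h * (3 * s)) = 3 * C₁ * (h * s) := by ring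
        have e2 : 3 * C₁ * (h * s) ≤ 3 * C₁ * (h ^ 2 * s) := Nat.mul_le_mul_left _ hhs2
        have e3 : (3 * C₁ + 1) * (h ^ 2 * s) ≤ C * (h ^ 2 * s) := Nat.mul_le_mul_right _ (by omega)
        have e4 : (3 * C₁ + 1) * (h ^ 2 * s) = 3 * C₁ * (h ^ 2 * s) + h ^ 2 * s := by ring
        omega
      have g2 : (2 : ℝ) ^ s ≤ 2 ^ (C * (h ^ 2 * s) - 1) := by
        apply pow_le_pow_right₀ (by norm_num)
        have e3 : 2 * (h ^ 2 * s) ≤ C * (h ^ 2 * s) := Nat.mul_le_mul_right _ (by omega)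
        omega
      have g3 : (2 : ℝ) ^ (C * (h ^ 2 * s)) = 2 * 2 ^ (C * (h ^ 2 * s) - 1) := by
        rw [← pow_succ']
        congr 1
        have : 1 ≤ C * (h ^ 2 * s) := Nat.mul_pos (by omega) (by omega)
        omega
      constructor
      · linarith
      · linarith
    refine ⟨(m : ℤ) - ⌊y⌋, ?_, ?_⟩
    · rw [mem_Icc]
      constructor
      · have : (-(2 ^ s + 1 : ℤ) : ℝ) ≤ (((m : ℤ) - ⌊y⌋ : ℤ) : ℝ) := by push_cast; linarith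
        exact_mod_cast this
      · have : (((m : ℤ) - ⌊y⌋ : ℤ) : ℝ) ≤ ((2 ^ s + 1 : ℤ) : ℝ) := by push_cast; linarith
        exact_mod_cast this
    · rw [hE]
      simp only
      rw [mem_filter, mem_filter, mem_range, ← hyd, em, Int.toNat_natCast]
      refine ⟨⟨hi1, Int.natCast_nonneg m⟩, ?_, fun hcon => hm2 ⟨?_, hcon.1, fun n hn1 hn2 => ?_⟩⟩
      · have : ((2 : ℝ) ^ (C₁ * (h * (3 * s)))) ≤ m := by linarith [hpow1.1]
        exact_mod_cast this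
      · have : (N : ℝ) ≤ 2 * m := by linarith [hpow1.2]
        exact_mod_cast this
      · have h1 := hcon.2 n hn1 hn2
        have h2 : (2 : ℤ) ^ (C₁ * (h * (3 * s))) ≤ 2 ^ (C * (h * s)) := by
          apply pow_le_pow_right₀ (by norm_num)
          have e1 : C₁ * (h * (3 * s)) = 3 * C₁ * (h * s) := by ring
          rw [e1]
          exact Nat.mul_le_mul_right _ (by omega)
        linarith
  have hcard := (card_le_card hsub).trans card_biUnion_le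
  have hcard' : (((range N).filter (fun i : ℕ => ∃ m : ℕ, |(m : ℝ) - gp F a 0 ((N : ℝ) + i)| ≤ 2 ^ s ∧
      ¬ (N ≤ 2 * m ∧ 2 ^ h < Pool.Agent.N333.GR.g m ∧ ∀ n, 1 ≤ n → n ≤ 2 ^ h →
        (m : ℤ) - 2 ^ (C * (h * s)) ≤ Pool.Agent.N333.GR.a m n))).card : ℝ) ≤
      ∑ b ∈ Icc (-(2 ^ s + 1 : ℤ)) (2 ^ s + 1), ((E b).card : ℝ) := by exact_mod_cast hcard
  refine hcard'.trans ?_
  calc ∑ b ∈ Icc (-(2 ^ s + 1 : ℤ)) (2 ^ s + 1), ((E b).card : ℝ) ≤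
      ∑ b ∈ Icc (-(2 ^ s + 1 : ℤ)) (2 ^ s + 1), (N : ℝ) / 2 ^ (3 * s) := sum_le_sum fun b _ => hone b
    _ = ((Icc (-(2 ^ s + 1 : ℤ)) (2 ^ s + 1)).card : ℝ) * ((N : ℝ) / 2 ^ (3 * s)) := by
        rw [sum_const, nsmul_eq_mul]
    _ ≤ 2 ^ (2 * s) * ((N : ℝ) / 2 ^ (3 * s)) := by
        apply mul_le_mul_of_nonneg_right _ (by positivity)
        rw [Int.card_Icc]
        have h1 : (((2 : ℤ) ^ s + 1 + 1 - -(2 ^ s + 1)).toNat : ℤ) ≤ ((2 ^ (2 * s) : ℕ) : ℤ) := by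
          have e1 : (2 : ℤ) ^ s + 1 + 1 - -(2 ^ s + 1) = 2 * 2 ^ s + 3 := by ring
          rw [e1, Int.toNat_of_nonneg (by positivity)]
          push_cast
          have e2 : (2 : ℤ) ^ (2 * s) = 2 ^ s * 2 ^ s := by rw [← pow_add]; congr 1; ring
          rw [e2]
          have e3 : (8 : ℤ) ≤ 2 ^ s := by
            calc (8 : ℤ) = 2 ^ 3 := by norm_num
              _ ≤ 2 ^ s := pow_le_pow_right₀ (by norm_num) (by omega)
          nlinarith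
        have h2 : ((2 : ℤ) ^ s + 1 + 1 - -(2 ^ s + 1)).toNat ≤ 2 ^ (2 * s) := by exact_mod_cast h1
        exact_mod_cast h2
    _ = (N : ℝ) / 2 ^ s := by
        rw [show 3 * s = 2 * s + s by ring, pow_add]
        field_simp

end Pool.Agent.L7h55.GP
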