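import Mathlib

/-!
# Roots of integer polynomials modulo integers

`cnt L P` is the number of `x < L` with `P x`. The number of the roots of `Q` modulo `d` is at most
`τ(d) ^ κ |R| ^ 3`, if the degree is at most `2 ^ κ` and `R ≠ 0` is a multiple of all the common divisors of
`Q x` and `Q' x`.
-/

set_option autoImplicit false

namespace Pool.Agent.L7h55.GP

open Finset Polynomial

open Classical in
/-- the number of the `x < L` with `P x` -/
noncomputable def cnt (L : ℕ) (P : ℤ → Prop) : ℕ := ((range L).filter (fun x : ℕ => P (x : ℤ))).card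

lemma cnt_le (L : ℕ) (P : ℤ → Prop) : cnt L P ≤ L := by
  classical
  unfold cnt
  refine (card_filter_le _ _).trans ?_
  rw [card_range]

/-- `P` has the period `L` -/
def Per (L : ℕ) (P : ℤ → Prop) : Prop := ∀ x y : ℤ, (L : ℤ) ∣ x - y → P x → P y

lemma Per.mod {L : ℕ} {P : ℤ → Prop} (h : Per L P) {x : ℕ} (hx : P x) : P ((x % L : ℕ) : ℤ) := by
  refine h _ _ ?_ hx
  have e : (x : ℤ) - ((x % L : ℕ) : ℤ) = L * ((x / L : ℕ) : ℤ) := by
    have := Nat.div_add_mod x L
    have e2 : ((L * (x / L) + x % L : ℕ) : ℤ) = (x : ℤ) := by rw [this]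
    push_cast at e2 ⊢
    linarith
  rw [e]
  exact dvd_mul_right _ _

/-- the Chinese remainder theorem -/
theorem cnt_lcm {L₁ L₂ : ℕ} (h₁ : 0 < L₁) (h₂ : 0 < L₂) {P₁ P₂ : ℤ → Prop} (hP₁ : Per L₁ P₁) (hP₂ : Per L₂ P₂) :
    cnt (Nat.lcm L₁ L₂) (fun x => P₁ x ∧ P₂ x) ≤ cnt L₁ P₁ * cnt L₂ P₂ := by
  classical
  unfold cnt
  rw [← card_product]
  refine card_le_card_of_injOn (fun x => (x % L₁, x % L₂)) ?_ ?_
  · intro x hx
    simp only [coe_filter, mem_range, Set.mem_ofPred_eq] at hx
    simp only [coe_product, coe_filter, mem_range, Set.mem_prod, Set.mem_ofPred_eq]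
    exact ⟨⟨Nat.mod_lt _ h₁, hP₁.mod hx.2.1⟩, Nat.mod_lt _ h₂, hP₂.mod hx.2.2⟩
  · intro x hx y hy hxy
    simp only [coe_filter, mem_range, Set.mem_ofPred_eq] at hx hy
    simp only [Prod.mk.injEq] at hxy
    obtain ⟨e1, e2⟩ := hxy
    have h3 : x ≡ y [MOD Nat.lcm L₁ L₂] := by
      rcases le_total x y with hle | hle
      · rw [Nat.modEq_iff_dvd' hle]
        exact Nat.lcm_dvd ((Nat.modEq_iff_dvd' hle).1 e1) ((Nat.modEq_iff_dvd' hle).1 e2)
      · apply Nat.ModEq.symm
        rw [Nat.modEq_iff_dvd' hle]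
        exact Nat.lcm_dvd ((Nat.modEq_iff_dvd' hle).1 e1.symm) ((Nat.modEq_iff_dvd' hle).1 e2.symm)
    have h4 : x % Nat.lcm L₁ L₂ = y % Nat.lcm L₁ L₂ := h3
    rwa [Nat.mod_eq_of_lt hx.1, Nat.mod_eq_of_lt hy.1] at h4

open Classical in
/-- the number in an interval -/
theorem card_interval {L : ℕ} (hL : 0 < L) {P : ℤ → Prop} (hP : Per L P) (A : ℤ) (K : ℕ) :
    (((Ioc A (A + K)).filter P).card : ℝ) ≤ ((K : ℝ) / L + 1) * (cnt L P : ℝ) := by
  have hL' : (0 : ℤ) < L := by exact_mod_cast hL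
  have h1 : ((Ioc A (A + K)).filter P).card ≤ (range (K / L + 1)).card * cnt L P := by
    unfold cnt
    rw [← card_product]
    refine card_le_card_of_injOn (fun k => (((k - A - 1) / L).toNat, (k % L).toNat)) ?_ ?_
    · intro k hk
      simp only [coe_filter, mem_Ioc, Set.mem_ofPred_eq] at hk
      simp only [coe_product, coe_range, coe_filter, mem_range, Set.mem_prod, Set.mem_ofPred_eq, Set.mem_Iio]
      obtain ⟨⟨k1, k2⟩, k3⟩ := hk
      have m1 := Int.emod_nonneg k hL'.ne'
      have m2 := Int.emod_lt_of_pos k hL'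
      refine ⟨?_, ?_, ?_⟩
      · have q1 : 0 ≤ (k - A - 1) / (L : ℤ) := Int.ediv_nonneg (by omega) hL'.le
        have q2 : (k - A - 1) / (L : ℤ) ≤ (K : ℤ) / L := Int.ediv_le_ediv hL' (by omega)
        have q3 : ((K / L : ℕ) : ℤ) = (K : ℤ) / L := by push_cast; rfl
        omega
      · omega
      · rw [Int.toNat_of_nonneg m1]
        refine hP _ _ ?_ k3
        rw [Int.emod_def]
        have : k - (k - (L : ℤ) * (k / L)) = L * (k / L) := by ring
        rw [this]
        exact dvd_mul_right _ _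
    · intro k hk k' hk' he
      simp only [coe_filter, mem_Ioc, Set.mem_ofPred_eq] at hk hk'
      simp only [Prod.mk.injEq] at he
      obtain ⟨e1, e2⟩ := he
      have m1 := Int.emod_nonneg k hL'.ne'
      have m1' := Int.emod_nonneg k' hL'.ne'
      have q1 : 0 ≤ (k - A - 1) / (L : ℤ) := Int.ediv_nonneg (by omega) hL'.le
      have q1' : 0 ≤ (k' - A - 1) / (L : ℤ) := Int.ediv_nonneg (by omega) hL'.le
      have f1 : (k - A - 1) / (L : ℤ) = (k' - A - 1) / (L : ℤ) := by
        rw [← Int.toNat_of_nonneg q1, ← Int.toNat_of_nonneg q1', e1]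
      have f2 : k % (L : ℤ) = k' % (L : ℤ) := by
        rw [← Int.toNat_of_nonneg m1, ← Int.toNat_of_nonneg m1', e2]
      have g1 : (L : ℤ) ∣ k - k' := Int.ModEq.dvd (show k' ≡ k [ZMOD L] from f2.symm)
      have g2 := Int.emod_add_mul_ediv (k - A - 1) L
      have g3 := Int.emod_add_mul_ediv (k' - A - 1) L
      have g4 := Int.emod_nonneg (k - A - 1) hL'.ne'
      have g5 := Int.emod_lt_of_pos (k - A - 1) hL'
      have g6 := Int.emod_nonneg (k' - A - 1) hL'.ne'
      have g7 := Int.emod_lt_of_pos (k' - A - 1) hL'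
      rw [f1] at g2
      have g8 : |k - k'| < L := by
        rw [abs_lt]
        constructor <;> omega
      have g9 := Int.eq_zero_of_abs_lt_dvd g1 g8
      omega
  rw [card_range] at h1
  have h2 : ((K / L : ℕ) : ℝ) ≤ (K : ℝ) / L := Nat.cast_div_le
  calc (((Ioc A (A + K)).filter P).card : ℝ) ≤ (((K / L + 1) * cnt L P : ℕ) : ℝ) := by exact_mod_cast h1
    _ = (((K / L : ℕ) : ℝ) + 1) * (cnt L P : ℝ) := by push_cast; ring
    _ ≤ _ := by gcongr

/-- the conditions `d ∣ Q x` have the period `d` -/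
lemma per_poly (Q : ℤ[X]) (d : ℕ) : Per d (fun x => (d : ℤ) ∣ Q.eval x) := by
  intro x y h hx
  have h1 := Polynomial.sub_dvd_eval_sub x y Q
  have h2 : (d : ℤ) ∣ Q.eval x - Q.eval y := h.trans h1
  have h3 := dvd_sub hx h2
  rwa [sub_sub_cancel] at h3

/-- the number of the roots modulo `d` -/
noncomputable def rho (Q : ℤ[X]) (d : ℕ) : ℕ := cnt d (fun x => (d : ℤ) ∣ Q.eval x)

lemma pow_dvd_left {p a δ : ℕ} (hp : p.Prime) {h z : ℤ} (h1 : (p : ℤ) ^ a ∣ h * z) (h2 : ¬ (p : ℤ) ^ (δ + 1) ∣ z) :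
    (p : ℤ) ^ (a - δ) ∣ h := by
  have hpp : Prime (p : ℤ) := Nat.prime_iff_prime_int.1 hp
  induction δ generalizing z a with
  | zero =>
    rw [zero_add, pow_one] at h2
    rw [Nat.sub_zero]
    exact (hpp.pow_dvd_of_dvd_mul_right a h2 h1)
  | succ δ ih =>
    by_cases h3 : (p : ℤ) ∣ z
    · obtain ⟨w, rfl⟩ := h3
      rcases Nat.eq_zero_or_pos a with ha | ha
      · subst ha
        simp
      obtain ⟨b, rfl⟩ : ∃ b, a = b + 1 := ⟨a - 1, by omega⟩
      have h4 : (p : ℤ) ^ b ∣ h * w := by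
        have e : h * ((p : ℤ) * w) = p * (h * w) := by ring
        rw [e, pow_succ, mul_comm ((p : ℤ) ^ b)] at h1
        exact Int.dvd_of_mul_dvd_mul_left hpp.ne_zero h1
      have h5 : ¬ (p : ℤ) ^ (δ + 1) ∣ w := by
        intro h6
        apply h2
        rw [pow_succ, mul_comm]
        exact mul_dvd_mul_left _ h6
      have h6 := ih h4 h5
      rwa [show b + 1 - (δ + 1) = b - δ by omega]
    · have h4 := hpp.pow_dvd_of_dvd_mul_right a h3 h1
      exact (pow_dvd_pow _ (Nat.sub_le _ _)).trans h4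

/-- roots which are close to each other are very close to each other -/
theorem close {Q : ℤ[X]} {R : ℤ} (hR : ∀ x m : ℤ, m ∣ Q.eval x → m ∣ (derivative Q).eval x → m ∣ R)
    {p a δ : ℕ} (hp : p.Prime) (hδ : ¬ (p : ℤ) ^ (δ + 1) ∣ R) (ha : δ + 1 ≤ a) {x y : ℤ}
    (hx : (p : ℤ) ^ a ∣ Q.eval x) (hy : (p : ℤ) ^ a ∣ Q.eval y) (hxy : (p : ℤ) ^ (δ + 1) ∣ y - x) :
    (p : ℤ) ^ (a - δ) ∣ y - x := by
  obtain ⟨k, hk⟩ := Polynomial.binomExpansion Q x (y - x)
  rw [add_sub_cancel] at hk
  have h1 : (p : ℤ) ^ a ∣ (y - x) * (Q.derivative.eval x + k * (y - x)) := by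
    have e : (y - x) * (Q.derivative.eval x + k * (y - x)) = Q.eval y - Q.eval x := by
      rw [hk]; ring
    rw [e]
    exact dvd_sub hy hx
  refine pow_dvd_left hp h1 ?_
  intro h2
  apply hδ
  refine hR x _ ((pow_dvd_pow _ ha).trans hx) ?_
  have h3 := dvd_sub h2 (hxy.mul_left k)
  rwa [add_sub_cancel_right] at h3

/-- the number of the roots modulo a prime -/
theorem rho_prime {Q : ℤ[X]} {R : ℤ} (hR : ∀ x m : ℤ, m ∣ Q.eval x → m ∣ (derivative Q).eval x → m ∣ R)
    {p : ℕ} (hp : p.Prime) (hδ : ¬ (p : ℤ) ∣ R) : rho Q p ≤ Q.natDegree := by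
  classical
  have : Fact p.Prime := ⟨hp⟩
  obtain ⟨F, hF⟩ : ∃ F : (ZMod p)[X], F = Q.map (Int.castRingHom (ZMod p)) := ⟨_, rfl⟩
  have hF0 : F ≠ 0 := by
    intro h0
    apply hδ
    refine hR 0 _ ?_ ?_
    · rw [← ZMod.intCast_zmod_eq_zero_iff_dvd]
      have : F.eval 0 = 0 := by rw [h0]; simp
      rw [hF] at this
      have h2 := Polynomial.eval_intCast_map (Int.castRingHom (ZMod p)) Q 0
      simp only [Int.cast_zero, eq_intCast] at h2
      rw [h2] at this
      exact this
    · rw [← ZMod.intCast_zmod_eq_zero_iff_dvd]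
      have : (derivative F).eval 0 = 0 := by rw [h0]; simp
      rw [hF, Polynomial.derivative_map] at this
      have h2 := Polynomial.eval_intCast_map (Int.castRingHom (ZMod p)) (derivative Q) 0
      simp only [Int.cast_zero, eq_intCast] at h2
      rw [h2] at this
      exact this
  have h1 : rho Q p ≤ F.roots.toFinset.card := by
    unfold rho cnt
    refine card_le_card_of_injOn (fun x : ℕ => (x : ZMod p)) ?_ ?_
    · intro x hx
      simp only [coe_filter, mem_range, Set.mem_ofPred_eq] at hx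
      simp only [mem_coe, Multiset.mem_toFinset]
      rw [Polynomial.mem_roots hF0, Polynomial.IsRoot, hF]
      have h2 := Polynomial.eval_intCast_map (Int.castRingHom (ZMod p)) Q (x : ℤ)
      simp only [Int.cast_natCast, eq_intCast] at h2
      rw [h2, ZMod.intCast_zmod_eq_zero_iff_dvd]
      exact hx.2
    · intro x hx y hy hxy
      simp only [coe_filter, mem_range, Set.mem_ofPred_eq] at hx hy
      have h2 := (ZMod.natCast_eq_natCast_iff' x y p).1 hxy
      rwa [Nat.mod_eq_of_lt hx.1, Nat.mod_eq_of_lt hy.1] at h2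
  refine h1.trans ((Multiset.toFinset_card_le _).trans ((Polynomial.card_roots' F).trans ?_))
  rw [hF]
  exact Polynomial.natDegree_map_le

/-- the number of the roots modulo a prime power -/
theorem rho_pow {Q : ℤ[X]} {R : ℤ} (hR0 : R ≠ 0)
    (hR : ∀ x m : ℤ, m ∣ Q.eval x → m ∣ (derivative Q).eval x → m ∣ R)
    {D p a : ℕ} (hp : p.Prime) (ha : 1 ≤ a) (hD : Q.natDegree ≤ D) (hD1 : 1 ≤ D) :
    rho Q (p ^ a) ≤ D * (p ^ (R.natAbs.factorization p)) ^ 3 := by
  classical
  obtain ⟨δ, hδ⟩ : ∃ δ, δ = R.natAbs.factorization p := ⟨_, rfl⟩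
  rw [← hδ]
  have hp1 : 1 ≤ p := hp.one_le
  have hnd : ¬ (p : ℤ) ^ (δ + 1) ∣ R := by
    intro h
    have h2 : p ^ (δ + 1) ∣ R.natAbs := by
      rw [← Int.natCast_dvd]
      exact_mod_cast h
    have h3 := (hp.pow_dvd_iff_le_factorization (Int.natAbs_ne_zero.2 hR0)).1 h2
    omega
  have htriv : rho Q (p ^ a) ≤ p ^ a := cnt_le _ _
  rcases Nat.lt_or_ge δ a with hda | hda
  · -- the map to the classes modulo `p ^ (δ + 1)`
    have h1 : rho Q (p ^ a) ≤ rho Q (p ^ (δ + 1)) * p ^ δ := by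
      have h2 : rho Q (p ^ (δ + 1)) * p ^ δ =
          (((range (p ^ (δ + 1))).filter (fun x : ℕ => ((p ^ (δ + 1) : ℕ) : ℤ) ∣ Q.eval (x : ℤ))) ×ˢ
            (range (p ^ δ))).card := by
        rw [card_product, card_range]
        unfold rho cnt
        congr
      rw [h2]
      unfold rho cnt
      refine card_le_card_of_injOn (fun x => (x % p ^ (δ + 1), x / p ^ (a - δ))) ?_ ?_
      · intro x hx
        simp only [coe_filter, mem_range, Set.mem_ofPred_eq] at hx
        simp only [coe_product, coe_filter, coe_range, mem_range, Set.mem_prod, Set.mem_ofPred_eq, Set.mem_Iio]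
        refine ⟨⟨Nat.mod_lt _ (by positivity), ?_⟩, ?_⟩
        · apply (per_poly Q (p ^ (δ + 1))).mod
          refine dvd_trans ?_ hx.2
          exact_mod_cast pow_dvd_pow p (by omega)
        · apply Nat.div_lt_of_lt_mul
          rw [← pow_add, show a - δ + δ = a by omega]
          exact hx.1
      · intro x hx y hy hxy
        simp only [coe_filter, mem_range, Set.mem_ofPred_eq] at hx hy
        simp only [Prod.mk.injEq] at hxy
        obtain ⟨e1, e2⟩ := hxy
        have h3 : (p : ℤ) ^ (δ + 1) ∣ (y : ℤ) - x := by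
          have := (Nat.modEq_iff_dvd).1 (show x ≡ y [MOD p ^ (δ + 1)] from e1)
          exact_mod_cast this
        have h4 := close hR hp hnd (show δ + 1 ≤ a by omega) (x := x) (y := y) (by exact_mod_cast hx.2)
          (by exact_mod_cast hy.2) h3
        have h5 : x ≡ y [MOD p ^ (a - δ)] := (Nat.modEq_iff_dvd).2 (by exact_mod_cast h4)
        have h6 : x % p ^ (a - δ) = y % p ^ (a - δ) := h5
        rw [← Nat.div_add_mod x (p ^ (a - δ)), ← Nat.div_add_mod y (p ^ (a - δ)), e2, h6]
    rcases Nat.eq_zero_or_pos δ with hδ0 | hδ0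
    · rw [hδ0] at h1 hnd ⊢
      simp only [zero_add, pow_one, pow_zero, mul_one, one_pow] at h1 hnd ⊢
      exact h1.trans ((rho_prime hR hp hnd).trans hD)
    · have h2 : rho Q (p ^ (δ + 1)) ≤ p ^ (δ + 1) := cnt_le _ _
      calc rho Q (p ^ a) ≤ p ^ (δ + 1) * p ^ δ := h1.trans (Nat.mul_le_mul_right _ h2)
        _ = p ^ (2 * δ + 1) := by rw [← pow_add]; congr 1; ring
        _ ≤ p ^ (δ * 3) := Nat.pow_le_pow_right hp1 (by omega)
        _ = (p ^ δ) ^ 3 := by rw [pow_mul]
        _ ≤ D * (p ^ δ) ^ 3 := Nat.le_mul_of_pos_left _ (by omega)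
  · calc rho Q (p ^ a) ≤ p ^ a := htriv
      _ ≤ p ^ (δ * 3) := Nat.pow_le_pow_right hp1 (by omega)
      _ = (p ^ δ) ^ 3 := by rw [pow_mul]
      _ ≤ D * (p ^ δ) ^ 3 := Nat.le_mul_of_pos_left _ (by omega)

/-- the number of the roots modulo `d` -/
theorem rho_le {Q : ℤ[X]} {R : ℤ} (hR0 : R ≠ 0)
    (hR : ∀ x m : ℤ, m ∣ Q.eval x → m ∣ (derivative Q).eval x → m ∣ R)
    {κ : ℕ} (hD : Q.natDegree ≤ 2 ^ κ) (d : ℕ) (hd : 0 < d) :
    rho Q d ≤ d.divisors.card ^ κ * R.natAbs ^ 3 := by
  classical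
  have h1 : ∀ d : ℕ, 0 < d → rho Q d ≤ d.divisors.card ^ κ *
      (∏ p ∈ d.primeFactors, p ^ (R.natAbs.factorization p)) ^ 3 := by
    intro d
    induction d using Nat.recOnPosPrimePosCoprime with
    | prime_pow p n hp hn =>
      intro _
      have h2 := rho_pow hR0 hR hp hn hD Nat.one_le_two_pow
      rw [Nat.primeFactors_prime_pow hn.ne' hp, prod_singleton]
      refine h2.trans (Nat.mul_le_mul_right _ ?_)
      apply Nat.pow_le_pow_left
      rw [Nat.divisors_prime_pow hp, card_map, card_range]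
      omega
    | zero => intro h; omega
    | one =>
      intro _
      simp only [Nat.divisors_one, card_singleton, one_pow, Nat.primeFactors_one, prod_empty, mul_one]
      exact cnt_le _ _
    | coprime x y hx hy hxy ihx ihy =>
      intro _
      have h2 := ihx (by omega)
      have h3 := ihy (by omega)
      have h4 : rho Q (x * y) ≤ rho Q x * rho Q y := by
        have h5 := cnt_lcm (L₁ := x) (L₂ := y) (by omega) (by omega) (per_poly Q x) (per_poly Q y)
        rw [hxy.lcm_eq_mul] at h5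
        refine le_trans (le_of_eq ?_) h5
        unfold rho
        congr 1
        funext z
        rw [eq_iff_iff]
        constructor
        · intro h6
          push_cast at h6
          exact ⟨(dvd_mul_right _ _).trans h6, (dvd_mul_left _ _).trans h6⟩
        · rintro ⟨h6, h7⟩
          push_cast
          exact (Nat.isCoprime_iff_coprime.2 hxy).mul_dvd h6 h7
      refine h4.trans ((Nat.mul_le_mul h2 h3).trans (le_of_eq ?_))
      rw [hxy.card_divisors_mul, Nat.Coprime.primeFactors_mul hxy, prod_union hxy.disjoint_primeFactors]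
      ring
  refine (h1 d hd).trans (Nat.mul_le_mul_left _ (Nat.pow_le_pow_left ?_ 3))
  obtain ⟨r, hr⟩ : ∃ r, r = R.natAbs := ⟨_, rfl⟩
  rw [← hr]
  have hr0 : r ≠ 0 := by rw [hr]; exact Int.natAbs_ne_zero.2 hR0
  calc ∏ p ∈ d.primeFactors, p ^ (r.factorization p) =
      ∏ p ∈ d.primeFactors.filter (fun p => p ∈ r.primeFactors), p ^ (r.factorization p) := by
        rw [prod_filter]
        refine prod_congr rfl fun p _ => ?_
        split_ifs with h
        · rfl
        · have : r.factorization p = 0 := by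
            rw [← Nat.support_factorization] at h
            exact Finsupp.notMem_support_iff.1 h
          rw [this, pow_zero]
    _ ≤ ∏ p ∈ r.primeFactors, p ^ (r.factorization p) := by
        refine prod_le_prod_of_subset_of_one_le' ?_ ?_
        · intro p hp
          exact (mem_filter.1 hp).2
        · intro p hp _
          exact Nat.one_le_pow _ _ (Nat.prime_of_mem_primeFactors hp).pos
    _ = r := by
        have := Nat.prod_factorization_pow_eq_self hr0
        rw [Finsupp.prod, Nat.support_factorization] at this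
        exact this

end Pool.Agent.L7h55.GP
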