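import Pool.Agent.N333.GR.Run
import Pool.Agent.N333.GR.Sub

/-!
# The gcd recursion of MP_b5e119_nt: bad runs after the time `n₀`

As in `Pool.Agent.N333.GR.Run`, with the bad runs restricted to times `≥ n₀`. In the first `n` steps the sum is at
most `3 ^ n`, and so the times with a large sum are large.
-/

set_option autoImplicit false

namespace Pool.Agent.L7h55.GP

open Finset Pool.Agent.N333.GR Pool.Agent.N333.GR.Run

open Classical in
/-- a bad run (as in `Pool.Agent.N333.GR.BadRun`) with times `≥ n₀` -/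
def BadRun' (n₀ G Y T0 Ts D r N : ℕ) : Prop :=
  ∃ n t d : ℕ → ℕ,
    (∀ i, i < r → n i ≤ G ∧ n i % 2 = 1 ∧ T0 ≤ t i ∧ t i ≤ Ts ∧ D ≤ d i ∧ d i ∣ t i ∧
      (d i : ℤ) ∣ 2 * (N : ℤ) - n i ∧ n₀ ≤ n i) ∧
    (∀ i, i + 1 < r → n i < n (i + 1) ∧ t i + 2 * d i ≤ t (i + 1) ∧
      t (i + 1) ≤ t i + 2 * d i + 2 * G * d (i + 1)) ∧
    r ≤ 2 * ((range (r - 1)).filter
      (fun i => Y * (t (i + 1) - (t i + 2 * d i)) < d (i + 1))).card

theorem badRun_mono' {n₀ G G' Y T0 Ts D r N : ℕ} (hG : G' ≤ G) (h : BadRun' n₀ G' Y T0 Ts D r N) :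
    BadRun' n₀ G Y T0 Ts D r N := by
  obtain ⟨n, t, d, h1, h2, h3⟩ := h
  refine ⟨n, t, d, ?_, ?_, h3⟩
  · intro i hi
    obtain ⟨a1, a2⟩ := h1 i hi
    exact ⟨a1.trans hG, a2⟩
  · intro i hi
    obtain ⟨a1, a2, a3⟩ := h2 i hi
    refine ⟨a1, a2, a3.trans ?_⟩
    gcongr

/-- in the first steps the sum is small -/
theorem T_le {N G : ℕ} {T j : ℕ → ℕ} (hW : Walk N G T j) : ∀ n, 2 ≤ n → n ≤ G + 1 → T n ≤ 3 ^ n := by
  intro n hn
  induction n, hn using Nat.le_induction with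
  | base => intro _; rw [hW.start]; norm_num
  | succ n hn ih =>
    intro h
    have h1 := ih (by omega)
    have h2 := hW.step n hn (by omega)
    have h3 : n < 3 ^ n := Nat.lt_pow_self (by norm_num)
    have e : 3 ^ (n + 1) = 3 * 3 ^ n := by ring
    rcases Nat.mod_two_eq_zero_or_one n with h4 | h4
    · have h5 := hW.even n hn (by omega) h4
      rw [e]
      omega
    · have h5 := hW.dvdT n hn (by omega) h4
      have h6 : 2 ≤ T n := by
        have := T_mono hW (p := 2) (x := n) le_rfl hn (by omega)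
        rw [hW.start] at this
        exact this
      have h7 := Nat.le_of_dvd (by omega) h5
      rw [e]
      omega

/-- the times with a large sum are large -/
theorem late {N G : ℕ} {T j : ℕ → ℕ} (hW : Walk N G T j) {n₀ T0 : ℕ} (hT0 : 3 ^ n₀ < T0) :
    ∀ n, 2 ≤ n → n ≤ G → T0 ≤ T n → n₀ ≤ n := by
  intro n hn hG h
  by_contra hcon
  push Not at hcon
  have h1 := T_le hW n hn (by omega)
  have h2 : 3 ^ n ≤ 3 ^ n₀ := Nat.pow_le_pow_right (by norm_num) hcon.le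
  omega

open Classical in
theorem step (hDBL : S_DBL) {n₀ N G Y T0 Ts r D D' : ℕ} {T j : ℕ → ℕ} (hW : Walk N G T j)
    (hn₀ : ∀ n, 2 ≤ n → n ≤ G → T0 ≤ T n → n₀ ≤ n)
    (hTs : ∀ n, 2 ≤ n → n ≤ G → T n ≤ Ts) (hr : 2 ≤ r) (hY : 1 ≤ Y) (hG : 1 ≤ G) (hD' : G < D')
    (hDD : 2 * G * Y * D' ≤ D) (hB : ¬ BadRun' n₀ G Y T0 Ts D r N) (hrJ : r ≤ (J G T0 D T j).card) :
    J G T0 D T j ⊆ J G T0 D' T j ∧ 9 * (J G T0 D T j).card ≤ 8 * (J G T0 D' T j).card := by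
  have hDle : D' ≤ D := by
    have h1 : 1 ≤ 2 * G * Y := by
      have : 0 < 2 * G * Y := by positivity
      omega
    calc D' = 1 * D' := (one_mul _).symm
      _ ≤ (2 * G * Y) * D' := Nat.mul_le_mul_right _ h1
      _ ≤ D := hDD
  have hsub : J G T0 D T j ⊆ J G T0 D' T j := by
    intro x hx
    unfold J at hx ⊢
    rw [mem_filter] at hx ⊢
    exact ⟨hx.1, hx.2.1, hDle.trans hx.2.2⟩
  refine ⟨hsub, ?_⟩
  have hJm : ∀ (D x : ℕ), x ∈ J G T0 D T j ↔ (2 ≤ x ∧ x ≤ G) ∧ T0 ≤ T x ∧ D ≤ j x := by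
    intro D x
    unfold J
    rw [mem_filter, mem_Icc]
  have hodd : ∀ x ∈ J G T0 D T j, x % 2 = 1 := by
    intro x hx
    obtain ⟨⟨h1, h2⟩, h3, h4⟩ := (hJm D x).1 hx
    by_contra h5
    have h6 := hW.even x h1 h2 (by omega)
    omega
  -- the enumeration of `J`
  obtain ⟨f, hf⟩ : ∃ f : ℕ → ℕ, f = fun i => if h : i < (J G T0 D T j).card then
    (J G T0 D T j).orderEmbOfFin rfl ⟨i, h⟩ else 0 := ⟨_, rfl⟩
  have hfv : ∀ i (h : i < (J G T0 D T j).card), f i = (J G T0 D T j).orderEmbOfFin rfl ⟨i, h⟩ := by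
    intro i h
    rw [hf]
    exact dif_pos h
  have hfm : ∀ i, i < (J G T0 D T j).card → f i ∈ J G T0 D T j := by
    intro i h
    rw [hfv i h]
    exact orderEmbOfFin_mem _ _ _
  have hfl : ∀ i, i + 1 < (J G T0 D T j).card → f i < f (i + 1) := by
    intro i h
    rw [hfv i (by omega), hfv (i + 1) h]
    refine ((J G T0 D T j).orderEmbOfFin rfl).lt_iff_lt.2 ?_
    rw [Fin.mk_lt_mk]
    omega
  have hfn : ∀ i x, i + 1 < (J G T0 D T j).card → f i < x → x < f (i + 1) → x ∉ J G T0 D T j := by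
    intro i x h h1 h2 hx
    have h3 : x ∈ Set.range ((J G T0 D T j).orderEmbOfFin rfl) := by
      rw [range_orderEmbOfFin]
      exact hx
    obtain ⟨⟨k, hk⟩, rfl⟩ := h3
    rw [hfv i (by omega)] at h1
    rw [hfv (i + 1) h] at h2
    have h4 := ((J G T0 D T j).orderEmbOfFin rfl).lt_iff_lt.1 h1
    have h5 := ((J G T0 D T j).orderEmbOfFin rfl).lt_iff_lt.1 h2
    rw [Fin.mk_lt_mk] at h4 h5
    omega
  refine hDBL _ _ f r hr hrJ hsub hfm hfl hfn ?_
  intro i0 hi0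
  -- neighbours
  have hnb : ∀ i, i + 1 < r → f (i0 + i) < f (i0 + (i + 1)) := by
    intro i hi
    have := hfl (i0 + i) (by omega)
    rwa [add_assoc] at this
  have hnb2 : ∀ i, i + 1 < r → f (i0 + i) + 1 < f (i0 + (i + 1)) := by
    intro i hi
    have h1 := hnb i hi
    have h2 := hodd _ (hfm (i0 + i) (by omega))
    have h3 := hodd _ (hfm (i0 + (i + 1)) (by omega))
    omega
  have hin : ∀ i, i + 1 < r → ∀ x, f (i0 + i) < x → x < f (i0 + (i + 1)) →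
      (2 ≤ x ∧ x ≤ G) ∧ T0 ≤ T x ∧ x ∉ J G T0 D T j := by
    intro i hi x h1 h2
    obtain ⟨⟨a1, a2⟩, a3, a4⟩ := (hJm D _).1 (hfm (i0 + i) (by omega))
    obtain ⟨⟨b1, b2⟩, b3, b4⟩ := (hJm D _).1 (hfm (i0 + (i + 1)) (by omega))
    refine ⟨⟨by omega, by omega⟩, a3.trans (T_mono hW a1 h1.le (by omega)), ?_⟩
    exact hfn (i0 + i) x (by omega) h1 (by rwa [add_assoc])
  have hD1 : 1 ≤ D := by omega
  obtain ⟨A, hA⟩ : ∃ A : Finset ℕ, A = (range (r - 1)).filter (fun i => Y * (T (f (i0 + (i + 1))) -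
    (T (f (i0 + i)) + 2 * j (f (i0 + i)))) < j (f (i0 + (i + 1)))) := ⟨_, rfl⟩
  have hAr : 2 * A.card < r := by
    by_contra hcon
    push Not at hcon
    apply hB
    refine ⟨fun i => f (i0 + i), fun i => T (f (i0 + i)), fun i => j (f (i0 + i)), ?_, ?_, ?_⟩
    · intro i hi
      have hm := hfm (i0 + i) (by omega)
      obtain ⟨⟨a1, a2⟩, a3, a4⟩ := (hJm D _).1 hm
      exact ⟨a2, hodd _ hm, a3, hTs _ a1 a2, a4, hW.dvdT _ a1 a2 (hodd _ hm),
        hW.dvdN _ a1 a2 (hodd _ hm), hn₀ _ a1 a2 a3⟩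
    · intro i hi
      obtain ⟨⟨a1, a2⟩, a3, a4⟩ := (hJm D _).1 (hfm (i0 + i) (by omega))
      obtain ⟨⟨b1, b2⟩, b3, b4⟩ := (hJm D _).1 (hfm (i0 + (i + 1)) (by omega))
      obtain ⟨g1, g2⟩ := gap hW (E := D) a1 (hnb2 i hi) b2 (fun x h1 h2 => by
        obtain ⟨h3, h4, h5⟩ := hin i hi x h1 h2
        by_contra h6
        exact h5 ((hJm D x).2 ⟨h3, h4, by omega⟩)) hD1
      refine ⟨hnb i hi, g1, ?_⟩
      have h7 : 2 * G * D ≤ 2 * G * j (f (i0 + (i + 1))) := Nat.mul_le_mul_left _ b4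
      show T (f (i0 + (i + 1))) ≤ T (f (i0 + i)) + 2 * j (f (i0 + i)) + 2 * G * j (f (i0 + (i + 1)))
      omega
    · rw [hA] at hcon
      exact hcon
  have hsplit : (range (r - 1)).card = A.card + ((range (r - 1)).filter (fun i => ¬ (Y *
      (T (f (i0 + (i + 1))) - (T (f (i0 + i)) + 2 * j (f (i0 + i)))) < j (f (i0 + (i + 1)))))).card := by
    rw [hA]
    exact (card_filter_add_card_filter_not _).symm
  rw [card_range] at hsplit
  have hle : ((range (r - 1)).filter (fun i => ¬ (Y *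
      (T (f (i0 + (i + 1))) - (T (f (i0 + i)) + 2 * j (f (i0 + i)))) < j (f (i0 + (i + 1)))))).card ≤
      ((range (r - 1)).filter (fun i => ∃ x ∈ J G T0 D' T j, f (i0 + i) < x ∧
        x < f (i0 + i + 1))).card := by
    refine card_le_card ?_
    intro i hi
    rw [mem_filter, mem_range] at hi ⊢
    obtain ⟨hi1, hi2⟩ := hi
    have hi3 : i + 1 < r := by omega
    refine ⟨hi1, ?_⟩
    by_contra hcon
    push Not at hcon
    apply hi2
    obtain ⟨⟨a1, a2⟩, a3, a4⟩ := (hJm D _).1 (hfm (i0 + i) (by omega))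
    obtain ⟨⟨b1, b2⟩, b3, b4⟩ := (hJm D _).1 (hfm (i0 + (i + 1)) (by omega))
    obtain ⟨g1, g2⟩ := gap hW (E := D') a1 (hnb2 i hi3) b2 (fun x h1 h2 => by
      obtain ⟨h3, h4, h5⟩ := hin i hi3 x h1 h2
      by_contra h6
      have h7 := hcon x ((hJm D' x).2 ⟨h3, h4, by omega⟩) h1
      rw [add_assoc] at h7
      omega) (by omega)
    have h8 : T (f (i0 + (i + 1))) - (T (f (i0 + i)) + 2 * j (f (i0 + i))) < 2 * G * D' := by omega
    have h9 : Y * (T (f (i0 + (i + 1))) - (T (f (i0 + i)) + 2 * j (f (i0 + i)))) < Y * (2 * G * D') :=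
      Nat.mul_lt_mul_of_pos_left h8 hY
    have h10 : Y * (2 * G * D') = 2 * G * Y * D' := by ring
    omega
  omega

theorem t_RUN' (hDBL : S_DBL) {n₀ N G Y T0 Ts r K : ℕ} {T j D : ℕ → ℕ} (hW : Walk N G T j)
    (hn₀ : ∀ n, 2 ≤ n → n ≤ G → T0 ≤ T n → n₀ ≤ n)
    (hTs : ∀ n, 2 ≤ n → n ≤ G → T n ≤ Ts) (hr : 2 ≤ r) (hY : 1 ≤ Y) (hG : 1 ≤ G) (hD : ∀ k, k ≤ K → G < D k)
    (hDD : ∀ k, k < K → 2 * G * Y * D (k + 1) ≤ D k)
    (hB : ∀ k, k < K → ¬ BadRun' n₀ G Y T0 Ts (D k) r N) (hr0 : r ≤ (J G T0 (D 0) T j).card) :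
    9 ^ K * (J G T0 (D 0) T j).card ≤ 8 ^ K * G := by
  have key : ∀ k, k ≤ K → r ≤ (J G T0 (D k) T j).card ∧
      9 ^ k * (J G T0 (D 0) T j).card ≤ 8 ^ k * (J G T0 (D k) T j).card := by
    intro k
    induction k with
    | zero => intro _; exact ⟨hr0, by simp⟩
    | succ k ih =>
      intro hk
      obtain ⟨h1, h2⟩ := ih (by omega)
      obtain ⟨h3, h4⟩ := step hDBL hW hn₀ hTs hr hY hG (hD (k + 1) hk) (hDD k (by omega))
        (hB k (by omega)) h1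
      refine ⟨h1.trans (card_le_card h3), ?_⟩
      calc 9 ^ (k + 1) * (J G T0 (D 0) T j).card = 9 * (9 ^ k * (J G T0 (D 0) T j).card) := by ring
        _ ≤ 9 * (8 ^ k * (J G T0 (D k) T j).card) := Nat.mul_le_mul_left _ h2
        _ = 8 ^ k * (9 * (J G T0 (D k) T j).card) := by ring
        _ ≤ 8 ^ k * (8 * (J G T0 (D (k + 1)) T j).card) := Nat.mul_le_mul_left _ h4
        _ = 8 ^ (k + 1) * (J G T0 (D (k + 1)) T j).card := by ring
  refine (key K le_rfl).2.trans (Nat.mul_le_mul_left _ ?_)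
  unfold J
  refine (card_filter_le _ _).trans ?_
  rw [Nat.card_Icc]
  omega

end Pool.Agent.L7h55.GP
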